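import Pool.Agent.SH.Cb0

set_option autoImplicit false

namespace Pool.Agent.SH

open Finset

theorem cb1_mem_fl {n : ℕ} {x : V n} {i k : Fin n} : k ∈ fl x i ↔ (k ∈ x ↔ k ≠ i) := by
  unfold fl
  rw [Finset.mem_symmDiff, Finset.mem_singleton]
  tauto

theorem cb1_eq {n : ℕ} {x y : V n} : x = y ↔ ∀ k, k ∈ x ↔ k ∈ y := Finset.ext_iff

/-- Two different vertices with a common neighbour are at distance two. -/
theorem two_of_common {n : ℕ} {x y v : V n} (hxy : x ≠ y) (hx : adj x v) (hy : adj y v) :
    (symmDiff x y).card = 2 := by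
  obtain ⟨i, hi⟩ := adj_iff.1 hx
  obtain ⟨j, hj⟩ := adj_iff.1 hy
  have hij : i ≠ j := by
    rintro rfl
    exact hxy (fl_inj'.1 (hi.symm.trans hj))
  have h : symmDiff x y = {i, j} := by
    have h1 := cb1_eq.1 (hi.symm.trans hj)
    ext k
    have h2 := h1 k
    rw [cb1_mem_fl, cb1_mem_fl] at h2
    rw [Finset.mem_symmDiff, Finset.mem_insert, Finset.mem_singleton]
    by_cases hk : k = i
    · subst hk
      have : k ≠ j := hij
      simp only [ne_eq, not_true_eq_false, iff_false, this, not_false_eq_true, iff_true] at h2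
      tauto
    · by_cases hk' : k = j
      · subst hk'
        simp only [ne_eq, hk, not_false_eq_true, iff_true, not_true_eq_false, iff_false] at h2
        tauto
      · simp only [ne_eq, hk, not_false_eq_true, iff_true, hk'] at h2
        tauto
  rw [h, Finset.card_pair hij]

/-- Vertices at distance two have exactly two common neighbours. -/
theorem common_two {n : ℕ} {x y : V n} (h : (symmDiff x y).card = 2) :
    ∃ v1 v2 : V n, v1 ≠ v2 ∧ adj x v1 ∧ adj y v1 ∧ adj x v2 ∧ adj y v2 ∧
      ∀ v, adj x v → adj y v → v = v1 ∨ v = v2 := by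
  obtain ⟨i, j, hij, hs⟩ := Finset.card_eq_two.1 h
  have hm : ∀ k, ((k ∈ x ∧ k ∉ y) ∨ (k ∈ y ∧ k ∉ x)) ↔ (k = i ∨ k = j) := by
    intro k
    have := cb1_eq.1 hs k
    rwa [Finset.mem_symmDiff, Finset.mem_insert, Finset.mem_singleton] at this
  have hyi : fl x i = fl y j := by
    rw [cb1_eq]
    intro k
    rw [cb1_mem_fl, cb1_mem_fl]
    have h1 := hm k
    by_cases hk : k = i
    · subst hk
      have : k ≠ j := hij
      simp only [ne_eq, not_true_eq_false, iff_false, this, not_false_eq_true, iff_true]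
      simp only [true_or, iff_true] at h1
      tauto
    · by_cases hk' : k = j
      · subst hk'
        simp only [ne_eq, hk, not_false_eq_true, iff_true, not_true_eq_false, iff_false]
        simp only [or_true, iff_true] at h1
        tauto
      · simp only [ne_eq, hk, not_false_eq_true, iff_true, hk']
        simp only [hk, hk', or_self, iff_false] at h1
        tauto
  have hyj : fl x j = fl y i := by
    have h1 : fl (fl (fl x i) i) j = fl (fl (fl y j) j) i := by
      rw [hyi, fl_comm (fl y j) i j]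
    rwa [fl_fl, fl_fl] at h1
  refine ⟨fl x i, fl x j, fun h => hij (fl_inj.1 h), adj_fl x i, hyi ▸ adj_fl y j, adj_fl x j,
    hyj ▸ adj_fl y i, ?_⟩
  intro v hxv hyv
  obtain ⟨a, rfl⟩ := adj_iff.1 hxv
  obtain ⟨b, hb⟩ := adj_iff.1 hyv
  have ha : a = i ∨ a = j := by
    by_cases hab : a = b
    · subst hab
      have hxy : x = y := fl_inj'.1 hb
      exfalso
      subst hxy
      have := (hm i).2 (Or.inl rfl)
      tauto
    · have h1 := cb1_eq.1 hb a
      rw [cb1_mem_fl, cb1_mem_fl] at h1
      simp only [ne_eq, not_true_eq_false, iff_false, hab, not_false_eq_true, iff_true] at h1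
      exact (hm a).1 (by tauto)
  rcases ha with rfl | rfl
  · exact Or.inl rfl
  · exact Or.inr rfl

theorem card_common_le {n : ℕ} {x y : V n} (hxy : x ≠ y) :
    (univ.filter fun v => adj x v ∧ adj y v).card ≤ 2 := by
  by_cases h : ∃ v, adj x v ∧ adj y v
  · obtain ⟨v, hx, hy⟩ := h
    obtain ⟨v1, v2, -, -, -, -, -, h2⟩ := common_two (two_of_common hxy hx hy)
    refine (Finset.card_le_card (t := {v1, v2}) ?_).trans Finset.card_le_two
    intro w hw
    rw [Finset.mem_filter] at hw
    rw [Finset.mem_insert, Finset.mem_singleton]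
    exact h2 w hw.2.1 hw.2.2
  · have : (univ.filter fun v => adj x v ∧ adj y v) = ∅ := by
      rw [Finset.filter_eq_empty_iff]
      intro v _ hv
      exact h ⟨v, hv⟩
    rw [this, Finset.card_empty]
    exact Nat.zero_le _

/-- The second common neighbour of `fl y i` and `fl y j`. -/
theorem eq_fl_fl {n : ℕ} {y v : V n} {i j : Fin n} (hij : i ≠ j) (hi : adj v (fl y i))
    (hj : adj v (fl y j)) (hv : v ≠ y) : v = fl (fl y i) j := by
  obtain ⟨a, ha⟩ := adj_iff.1 (adj_comm.1 hi)
  obtain ⟨b, hb⟩ := adj_iff.1 (adj_comm.1 hj)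
  have hai : a ≠ i := by
    rintro rfl
    exact hv (ha.trans (fl_fl y a))
  have h1 := cb1_eq.1 (ha.symm.trans hb) a
  have h2 := cb1_eq.1 (ha.symm.trans hb) i
  have h3 := cb1_eq.1 (ha.symm.trans hb) j
  rw [cb1_mem_fl, cb1_mem_fl, cb1_mem_fl, cb1_mem_fl] at h1 h2 h3
  have hji : j ≠ i := hij.symm
  have hia : i ≠ a := hai.symm
  by_cases haj : a = j
  · rw [ha, haj]
  · exfalso
    have hja : j ≠ a := fun h => haj h.symm
    by_cases hbi : b = i
    · subst hbi
      by_cases hy : a ∈ y <;> simp_all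
    · have hib : i ≠ b := fun h => hbi h.symm
      by_cases hy : i ∈ y <;> simp_all

end Pool.Agent.SH
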