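import Pool.Agent.SH.Cb1

set_option autoImplicit false

namespace Pool.Agent.SH

open Finset

theorem cb2_mem_fl {n : ℕ} {x : V n} {i k : Fin n} : k ∈ fl x i ↔ (k ∈ x ↔ k ≠ i) := by
  unfold fl
  rw [Finset.mem_symmDiff, Finset.mem_singleton]
  tauto

/-- a path of length three from `y0` to `y1` -/
theorem cb2_path {n : ℕ} {y0 y1 : V n} {i a b : Fin n} (h : fl (fl y0 i) a = fl y1 b) (k : Fin n) :
    k ∈ symmDiff y0 y1 ↔ ((k = i ↔ (k = a ↔ k = b))) := by
  have h1 := Finset.ext_iff.1 h k
  rw [cb2_mem_fl, cb2_mem_fl, cb2_mem_fl] at h1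
  rw [Finset.mem_symmDiff]
  tauto

/-- At most three neighbours of `y0` are adjacent to a neighbour of `y1`, if `y0`, `y1` are not
adjacent. -/
theorem three {n : ℕ} {y0 y1 : V n} (h : ¬ adj y0 y1) :
    (univ.filter fun v => adj y0 v ∧ ∃ v', adj y1 v' ∧ adj v v').card ≤ 3 := by
  have key : ∀ v, (adj y0 v ∧ ∃ v', adj y1 v' ∧ adj v v') → ∃ i a b, v = fl y0 i ∧
      symmDiff y0 y1 ⊆ {i, a, b} ∧ i ∈ symmDiff y0 y1 := by
    rintro v ⟨h0, v', h1, h2⟩
    obtain ⟨i, rfl⟩ := adj_iff.1 h0
    obtain ⟨b, rfl⟩ := adj_iff.1 h1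
    obtain ⟨a, ha⟩ := adj_iff.1 h2
    have hm := cb2_path ha.symm
    refine ⟨i, a, b, rfl, ?_, ?_⟩
    · intro k hk
      have h3 := (hm k).1 hk
      rw [mem_insert, mem_insert, mem_singleton]
      tauto
    · by_contra hi
      apply h
      have h3 : ¬ (i = i ↔ (i = a ↔ i = b)) := fun h' => hi ((hm i).2 h')
      by_cases hia : i = a
      · by_cases hib : i = b
        · exact absurd (iff_of_true rfl (iff_of_true hia hib)) h3
        · have h4 : symmDiff y0 y1 = {b} := by
            ext k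
            rw [hm k, mem_singleton, ← hia]
            tauto
          unfold adj
          rw [h4, card_singleton]
      · by_cases hib : i = b
        · have h4 : symmDiff y0 y1 = {a} := by
            ext k
            rw [hm k, mem_singleton, ← hib]
            tauto
          unfold adj
          rw [h4, card_singleton]
        · exact absurd (iff_of_true rfl (iff_of_false hia hib)) h3
  by_cases he : ∃ v, adj y0 v ∧ ∃ v', adj y1 v' ∧ adj v v'
  · obtain ⟨v, hv⟩ := he
    obtain ⟨i, a, b, -, hs, -⟩ := key v hv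
    have h1 : (univ.filter fun v => adj y0 v ∧ ∃ v', adj y1 v' ∧ adj v v') ⊆
        (symmDiff y0 y1).image (fl y0) := by
      intro w hw
      obtain ⟨j, _, _, rfl, -, hj⟩ := key w (mem_filter.1 hw).2
      exact mem_image_of_mem _ hj
    exact (card_le_card h1).trans (card_image_le.trans ((card_le_card hs).trans card_le_three))
  · rw [filter_eq_empty_iff.2 fun v _ hv => he ⟨v, hv⟩, card_empty]
    exact Nat.zero_le _

/-- coordinates for `a`, `c` and their common neighbours -/
theorem cb2_coord {n : ℕ} {a c v1 v2 : V n} (hv : v1 ≠ v2) (h1 : adj a v1) (h2 : adj c v1)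
    (h3 : adj a v2) (h4 : adj c v2) (hac : a ≠ c) :
    ∃ i j, i ≠ j ∧ v1 = fl a i ∧ v2 = fl a j ∧ c = fl (fl a i) j := by
  obtain ⟨i, rfl⟩ := adj_iff.1 h1
  obtain ⟨j, rfl⟩ := adj_iff.1 h3
  have hij : i ≠ j := fun h => hv (by rw [h])
  exact ⟨i, j, hij, rfl, rfl, eq_fl_fl hij h2 h4 hac.symm⟩

theorem cb2_two {n : ℕ} {a y : V n} (h : (symmDiff a y).card = 2) :
    ∃ p q, p ≠ q ∧ y = fl (fl a p) q := by
  obtain ⟨v1, -, -, h1, h2, -⟩ := common_two h
  obtain ⟨p, rfl⟩ := adj_iff.1 h1
  obtain ⟨q, hq⟩ := adj_iff.1 (adj_comm.1 h2)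
  refine ⟨p, q, ?_, hq⟩
  rintro rfl
  rw [fl_fl] at hq
  rw [hq, symmDiff_self] at h
  simp at h

theorem cb2_four {n : ℕ} {a x y : V n} {i j p q : Fin n} (hx : x = fl (fl a i) j)
    (hy : y = fl (fl a p) q) (h : (symmDiff x y).card = 2) (hij : i ≠ j) (hpq : p ≠ q) :
    i = p ∨ i = q ∨ j = p ∨ j = q := by
  by_contra hne
  have h1 : i ≠ p := fun h => hne (Or.inl h)
  have h2 : i ≠ q := fun h => hne (Or.inr (Or.inl h))
  have h3 : j ≠ p := fun h => hne (Or.inr (Or.inr (Or.inl h)))
  have h4 : j ≠ q := fun h => hne (Or.inr (Or.inr (Or.inr h)))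
  have hm : ∀ k, k ∈ symmDiff x y ↔ (((k ∈ a ↔ k ≠ i) ↔ k ≠ j) ↔ ¬ ((k ∈ a ↔ k ≠ p) ↔ k ≠ q)) := by
    intro k
    rw [mem_symmDiff, hx, hy, cb2_mem_fl, cb2_mem_fl, cb2_mem_fl, cb2_mem_fl]
    tauto
  have hs : ({i, j, p, q} : Finset (Fin n)) ⊆ symmDiff x y := by
    intro k hk
    rw [hm]
    rw [mem_insert, mem_insert, mem_insert, mem_singleton] at hk
    rcases hk with rfl | rfl | rfl | rfl
    · tauto
    · have := hij.symm
      tauto
    · have := h1.symm
      have := h3.symm
      tauto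
    · have := h2.symm
      have := h4.symm
      have := hpq.symm
      tauto
  have h5 := card_le_card hs
  rw [card_insert_of_notMem, card_insert_of_notMem, card_insert_of_notMem, card_singleton, h] at h5
  · omega
  · rw [mem_singleton]
    exact hpq
  · rw [mem_insert, mem_singleton]
    tauto
  · rw [mem_insert, mem_insert, mem_singleton]
    tauto

/-- The local geometry of the star lemma: with `v1`, `v2` the common neighbours of `a`, `c`, a
vertex at distance two of both is a neighbour of `v1` or of `v2`. -/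
theorem near_two {n : ℕ} {a c v1 v2 y : V n} (hv : v1 ≠ v2) (h1 : adj a v1) (h2 : adj c v1)
    (h3 : adj a v2) (h4 : adj c v2) (hac : a ≠ c) (hay : (symmDiff a y).card = 2)
    (hcy : (symmDiff c y).card = 2) : adj v1 y ∨ adj v2 y := by
  obtain ⟨i, j, hij, rfl, rfl, hc⟩ := cb2_coord hv h1 h2 h3 h4 hac
  obtain ⟨p, q, hpq, hy⟩ := cb2_two hay
  rcases cb2_four hc hy hcy hij hpq with rfl | rfl | rfl | rfl
  · left
    rw [hy]
    exact adj_fl _ _
  · left
    rw [hy, fl_comm]
    exact adj_fl _ _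
  · right
    rw [hy]
    exact adj_fl _ _
  · right
    rw [hy, fl_comm]
    exact adj_fl _ _

/-- Two neighbours of `v1` at distance two from `a`, `c`, both at distance two from the same
neighbour `d` of `v2`, are equal. -/
theorem near_unique {n : ℕ} {a c v1 v2 y y' d : V n} (hv : v1 ≠ v2) (h1 : adj a v1)
    (h2 : adj c v1) (h3 : adj a v2) (h4 : adj c v2) (hac : a ≠ c)
    (hay : (symmDiff a y).card = 2) (hcy : (symmDiff c y).card = 2)
    (hay' : (symmDiff a y').card = 2) (hcy' : (symmDiff c y').card = 2)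
    (had : (symmDiff a d).card = 2) (hcd : (symmDiff c d).card = 2)
    (hy : adj v1 y) (hy' : adj v1 y') (hd : adj v2 d)
    (hyd : (symmDiff y d).card = 2) (hyd' : (symmDiff y' d).card = 2) : y = y' := by
  obtain ⟨i, j, hij, rfl, rfl, hc⟩ := cb2_coord hv h1 h2 h3 h4 hac
  have hne : ∀ {x z : V n}, (symmDiff x z).card = 2 → x ≠ z := by
    rintro x z h rfl
    rw [symmDiff_self] at h
    simp at h
  obtain ⟨r, hr⟩ := adj_iff.1 hd
  have hrj : r ≠ j := by
    rintro rfl
    rw [fl_fl] at hr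
    exact hne had hr.symm
  have hri : r ≠ i := by
    rintro rfl
    rw [fl_comm, ← hc] at hr
    exact hne hcd hr.symm
  have key : ∀ z, (symmDiff a z).card = 2 → (symmDiff c z).card = 2 → adj (fl a i) z →
      (symmDiff z d).card = 2 → z = fl (fl a i) r := by
    intro z haz hcz hz hzd
    obtain ⟨q, hq⟩ := adj_iff.1 hz
    have hqi : q ≠ i := by
      rintro rfl
      rw [fl_fl] at hq
      exact hne haz hq.symm
    have hqj : q ≠ j := by
      rintro rfl
      rw [← hc] at hq
      exact hne hcz hq.symm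
    rcases cb2_four hq hr hzd hqi.symm hrj.symm with h | h | h | h
    · exact absurd h hij
    · exact absurd h hri.symm
    · exact absurd h hqj
    · rw [hq, h]
  rw [key y hay hcy hy hyd, key y' hay' hcy' hy' hyd']

end Pool.Agent.SH
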