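import Pool.Agent.SH.Df

set_option autoImplicit false

namespace Pool.Agent.SH

open Finset

theorem adj_comm {n : ℕ} {x y : V n} : adj x y ↔ adj y x := by
  unfold adj
  rw [symmDiff_comm]

theorem adj_fl {n : ℕ} (x : V n) (i : Fin n) : adj x (fl x i) := by
  unfold adj fl
  rw [symmDiff_symmDiff_cancel_left]
  exact Finset.card_singleton i

theorem adj_iff {n : ℕ} {x y : V n} : adj x y ↔ ∃ i, y = fl x i := by
  constructor
  · intro h
    unfold adj at h
    obtain ⟨i, hi⟩ := Finset.card_eq_one.1 h
    refine ⟨i, ?_⟩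
    unfold fl
    rw [← hi, symmDiff_symmDiff_cancel_left]
  · rintro ⟨i, rfl⟩
    exact adj_fl x i

theorem fl_fl {n : ℕ} (x : V n) (i : Fin n) : fl (fl x i) i = x := by
  unfold fl
  rw [symmDiff_symmDiff_cancel_right]

theorem fl_comm {n : ℕ} (x : V n) (i j : Fin n) : fl (fl x i) j = fl (fl x j) i := by
  unfold fl
  rw [symmDiff_assoc, symmDiff_assoc, symmDiff_comm ({i} : V n) {j}]

theorem fl_inj {n : ℕ} {x : V n} {i j : Fin n} : fl x i = fl x j ↔ i = j := by
  unfold fl
  constructor
  · intro h
    have := symmDiff_right_injective x h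
    exact Finset.singleton_injective this
  · rintro rfl
    rfl

theorem fl_inj' {n : ℕ} {x y : V n} {i : Fin n} : fl x i = fl y i ↔ x = y := by
  unfold fl
  constructor
  · intro h
    exact symmDiff_left_injective _ h
  · rintro rfl
    rfl

theorem card_nb {n : ℕ} (x : V n) : (univ.filter fun v => adj x v).card = n := by
  classical
  have h : (univ.filter fun v => adj x v) = (univ : Finset (Fin n)).image (fl x) := by
    ext v
    simp only [Finset.mem_filter, Finset.mem_univ, true_and, Finset.mem_image]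
    rw [adj_iff]
    constructor
    · rintro ⟨i, hi⟩
      exact ⟨i, hi.symm⟩
    · rintro ⟨i, hi⟩
      exact ⟨i, hi.symm⟩
  rw [h, Finset.card_image_of_injective _ (fun i j hij => fl_inj.1 hij), Finset.card_univ, Fintype.card_fin]

theorem adj_symmDiff {n : ℕ} {w x y : V n} : adj (symmDiff w x) (symmDiff w y) ↔ adj x y := by
  unfold adj
  have : symmDiff (symmDiff w x) (symmDiff w y) = symmDiff x y := by
    rw [symmDiff_symmDiff_symmDiff_comm, symmDiff_self, bot_symmDiff]
  rw [this]

/-- `w ∆ (insert a S) = fl (w ∆ S) a` for `a ∉ S`. -/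
theorem symmDiff_insert {n : ℕ} (w S : V n) (a : Fin n) (ha : a ∉ S) :
    symmDiff w (insert a S) = fl (symmDiff w S) a := by
  have h : insert a S = symmDiff S {a} := by
    rw [Disjoint.symmDiff_eq_sup (by simpa using ha)]
    ext b
    simp
  rw [h]
  unfold fl
  rw [symmDiff_assoc]

theorem fl_insert {n : ℕ} (S : V n) (a : Fin n) (ha : a ∉ S) : fl S a = insert a S := by
  unfold fl
  rw [Disjoint.symmDiff_eq_sup (by simpa using ha)]
  ext b
  simp

theorem fl_erase {n : ℕ} (T : V n) (t : Fin n) (ht : t ∈ T) : fl T t = T.erase t := by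
  unfold fl
  ext b
  simp only [Finset.mem_symmDiff, Finset.mem_singleton, Finset.mem_erase]
  constructor
  · rintro (⟨h1, h2⟩ | ⟨h1, h2⟩)
    · exact ⟨h2, h1⟩
    · subst h1
      exact absurd ht h2
  · rintro ⟨h1, h2⟩
    exact Or.inl ⟨h2, h1⟩

end Pool.Agent.SH
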