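import Mathlib

/-!
# Shotgun reconstruction of coloured cubes: definitions

Vertices of the `n`-cube are the subsets of `Fin n`.
-/

set_option autoImplicit false

namespace Pool.Agent.SH

open Finset

/-- Vertices of the `n`-cube. -/
abbrev V (n : ℕ) := Finset (Fin n)

/-- Flip the coordinate `i`. -/
def fl {n : ℕ} (x : V n) (i : Fin n) : V n := symmDiff x {i}

/-- Adjacency in the `n`-cube. -/
def adj {n : ℕ} (x y : V n) : Prop := (symmDiff x y).card = 1

instance {n : ℕ} : DecidableRel (@adj n) := fun x y => inferInstanceAs (Decidable (_ = _))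

/-- `χ ∘ σ` has the same coloured stars as `χ`, at the vertex `w` by the bijection `β w` of the
star of `w` with the star of `σ w`. -/
def Twin {n : ℕ} {C : Type} (χ : V n → C) (σ : Equiv.Perm (V n)) (β : V n → V n → V n) : Prop :=
  (∀ w u, adj w u → adj (σ w) (β w u)) ∧
  (∀ w u u', adj w u → adj w u' → β w u = β w u' → u = u') ∧
  (∀ w u, adj w u → χ (β w u) = χ (σ u))

/-- The number of edges at `w` which `σ` does not preserve. -/
def dfc {n : ℕ} (σ : Equiv.Perm (V n)) (w : V n) : ℕ :=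
  (univ.filter fun i : Fin n => ¬ adj (σ w) (σ (fl w i))).card

/-- A window: images `x S` of the `k`-sets, positions `p S T` in the star of `x S`. -/
structure IsCfg {n : ℕ} {C : Type} (k : ℕ) (χ : V n → C) (x : V n → V n) (p : V n → V n → V n) :
    Prop where
  inj : ∀ S S' : V n, S.card = k → S'.card = k → x S = x S' → S = S'
  hp : ∀ S T : V n, S.card = k → T.card = k + 1 → S ⊆ T → adj (x S) (p S T)
  hpi : ∀ S T T' : V n, S.card = k → T.card = k + 1 → T'.card = k + 1 → S ⊆ T → S ⊆ T' →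
    p S T = p S T' → T = T'
  hc : ∀ S S' T : V n, S.card = k → S'.card = k → T.card = k + 1 → S ⊆ T → S' ⊆ T →
    χ (p S T) = χ (p S' T)

/-- The images of the `k`-subsets of `T` have a common neighbour. -/
def Good {n : ℕ} (k : ℕ) (x : V n → V n) (T : V n) : Prop :=
  ∃ v, ∀ S : V n, S.card = k → S ⊆ T → adj (x S) v

open Classical in
/-- The `(k+1)`-sets which are not good. -/
noncomputable def badT {n : ℕ} (k : ℕ) (x : V n → V n) : Finset (V n) :=
  (powersetCard (k + 1) univ).filter fun T => ¬ Good k x T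

/-- `χ` is constant on `D`. -/
def Mono {n : ℕ} {C : Type} (χ : V n → C) (D : Finset (V n)) : Prop :=
  ∀ a ∈ D, ∀ b ∈ D, χ a = χ b

open Classical in
/-- Transversals of the stars of the `x (T.erase t)`, `t ∈ T`, with `k + 1` elements. -/
noncomputable def Fam1 {n : ℕ} (k : ℕ) (x : V n → V n) (T : V n) : Finset (Finset (V n)) :=
  univ.filter fun D => D.card = k + 1 ∧
    ∃ i : Fin n → Fin n, D = T.image fun t => fl (x (T.erase t)) (i t)

open Classical in
/-- Pairs: a common neighbour of two of the `x (T.erase t)` and a neighbour of another one. -/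
noncomputable def Fam2 {n : ℕ} (x : V n → V n) (T : V n) : Finset (Finset (V n)) :=
  univ.filter fun D => D.card = 2 ∧ ∃ t ∈ T, ∃ t' ∈ T, ∃ t'' ∈ T, ∃ v v' : V n,
    x (T.erase t) ≠ x (T.erase t') ∧ adj (x (T.erase t)) v ∧ adj (x (T.erase t')) v ∧
      adj (x (T.erase t'')) v' ∧ D = {v, v'}

/-- The family of possible monochromatic sets at `T`. -/
noncomputable def Fam {n : ℕ} (k : ℕ) (x : V n → V n) (T : V n) : Finset (Finset (V n)) :=
  Fam1 k x T ∪ Fam2 x T

/-- Many disjoint monochromatic sets in one window. -/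
def Code3 {n : ℕ} {C : Type} (k : ℕ) (c : ℝ) (χ : V n → C) : Prop :=
  ∃ (x : V n → V n) (𝒯 : Finset (V n)) (D : V n → Finset (V n)),
    𝒯 ⊆ powersetCard (k + 1) univ ∧ c * (n.choose (k + 1) : ℝ) ≤ 𝒯.card ∧
    (∀ T ∈ 𝒯, D T ∈ Fam k x T) ∧
    (∀ T ∈ 𝒯, ∀ T' ∈ 𝒯, T ≠ T' → Disjoint (D T) (D T')) ∧ ∀ T ∈ 𝒯, Mono χ (D T)

/-- The stars of two different vertices share at least `n / 4` colours. -/
def E1f {n : ℕ} {C : Type} (χ : V n → C) : Prop :=
  ∃ (x x' : V n) (A : Finset (V n)) (ι : V n → V n), x ≠ x' ∧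
    (∀ a ∈ A, adj x a ∧ ¬ adj x' a ∧ adj x' (ι a) ∧ χ a = χ (ι a)) ∧ n ≤ 4 * A.card

/-- Many coincidences in the second neighbourhoods of two vertices. -/
def E2f {n : ℕ} {C : Type} (χ : V n → C) : Prop :=
  ∃ (y0 y1 : V n) (f h : Fin n → Fin n) (R : Finset (Fin n × Fin n)) (z : Fin n × Fin n → Fin n),
    n ^ 2 ≤ 64 * R.card ∧
    (∀ r ∈ R, ∀ r' ∈ R, fl (fl y1 (h r.1)) (h r.2) = fl (fl y1 (h r'.1)) (h r'.2) → r = r') ∧
    (∀ r ∈ R, ∀ r' ∈ R, fl (fl (fl y0 (f r.1)) (f r.2)) (z r) ≠ fl (fl y1 (h r'.1)) (h r'.2)) ∧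
    ∀ r ∈ R, χ (fl (fl y1 (h r.1)) (h r.2)) = χ (fl (fl (fl y0 (f r.1)) (f r.2)) (z r))

/-- At each `w0` at most a share `δ` of the vertices of level `j` have more than `η n` edges
which `σ` does not preserve. -/
def Lv {n : ℕ} (σ : Equiv.Perm (V n)) (j : ℕ) (η δ : ℝ) : Prop :=
  ∀ w0 : V n, (((powersetCard j (univ : V n)).filter fun S =>
    η * n < dfc σ (symmDiff w0 S)).card : ℝ) ≤ δ * n.choose j

end Pool.Agent.SH
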