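import Pool.Agent.SH.Nc

set_option autoImplicit false

namespace Pool.Agent.SH

open Finset

theorem dn_double {n : ℕ} (j : ℕ) (P : V n → Prop) [DecidablePred P] :
    ∑ S ∈ powersetCard j (univ : V n), ((Sᶜ).filter fun a => P (insert a S)).card ≤
      (j + 1) * ((powersetCard (j + 1) (univ : V n)).filter P).card := by
  have h1 : ∑ S ∈ powersetCard j (univ : V n), ((Sᶜ).filter fun a => P (insert a S)).card =
      ((powersetCard j (univ : V n)).sigma fun S => (Sᶜ).filter fun a => P (insert a S)).card := by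
    rw [Finset.card_sigma]
  have h2 : (((powersetCard (j + 1) (univ : V n)).filter P).sigma fun S => S).card =
      (j + 1) * ((powersetCard (j + 1) (univ : V n)).filter P).card := by
    rw [Finset.card_sigma, mul_comm, Finset.sum_const_nat]
    intro S hS
    exact (mem_powersetCard.1 (mem_filter.1 hS).1).2
  rw [h1, ← h2]
  refine Finset.card_le_card_of_injOn (fun x => ⟨insert x.2 x.1, x.2⟩) ?_ ?_
  · rintro ⟨S, a⟩ hx
    simp only [coe_sigma, Set.mem_sigma_iff, mem_coe, mem_powersetCard, mem_filter, mem_compl,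
      subset_univ, true_and] at hx ⊢
    obtain ⟨hS, ha, hP⟩ := hx
    exact ⟨⟨by rw [card_insert_of_notMem ha, hS], hP⟩, mem_insert_self a S⟩
  · rintro ⟨S, a⟩ hx ⟨S', a'⟩ hx' h
    simp only [coe_sigma, Set.mem_sigma_iff, mem_coe, mem_powersetCard, mem_filter, mem_compl,
      subset_univ, true_and] at hx hx'
    simp only [Sigma.mk.injEq, heq_eq_eq] at h
    obtain ⟨h, rfl⟩ := h
    have : S = S' := by
      rw [← erase_insert hx.2.1, h, erase_insert hx'.2.1]
    subst this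
    rfl

theorem dn_half {n : ℕ} (σ : Equiv.Perm (V n)) (w : V n) (I N : Finset (Fin n)) (D : ℝ)
    (hD : 0 ≤ D) (hN : ∀ a ∈ I, a ∉ N → (dfc σ (fl w a) : ℝ) ≤ D) :
    ((((I \ N) ×ˢ I).filter fun p =>
      ¬ adj (σ (fl w p.1)) (σ (fl (fl w p.1) p.2))).card : ℝ) ≤ I.card * D := by
  classical
  set P : Finset (Fin n × Fin n) := ((I \ N) ×ˢ I).filter fun p =>
    ¬ adj (σ (fl w p.1)) (σ (fl (fl w p.1) p.2)) with hP
  have h1 : P.card ≤ ∑ a ∈ I \ N, dfc σ (fl w a) := by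
    have h2 : P ⊆ (I \ N).biUnion fun a =>
        (univ.filter fun i : Fin n => ¬ adj (σ (fl w a)) (σ (fl (fl w a) i))).image
          fun i => (a, i) := by
      rintro ⟨a, c⟩ h
      simp only [hP, mem_filter, mem_product] at h
      simp only [mem_biUnion, mem_image, mem_filter, mem_univ, true_and, Prod.mk.injEq]
      exact ⟨a, h.1.1, c, h.2, rfl, rfl⟩
    refine (card_le_card h2).trans (card_biUnion_le.trans (sum_le_sum fun a _ => ?_))
    exact card_image_le
  have h3 : ((∑ a ∈ I \ N, dfc σ (fl w a) : ℕ) : ℝ) ≤ ∑ a ∈ I \ N, D := by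
    push_cast
    refine sum_le_sum fun a ha => ?_
    rw [mem_sdiff] at ha
    exact hN a ha.1 ha.2
  calc (P.card : ℝ) ≤ ((∑ a ∈ I \ N, dfc σ (fl w a) : ℕ) : ℝ) := by exact_mod_cast h1
    _ ≤ ∑ a ∈ I \ N, D := h3
    _ = (I \ N).card * D := by rw [sum_const, nsmul_eq_mul]
    _ ≤ I.card * D := by
      gcongr
      exact sdiff_subset

/-- The pairs which are not at distance two. -/
theorem dn_pairs {n : ℕ} (σ : Equiv.Perm (V n)) (w : V n) (I N : Finset (Fin n)) (D : ℝ)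
    (hD : 0 ≤ D) (hN : ∀ a ∈ I, a ∉ N → (dfc σ (fl w a) : ℝ) ≤ D) :
    (((I ×ˢ I).filter fun p => p.1 ≠ p.2 ∧
      (symmDiff (σ (fl w p.1)) (σ (fl w p.2))).card ≠ 2).card : ℝ) ≤
      2 * I.card * (N.card + D) := by
  classical
  set P : Finset (Fin n × Fin n) := ((I \ N) ×ˢ I).filter fun p =>
    ¬ adj (σ (fl w p.1)) (σ (fl (fl w p.1) p.2)) with hP
  have hPc : (P.card : ℝ) ≤ I.card * D := dn_half σ w I N D hD hN
  have hsub : ((I ×ˢ I).filter fun p => p.1 ≠ p.2 ∧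
      (symmDiff (σ (fl w p.1)) (σ (fl w p.2))).card ≠ 2) ⊆
      (N ×ˢ I) ∪ (I ×ˢ N) ∪ (P ∪ P.image Prod.swap) := by
    rintro ⟨a, c⟩ h
    simp only [mem_filter, mem_product, mem_union, hP, mem_sdiff, mem_image, Prod.exists,
      Prod.swap_prod_mk, Prod.mk.injEq] at h ⊢
    obtain ⟨⟨ha, hc⟩, hac, h2⟩ := h
    by_cases h1 : a ∈ N
    · exact Or.inl (Or.inl ⟨h1, hc⟩)
    by_cases h3 : c ∈ N
    · exact Or.inl (Or.inr ⟨ha, h3⟩)
    by_cases h4 : adj (σ (fl w a)) (σ (fl (fl w a) c))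
    · by_cases h5 : adj (σ (fl w c)) (σ (fl (fl w c) a))
      · exfalso
        apply h2
        refine two_of_common (v := σ (fl (fl w a) c)) ?_ h4 ?_
        · intro h
          exact hac (fl_inj.1 (σ.injective h))
        · rw [fl_comm]
          exact h5
      · exact Or.inr (Or.inr ⟨c, a, ⟨⟨⟨hc, h3⟩, ha⟩, h5⟩, rfl, rfl⟩)
    · exact Or.inr (Or.inl ⟨⟨⟨ha, h1⟩, hc⟩, h4⟩)
  have h1 := card_le_card hsub
  have h2 : (((N ×ˢ I) ∪ (I ×ˢ N) ∪ (P ∪ P.image Prod.swap)).card) ≤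
      N.card * I.card + I.card * N.card + (P.card + P.card) := by
    refine (card_union_le _ _).trans (add_le_add ?_ ?_)
    · refine (card_union_le _ _).trans ?_
      rw [card_product, card_product]
    · exact (card_union_le _ _).trans (Nat.add_le_add_left card_image_le _)
  have h3 : (((I ×ˢ I).filter fun p => p.1 ≠ p.2 ∧
      (symmDiff (σ (fl w p.1)) (σ (fl w p.2))).card ≠ 2).card : ℝ) ≤
      N.card * I.card + I.card * N.card + (P.card + P.card) := by exact_mod_cast h1.trans h2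
  linarith

theorem dn_point {n : ℕ} {C : Type} {χ : V n → C} {σ : Equiv.Perm (V n)} {β : V n → V n → V n}
    (ht : Twin χ σ β) (h1 : ¬ E1f χ) (j : ℕ) (κ η : ℝ) (hκ : 0 < κ) (hη : 0 ≤ η)
    (hκη : κ + η ≤ 1 / 60) (hn : 100 ≤ n) (hj : 10 * j ≤ n) (hjn : (3 + j : ℝ) ≤ κ * n)
    (w0 S : V n) (hS : S.card = j)
    (hN : (((Sᶜ).filter fun a => η * n < dfc σ (symmDiff w0 (insert a S))).card : ℝ) ≤ κ * n) :
    (dfc σ (symmDiff w0 S) : ℝ) ≤ 11 * (κ + η) * n := by
  classical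
  set N := (Sᶜ).filter fun a => η * n < dfc σ (symmDiff w0 (insert a S)) with hNdef
  have hnpos : (0 : ℝ) < n := by
    have : (100 : ℝ) ≤ n := by exact_mod_cast hn
    linarith
  have hcard : (Sᶜ).card = n - j := by rw [card_compl, hS, Fintype.card_fin]
  have hjn' : j ≤ n := by omega
  have hcardR : ((Sᶜ).card : ℝ) = n - j := by
    rw [hcard, Nat.cast_sub hjn']
  have hjR : (10 * j : ℝ) ≤ n := by exact_mod_cast hj
  have hB := dn_pairs σ (symmDiff w0 S) Sᶜ N (η * n) (by positivity) (by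
    intro a ha haN
    rw [mem_compl] at ha
    by_contra hlt
    push Not at hlt
    apply haN
    rw [hNdef, mem_filter, mem_compl]
    refine ⟨ha, ?_⟩
    rw [symmDiff_insert w0 S a ha]
    exact hlt)
  set B := (((Sᶜ ×ˢ Sᶜ).filter fun p : Fin n × Fin n => p.1 ≠ p.2 ∧
      (symmDiff (σ (fl (symmDiff w0 S) p.1)) (σ (fl (symmDiff w0 S) p.2))).card ≠ 2).card) with hBdef
  have hB2 : (B : ℝ) ≤ 2 * ((n : ℝ) - j) * ((κ + η) * n) := by
    refine hB.trans ?_
    rw [hcardR]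
    have : (0 : ℝ) ≤ n - j := by linarith
    have h2 : (N.card : ℝ) + η * n ≤ (κ + η) * n := by linarith
    nlinarith
  have hm : (0 : ℝ) < n - j := by
    have : (100 : ℝ) ≤ n := by exact_mod_cast hn
    linarith
  have h20 : 20 * B ≤ (Sᶜ).card ^ 2 := by
    have : (20 * B : ℝ) ≤ ((Sᶜ).card : ℝ) ^ 2 := by
      rw [hcardR]
      have h3 : (κ + η) * n ≤ 1 / 60 * n := by gcongr
      have h4 : (1 / 60 : ℝ) * n ≤ 1 / 40 * (n - j) := by linarith
      nlinarith
    exact_mod_cast this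
  have h9 : 9 * n ≤ 10 * (Sᶜ).card := by omega
  have hnc := nc ht h1 (symmDiff w0 S) Sᶜ hn h9 h20
  rw [← hBdef] at hnc
  have hncR : ((Sᶜ).card : ℝ) * dfc σ (symmDiff w0 S) ≤ 5 * B + 3 * (Sᶜ).card +
      (Sᶜ).card * j := by
    have h5 : n - (Sᶜ).card = j := by omega
    rw [h5] at hnc
    exact_mod_cast hnc
  rw [hcardR] at hncR
  have h6 : ((n : ℝ) - j) * dfc σ (symmDiff w0 S) ≤ ((n : ℝ) - j) * (11 * (κ + η) * n) := by
    have h7 : (0:ℝ) ≤ η * n := by positivity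
    nlinarith
  exact le_of_mul_le_mul_left h6 hm

/-- From level `j + 1` to level `j`. -/
theorem lv_down (j : ℕ) (κ η δ : ℝ) (hκ : 0 < κ) (hη : 0 ≤ η) (hκη : κ + η ≤ 1 / 60)
    (hδ : 0 ≤ δ) :
    ∃ n0 : ℕ, ∀ n ≥ n0, ∀ (C : Type) (χ : V n → C) (σ : Equiv.Perm (V n))
      (β : V n → V n → V n), Twin χ σ β → ¬ E1f χ →
      Lv σ (j + 1) η δ → Lv σ j (11 * (κ + η)) (δ / κ) := by
  classical
  refine ⟨max 100 (max (10 * j) ⌈(3 + j : ℝ) / κ⌉₊), fun n hn C χ σ β ht h1 hl w0 => ?_⟩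
  have hn1 : 100 ≤ n := (le_max_left _ _).trans hn
  have hn2 : 10 * j ≤ n := ((le_max_left _ _).trans (le_max_right _ _)).trans hn
  have hn3 : (3 + j : ℝ) ≤ κ * n := by
    have h2 : ⌈(3 + j : ℝ) / κ⌉₊ ≤ n := ((le_max_right _ _).trans (le_max_right _ _)).trans hn
    have h3 : (3 + j : ℝ) / κ ≤ n := (Nat.le_ceil _).trans (by exact_mod_cast h2)
    rw [div_le_iff₀ hκ] at h3
    linarith
  have hnpos : (0 : ℝ) < n := by
    have : (100 : ℝ) ≤ n := by exact_mod_cast hn1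
    linarith
  set F := (powersetCard j (univ : V n)).filter fun S =>
    11 * (κ + η) * n < dfc σ (symmDiff w0 S) with hF
  set g : V n → ℕ := fun S =>
    ((Sᶜ).filter fun a => η * n < dfc σ (symmDiff w0 (insert a S))).card with hg
  have hlow : ∀ S ∈ F, κ * n ≤ (g S : ℝ) := by
    intro S hS
    rw [hF, mem_filter, mem_powersetCard] at hS
    by_contra hlt
    push Not at hlt
    exact absurd (dn_point ht h1 j κ η hκ hη hκη hn1 hn2 hn3 w0 S hS.1.2 hlt.le)
      (not_le.2 hS.2)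
  have hsum : ∑ S ∈ powersetCard j (univ : V n), g S ≤
      (j + 1) * ((powersetCard (j + 1) (univ : V n)).filter fun S =>
        η * n < dfc σ (symmDiff w0 S)).card :=
    dn_double j fun S => η * n < dfc σ (symmDiff w0 S)
  have hl' := hl w0
  have h5 : (F.card : ℝ) * (κ * n) ≤ ∑ S ∈ F, (g S : ℝ) := by
    rw [← nsmul_eq_mul]
    exact card_nsmul_le_sum _ _ _ hlow
  have h6 : ∑ S ∈ F, (g S : ℝ) ≤ ∑ S ∈ powersetCard j (univ : V n), (g S : ℝ) :=
    sum_le_sum_of_subset_of_nonneg (filter_subset _ _) fun _ _ _ => Nat.cast_nonneg _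
  have h7 : ∑ S ∈ powersetCard j (univ : V n), (g S : ℝ) ≤
      (j + 1) * (((powersetCard (j + 1) (univ : V n)).filter fun S =>
        η * n < dfc σ (symmDiff w0 S)).card : ℝ) := by exact_mod_cast hsum
  have h8 : ((j : ℝ) + 1) * (n.choose (j + 1) : ℝ) ≤ n * n.choose j := by
    have := Nat.choose_succ_right_eq n j
    have h9 : n.choose (j + 1) * (j + 1) ≤ n.choose j * n := by
      rw [this]
      exact Nat.mul_le_mul_left _ (Nat.sub_le _ _)
    have h10 : (n.choose (j + 1) : ℝ) * (j + 1) ≤ n.choose j * n := by exact_mod_cast h9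
    linarith
  have h11 : (F.card : ℝ) * (κ * n) ≤ δ * (n * n.choose j) := by
    calc (F.card : ℝ) * (κ * n) ≤ (j + 1) * (((powersetCard (j + 1) (univ : V n)).filter fun S =>
          η * n < dfc σ (symmDiff w0 S)).card : ℝ) := (h5.trans h6).trans h7
      _ ≤ (j + 1) * (δ * n.choose (j + 1)) := by gcongr
      _ = δ * ((j + 1) * n.choose (j + 1)) := by ring
      _ ≤ δ * (n * n.choose j) := by gcongr
  rw [div_mul_eq_mul_div, le_div_iff₀ hκ]
  have h12 : (F.card : ℝ) * κ * n ≤ δ * n.choose j * n := by linarith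
  exact le_of_mul_le_mul_right h12 hnpos

end Pool.Agent.SH
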