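import Pool.Agent.SH.Df

set_option autoImplicit false

namespace Pool.Agent.SH

open Finset

/-- a symmetric relation with many pairs has a nonempty part with large minimum degree -/
theorem gr_min_deg {α : Type*} [DecidableEq α] (r : α → α → Prop) [DecidableRel r]
    (hs : ∀ x y, r x y → r y x) (d : ℕ) (X : Finset α)
    (h : 2 * d * X.card < ((X ×ˢ X).filter (fun p => r p.1 p.2)).card) :
    ∃ Y ⊆ X, Y.Nonempty ∧ ∀ y ∈ Y, d < (Y.filter (fun z => r y z)).card := by
  induction X using Finset.strongInduction with
  | H X ih =>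
    by_cases hall : ∀ y ∈ X, d < (X.filter (fun z => r y z)).card
    · refine ⟨X, Subset.rfl, ?_, hall⟩
      rcases X.eq_empty_or_nonempty with rfl | hne
      · simp at h
      · exact hne
    · push Not at hall
      obtain ⟨x, hx, hxd⟩ := hall
      have hsub : (X ×ˢ X).filter (fun p => r p.1 p.2) ⊆
          (((X.erase x) ×ˢ (X.erase x)).filter (fun p => r p.1 p.2)) ∪
          ((X.filter (fun z => r x z)).image (fun z => (x, z)) ∪
           (X.filter (fun z => r x z)).image (fun z => (z, x))) := by
        rintro ⟨a, b⟩ hab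
        simp only [mem_filter, mem_product] at hab
        obtain ⟨⟨ha, hb⟩, hr⟩ := hab
        simp only [mem_union, mem_filter, mem_product, mem_erase, mem_image]
        by_cases hax : a = x
        · right; left
          subst hax
          exact ⟨b, ⟨hb, hr⟩, rfl⟩
        · by_cases hbx : b = x
          · right; right
            subst hbx
            exact ⟨a, ⟨ha, hs _ _ hr⟩, rfl⟩
          · left
            exact ⟨⟨⟨hax, ha⟩, hbx, hb⟩, hr⟩
      have h1 := card_le_card hsub
      have h2 := card_union_le ((((X.erase x) ×ˢ (X.erase x)).filter (fun p => r p.1 p.2)))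
          ((X.filter (fun z => r x z)).image (fun z => (x, z)) ∪
           (X.filter (fun z => r x z)).image (fun z => (z, x)))
      have h3 := card_union_le ((X.filter (fun z => r x z)).image (fun z => (x, z)))
           ((X.filter (fun z => r x z)).image (fun z => (z, x)))
      have h4 : ((X.filter (fun z => r x z)).image (fun z => (x, z))).card ≤ d :=
        card_image_le.trans hxd
      have h5 : ((X.filter (fun z => r x z)).image (fun z => (z, x))).card ≤ d :=
        card_image_le.trans hxd
      have hc : (X.erase x).card + 1 = X.card := card_erase_add_one hx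
      have h6 : 2 * d * (X.erase x).card <
          (((X.erase x) ×ˢ (X.erase x)).filter (fun p => r p.1 p.2)).card := by
        rw [← hc] at h
        have : 2 * d * ((X.erase x).card + 1) = 2 * d * (X.erase x).card + 2 * d := by ring
        omega
      obtain ⟨Y, hYX, hY⟩ := ih (X.erase x) (erase_ssubset hx) h6
      exact ⟨Y, hYX.trans (erase_subset _ _), hY⟩

/-- one step of gr_growth: from the points of `Y` at distance `2 l` of `y0` to those at distance `2 l + 2` -/
theorem gr_step {n : ℕ} (Y : Finset (Finset (Fin n))) (y0 : Finset (Fin n)) (d l : ℕ)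
    (hY : ∀ y ∈ Y, d < (Y.filter (fun z => (symmDiff y z).card = 2)).card) :
    (Y.filter (fun z => (symmDiff z y0).card = 2 * l)).card * (d - 2 * l * n) ≤
      (Y.filter (fun z => (symmDiff z y0).card = 2 * (l + 1))).card * (2 * l + 2) ^ 2 := by
  classical
  -- pairs counted from the left
  set A := Y.filter (fun z => (symmDiff z y0).card = 2 * l) with hA
  set B := Y.filter (fun z => (symmDiff z y0).card = 2 * (l + 1)) with hB
  -- left degrees
  have hleft : ∀ a ∈ A, d - 2 * l * n ≤ (B.filter (fun b => (symmDiff a b).card = 2)).card := by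
    intro a ha
    have haY : a ∈ Y := (mem_filter.1 ha).1
    have hal : (symmDiff a y0).card = 2 * l := (mem_filter.1 ha).2
    have hd := hY a haY
    -- bad neighbours
    have hsub : Y.filter (fun z => (symmDiff a z).card = 2) ⊆
        B.filter (fun b => (symmDiff a b).card = 2) ∪
        ((symmDiff a y0) ×ˢ (univ : Finset (Fin n))).image
          (fun p => symmDiff a ({p.1} ∪ {p.2})) := by
      intro z hz
      obtain ⟨hzY, hz2⟩ := mem_filter.1 hz
      by_cases hdis : Disjoint (symmDiff a z) (symmDiff a y0)
      · apply mem_union_left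
        refine mem_filter.2 ⟨mem_filter.2 ⟨hzY, ?_⟩, hz2⟩
        have : symmDiff z y0 = symmDiff (symmDiff a z) (symmDiff a y0) := by
          rw [symmDiff_comm a z, symmDiff_assoc, symmDiff_symmDiff_cancel_left]
        rw [this, hdis.symmDiff_eq_sup, sup_eq_union, card_union_of_disjoint hdis, hz2, hal]
        ring
      · apply mem_union_right
        rw [Finset.not_disjoint_iff] at hdis
        obtain ⟨i, hi1, hi2⟩ := hdis
        obtain ⟨p, q, hpq, hpq'⟩ := card_eq_two.1 hz2
        rw [mem_image]
        have hz' : z = symmDiff a (symmDiff a z) := by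
          rw [symmDiff_symmDiff_cancel_left]
        rw [hpq'] at hi1
        rcases mem_insert.1 hi1 with h | h
        · refine ⟨(i, q), ?_, ?_⟩
          · simp [hi2]
          · simp only
            rw [h, hz', hpq', insert_eq]
        · rw [mem_singleton] at h
          refine ⟨(i, p), ?_, ?_⟩
          · simp [hi2]
          · simp only
            rw [h, hz', hpq', insert_eq, union_comm]
    have h1 := card_le_card hsub
    have h2 := card_union_le (B.filter (fun b => (symmDiff a b).card = 2))
        (((symmDiff a y0) ×ˢ (univ : Finset (Fin n))).image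
          (fun p => symmDiff a ({p.1} ∪ {p.2})))
    have h3 : (((symmDiff a y0) ×ˢ (univ : Finset (Fin n))).image
          (fun p => symmDiff a ({p.1} ∪ {p.2}))).card ≤ 2 * l * n := by
      refine card_image_le.trans ?_
      rw [card_product, hal, card_univ, Fintype.card_fin]
    omega
  have hright : ∀ b ∈ B, (A.filter (fun a => (symmDiff a b).card = 2)).card ≤ (2 * l + 2) ^ 2 := by
    intro b hb
    have hbl : (symmDiff b y0).card = 2 * (l + 1) := (mem_filter.1 hb).2
    have hsub : A.filter (fun a => (symmDiff a b).card = 2) ⊆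
        ((symmDiff b y0) ×ˢ (symmDiff b y0)).image (fun p => symmDiff b ({p.1} ∪ {p.2})) := by
      intro a ha
      obtain ⟨haA, ha2⟩ := mem_filter.1 ha
      have hal : (symmDiff a y0).card = 2 * l := (mem_filter.1 haA).2
      obtain ⟨p, q, hpq, hpq'⟩ := card_eq_two.1 ha2
      -- symmDiff a b ⊆ symmDiff b y0
      have hss : symmDiff a b ⊆ symmDiff b y0 := by
        have hby : symmDiff b y0 = symmDiff (symmDiff a b) (symmDiff a y0) := by
          rw [symmDiff_comm a b, symmDiff_assoc, symmDiff_symmDiff_cancel_left]
        have hcard : (symmDiff (symmDiff a b) (symmDiff a y0)).card =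
            (symmDiff a b).card + (symmDiff a y0).card := by
          rw [← hby, hbl, ha2, hal]; ring
        have hdis : Disjoint (symmDiff a b) (symmDiff a y0) := by
          rw [← card_union_eq_card_add_card]
          have h1 : (symmDiff (symmDiff a b) (symmDiff a y0)).card ≤
              ((symmDiff a b) ∪ (symmDiff a y0)).card := by
            apply card_le_card
            intro t ht
            rw [mem_symmDiff] at ht
            rw [mem_union]
            tauto
          have h2 := card_union_le (symmDiff a b) (symmDiff a y0)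
          omega
        rw [hby, hdis.symmDiff_eq_sup, sup_eq_union]
        exact subset_union_left
      rw [mem_image]
      refine ⟨(p, q), ?_, ?_⟩
      · rw [mem_product]
        constructor
        · apply hss; rw [hpq']; simp
        · apply hss; rw [hpq']; simp
      · simp only
        have : a = symmDiff b (symmDiff a b) := by
          rw [symmDiff_comm a b, symmDiff_symmDiff_cancel_left]
        rw [this, hpq', insert_eq]
    refine (card_le_card hsub).trans (card_image_le.trans ?_)
    rw [card_product, hbl]
    apply le_of_eq; ring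
  -- double counting
  have := Finset.card_nsmul_le_card_nsmul (r := fun a b => (symmDiff a b).card = 2)
    (s := A) (t := B) (m := d - 2 * l * n) (n := (2 * l + 2) ^ 2) ?_ ?_
  · simpa [smul_eq_mul] using this
  · intro a ha
    simpa [Finset.bipartiteAbove] using hleft a ha
  · intro b hb
    simpa [Finset.bipartiteBelow] using hright b hb

/-- the growth constant -/
def gr_C (k : ℕ) : ℕ := (2 * k + 2) ^ 2 + 2 * k

theorem gr_growth (n k : ℕ) (X : Finset (Finset (Fin n))) (hX : X.card ≤ n ^ k) :
    ((X ×ˢ X).filter (fun p => (symmDiff p.1 p.2).card = 2)).card ≤ 2 * (gr_C k * n) * X.card := by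
  classical
  by_contra hcon
  push Not at hcon
  have hn : 2 ≤ n := by
    have hpos : 0 < ((X ×ˢ X).filter (fun p => (symmDiff p.1 p.2).card = 2)).card :=
      lt_of_le_of_lt (Nat.zero_le _) hcon
    obtain ⟨p, hp⟩ := card_pos.1 hpos
    have h2 := (mem_filter.1 hp).2
    calc 2 = (symmDiff p.1 p.2).card := h2.symm
      _ ≤ (univ : Finset (Fin n)).card := card_le_card (subset_univ _)
      _ = n := by simp
  obtain ⟨Y, hYX, ⟨y0, hy0⟩, hY⟩ := gr_min_deg
    (fun x y : Finset (Fin n) => (symmDiff x y).card = 2)
    (fun x y h => by rw [symmDiff_comm]; exact h) (gr_C k * n) X hcon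
  have key : ∀ l, l ≤ k + 1 → n ^ l ≤ (Y.filter (fun z => (symmDiff z y0).card = 2 * l)).card := by
    intro l
    induction l with
    | zero =>
      intro _
      simp only [pow_zero]
      apply card_pos.2
      exact ⟨y0, by simp [hy0]⟩
    | succ l ih =>
      intro hl
      have h1 := ih (by omega)
      have h2 := gr_step Y y0 (gr_C k * n) l hY
      have h3 : (2 * l + 2) ^ 2 * n ≤ gr_C k * n - 2 * l * n := by
        have hlk : l ≤ k := by omega
        have h4 : (2 * l + 2) ^ 2 + 2 * l ≤ gr_C k := by
          unfold gr_C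
          gcongr
        have h5 : ((2 * l + 2) ^ 2 + 2 * l) * n ≤ gr_C k * n := Nat.mul_le_mul_right n h4
        have h6 : ((2 * l + 2) ^ 2 + 2 * l) * n = (2 * l + 2) ^ 2 * n + 2 * l * n := by ring
        omega
      have h7 : n ^ l * ((2 * l + 2) ^ 2 * n) ≤
          (Y.filter (fun z => (symmDiff z y0).card = 2 * (l + 1))).card * (2 * l + 2) ^ 2 :=
        (Nat.mul_le_mul h1 h3).trans h2
      have h8 : n ^ (l + 1) * (2 * l + 2) ^ 2 ≤
          (Y.filter (fun z => (symmDiff z y0).card = 2 * (l + 1))).card * (2 * l + 2) ^ 2 := by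
        calc n ^ (l + 1) * (2 * l + 2) ^ 2 = n ^ l * ((2 * l + 2) ^ 2 * n) := by ring
          _ ≤ _ := h7
      exact Nat.le_of_mul_le_mul_right h8 (by positivity)
  have h1 := key (k + 1) le_rfl
  have h2 : (Y.filter (fun z => (symmDiff z y0).card = 2 * (k + 1))).card ≤ X.card :=
    card_le_card ((filter_subset _ _).trans hYX)
  have h3 : n ^ k < n ^ (k + 1) := Nat.pow_lt_pow_right (by omega) (by omega)
  omega


/-- few pairs (point, direction) lead to a heavy vertex -/
theorem gr_heavy (n k h : ℕ) (X : Finset (Finset (Fin n))) (hX : X.card ≤ n ^ k) :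
    ((X ×ˢ (univ : Finset (Fin n))).filter (fun p =>
      h < (X.filter (fun x' => (symmDiff x' (symmDiff p.1 {p.2})).card = 1)).card)).card * h ≤
      2 * (2 * (gr_C k * n) * X.card) := by
  classical
  set H := (X ×ˢ (univ : Finset (Fin n))).filter (fun p =>
      h < (X.filter (fun x' => (symmDiff x' (symmDiff p.1 {p.2})).card = 1)).card) with hH
  set D := (X ×ˢ X).filter (fun p => (symmDiff p.1 p.2).card = 2) with hD
  have hleft : ∀ p ∈ H, h ≤ (D.filter (fun q => q.1 = p.1 ∧ p.2 ∈ symmDiff q.1 q.2)).card := by
    rintro ⟨x, i⟩ hp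
    obtain ⟨hpX, hp2⟩ := mem_filter.1 hp
    simp only at hp2
    have hxX : x ∈ X := (mem_product.1 hpX).1
    have hsub : (X.filter (fun x' => (symmDiff x' (symmDiff x {i})).card = 1)).erase x ⊆
        (D.filter (fun q => q.1 = x ∧ i ∈ symmDiff q.1 q.2)).image (fun q => q.2) := by
      intro b hb
      obtain ⟨hbx, hb'⟩ := mem_erase.1 hb
      obtain ⟨hbX, hb1⟩ := mem_filter.1 hb'
      obtain ⟨j, hj⟩ := card_eq_one.1 hb1
      have hb2 : symmDiff x b = symmDiff {i} {j} := by
        rw [← hj, symmDiff_comm b, symmDiff_assoc x, symmDiff_comm _ b]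
        have : symmDiff ({i} : Finset (Fin n)) (symmDiff x (symmDiff {i} b)) =
          symmDiff x b := by
          rw [symmDiff_left_comm, symmDiff_symmDiff_cancel_left]
        rw [symmDiff_comm b, symmDiff_left_comm, symmDiff_symmDiff_cancel_left]
      have hij : i ≠ j := by
        rintro rfl
        rw [symmDiff_self] at hb2
        apply hbx
        have := symmDiff_eq_bot.1 hb2
        exact this.symm
      have hpair : symmDiff x b = {i, j} := by
        rw [hb2]
        ext t
        simp only [mem_symmDiff, mem_singleton, mem_insert]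
        constructor
        · rintro (⟨h1, _⟩ | ⟨h1, _⟩)
          · exact Or.inl h1
          · exact Or.inr h1
        · rintro (h1 | h1)
          · left; exact ⟨h1, by rw [h1]; exact hij⟩
          · right; exact ⟨h1, by rw [h1]; exact fun e => hij e.symm⟩
      rw [mem_image]
      refine ⟨(x, b), ?_, rfl⟩
      rw [mem_filter, hD, mem_filter, mem_product]
      refine ⟨⟨⟨hxX, hbX⟩, ?_⟩, rfl, ?_⟩
      · simp only
        rw [hpair]
        exact card_pair hij
      · simp only
        rw [hpair]
        simp
    have h1 := (card_le_card hsub).trans card_image_le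
    have h2 : (X.filter (fun x' => (symmDiff x' (symmDiff x {i})).card = 1)).card - 1 ≤
        ((X.filter (fun x' => (symmDiff x' (symmDiff x {i})).card = 1)).erase x).card :=
      pred_card_le_card_erase
    simp only
    omega
  have hright : ∀ q ∈ D, (H.filter (fun p => q.1 = p.1 ∧ p.2 ∈ symmDiff q.1 q.2)).card ≤ 2 := by
    rintro ⟨a, b⟩ hq
    have hab : (symmDiff a b).card = 2 := (mem_filter.1 hq).2
    have hsub : H.filter (fun p => a = p.1 ∧ p.2 ∈ symmDiff a b) ⊆
        (symmDiff a b).image (fun i => (a, i)) := by
      rintro ⟨x, i⟩ hp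
      obtain ⟨_, hp1, hp2⟩ := mem_filter.1 hp
      simp only at hp1 hp2
      rw [mem_image]
      exact ⟨i, hp2, by rw [hp1]⟩
    exact (card_le_card hsub).trans (card_image_le.trans hab.le)
  have h1 := Finset.card_nsmul_le_card_nsmul
    (r := fun (p : Finset (Fin n) × Fin n) (q : Finset (Fin n) × Finset (Fin n)) =>
      q.1 = p.1 ∧ p.2 ∈ symmDiff q.1 q.2)
    (s := H) (t := D) (m := h) (n := 2) ?_ ?_
  · have h2 : D.card ≤ 2 * (gr_C k * n) * X.card := gr_growth n k X hX
    simp only [smul_eq_mul] at h1
    calc H.card * h ≤ D.card * 2 := h1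
      _ ≤ 2 * (gr_C k * n) * X.card * 2 := Nat.mul_le_mul_right 2 h2
      _ = _ := by ring
  · intro p hp
    simpa [Finset.bipartiteAbove] using hleft p hp
  · intro q hq
    simpa [Finset.bipartiteBelow] using hright q hq


/-- In a set of at most `n ^ k` points few edges lead to vertices with many neighbours in the
set. -/
theorem grow (k : ℕ) (η : ℝ) (hη : 0 < η) : ∃ t n0 : ℕ, ∀ n ≥ n0, ∀ X : Finset (V n),
    X.card ≤ n ^ k →
    ((((X ×ˢ (univ : Finset (V n))).filter fun p => adj p.1 p.2 ∧
      t ≤ (X.filter fun x' => adj x' p.2).card).card : ℕ) : ℝ) ≤ η * n * X.card := by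
  classical
  obtain ⟨h, hh⟩ := exists_nat_gt (4 * (gr_C k : ℝ) / η)
  refine ⟨h + 1, 0, fun n _ X hX => ?_⟩
  have h1 := gr_heavy n k h X hX
  set H := (X ×ˢ (univ : Finset (Fin n))).filter (fun p =>
      h < (X.filter (fun x' => (symmDiff x' (symmDiff p.1 {p.2})).card = 1)).card) with hH
  have hsub : ((X ×ˢ (univ : Finset (V n))).filter fun p => adj p.1 p.2 ∧
      h + 1 ≤ (X.filter fun x' => adj x' p.2).card) ⊆
      H.image (fun p => (p.1, symmDiff p.1 {p.2})) := by
    rintro ⟨x, v⟩ hp
    obtain ⟨hpX, hadj, hdeg⟩ := mem_filter.1 hp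
    simp only at hadj hdeg
    have hadj' : (symmDiff x v).card = 1 := hadj
    obtain ⟨i, hi⟩ := card_eq_one.1 hadj'
    have hv : v = symmDiff x {i} := by
      rw [← hi, symmDiff_symmDiff_cancel_left]
    rw [mem_image]
    refine ⟨(x, i), ?_, ?_⟩
    · rw [hH, mem_filter]
      refine ⟨mem_product.2 ⟨(mem_product.1 hpX).1, mem_univ _⟩, ?_⟩
      simp only
      rw [← hv]
      exact hdeg
    · simp only
      rw [← hv]
  have h2 : ((((X ×ˢ (univ : Finset (V n))).filter fun p => adj p.1 p.2 ∧
      h + 1 ≤ (X.filter fun x' => adj x' p.2).card).card : ℕ) : ℝ) ≤ (H.card : ℝ) := by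
    exact_mod_cast (card_le_card hsub).trans card_image_le
  refine h2.trans ?_
  have hhpos : (0 : ℝ) < h := lt_of_le_of_lt (by positivity) hh
  have h3 : (H.card : ℝ) * h ≤ 2 * (2 * (gr_C k * n) * X.card) := by exact_mod_cast h1
  have h4 : 4 * (gr_C k : ℝ) ≤ η * h := by
    rw [div_lt_iff₀ hη] at hh
    linarith
  have h5 : (H.card : ℝ) * h ≤ (η * n * X.card) * h := by
    have hnX : (0 : ℝ) ≤ (n : ℝ) * X.card := by positivity
    calc (H.card : ℝ) * h ≤ 2 * (2 * (gr_C k * n) * X.card) := h3
      _ = 4 * (gr_C k : ℝ) * (n * X.card) := by ring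
      _ ≤ η * h * (n * X.card) := by gcongr
      _ = _ := by ring
  exact le_of_mul_le_mul_right h5 hhpos

end Pool.Agent.SH
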