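import Pool.Agent.SH.Df

set_option autoImplicit false

namespace Pool.Agent.SH

open Finset

/-- A function without fixed points has an independent set with a quarter of the points. -/
theorem sel4 {α : Type*} [DecidableEq α] (A : Finset α) (f : α → α) (h : ∀ a ∈ A, f a ≠ a) :
    ∃ A' ⊆ A, A.card ≤ 4 * A'.card ∧ ∀ a ∈ A', f a ∉ A' := by
  induction A using Finset.strongInduction with
  | H A ih =>
    rcases A.eq_empty_or_nonempty with rfl | hne
    · exact ⟨∅, subset_rfl, by simp, by simp⟩
    · obtain ⟨a, haA, ha⟩ : ∃ a ∈ A, (A.filter fun b => f b = a).card ≤ 1 := by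
        by_contra hcon
        push Not at hcon
        have h1 : ∑ a ∈ A, (A.filter fun b => f b = a).card ≤ A.card := by
          have hd : (A : Set α).PairwiseDisjoint fun a => A.filter fun b => f b = a := by
            intro x _ y _ hxy
            refine Finset.disjoint_left.mpr ?_
            intro b hb hb'
            rw [mem_filter] at hb hb'
            exact hxy (hb.2.symm.trans hb'.2)
          rw [← card_biUnion hd]
          refine card_le_card ?_
          intro b hb
          rw [mem_biUnion] at hb
          obtain ⟨_, _, hb⟩ := hb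
          exact (mem_filter.mp hb).1
        have h2 : ∑ a ∈ A, 2 ≤ ∑ a ∈ A, (A.filter fun b => f b = a).card :=
          sum_le_sum (fun a ha => hcon a ha)
        simp only [sum_const, smul_eq_mul] at h2
        have := hne.card_pos
        omega
      obtain ⟨A', hA'R, hcard, hind⟩ := ih (A.filter fun b => ¬ (b = a ∨ b = f a ∨ f b = a))
        (by
          refine Finset.filter_ssubset.mpr ⟨a, haA, ?_⟩
          simp)
        (fun b hb => h b (mem_filter.mp hb).1)
      have hmem : ∀ b ∈ A', b ∈ A ∧ b ≠ a ∧ b ≠ f a ∧ f b ≠ a := by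
        intro b hb
        have := mem_filter.mp (hA'R hb)
        refine ⟨this.1, ?_⟩
        have h2 := this.2
        push Not at h2
        exact h2
      have haA' : a ∉ A' := fun h' => (hmem a h').2.1 rfl
      refine ⟨insert a A', ?_, ?_, ?_⟩
      · intro b hb
        rcases mem_insert.mp hb with rfl | hb
        · exact haA
        · exact (hmem b hb).1
      · rw [card_insert_of_notMem haA']
        have h3 : A ⊆ (A.filter fun b => ¬ (b = a ∨ b = f a ∨ f b = a)) ∪
            (({a} ∪ {f a}) ∪ (A.filter fun b => f b = a)) := by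
          intro b hb
          simp only [mem_union, mem_filter, mem_singleton]
          tauto
        have h4 := card_le_card h3
        have h5 := card_union_le (A.filter fun b => ¬ (b = a ∨ b = f a ∨ f b = a))
          (({a} ∪ {f a}) ∪ (A.filter fun b => f b = a))
        have h6 := card_union_le (({a} : Finset α) ∪ {f a}) (A.filter fun b => f b = a)
        have h7 := card_union_le ({a} : Finset α) {f a}
        simp only [card_singleton] at h7
        omega
      · intro b hb hfb
        rcases mem_insert.mp hb with rfl | hb
        · rcases mem_insert.mp hfb with hfb | hfb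
          · exact h _ haA hfb
          · exact (hmem _ hfb).2.2.1 rfl
        · rcases mem_insert.mp hfb with hfb | hfb
          · exact (hmem b hb).2.2.2 hfb
          · exact hind b hb hfb

/-- Disjoint subfamilies. -/
theorem disj {α β : Type*} [DecidableEq α] [DecidableEq β] (𝒯 : Finset α) (P : α → Finset β)
    (K t : ℕ) (hK : ∀ T ∈ 𝒯, (P T).card ≤ K) (hne : ∀ T ∈ 𝒯, (P T).Nonempty)
    (ht : ∀ v, (𝒯.filter fun T => v ∈ P T).card ≤ t) :
    ∃ 𝒯' ⊆ 𝒯, 𝒯.card ≤ K * t * 𝒯'.card ∧
      ∀ T ∈ 𝒯', ∀ T' ∈ 𝒯', T ≠ T' → Disjoint (P T) (P T') := by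
  induction 𝒯 using Finset.strongInduction with
  | H 𝒯 ih =>
    rcases 𝒯.eq_empty_or_nonempty with rfl | ⟨T0, hT0⟩
    · exact ⟨∅, subset_rfl, by simp, by simp⟩
    · obtain ⟨𝒯', h1, h2, h3⟩ := ih (𝒯.filter fun T => Disjoint (P T0) (P T))
        (by
          refine Finset.filter_ssubset.mpr ⟨T0, hT0, ?_⟩
          intro hd
          exact (hne T0 hT0).ne_empty (Finset.disjoint_self_iff_empty _ |>.mp hd))
        (fun T hT => hK T (mem_filter.mp hT).1)
        (fun T hT => hne T (mem_filter.mp hT).1)
        (fun v => le_trans (card_le_card (by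
          intro T hT
          rw [mem_filter] at hT ⊢
          exact ⟨(mem_filter.mp hT.1).1, hT.2⟩)) (ht v))
      have hmem : ∀ T ∈ 𝒯', T ∈ 𝒯 ∧ Disjoint (P T0) (P T) := fun T hT => mem_filter.mp (h1 hT)
      have hT0' : T0 ∉ 𝒯' := fun h' =>
        (hne T0 hT0).ne_empty (Finset.disjoint_self_iff_empty _ |>.mp (hmem T0 h').2)
      refine ⟨insert T0 𝒯', ?_, ?_, ?_⟩
      · intro T hT
        rcases mem_insert.mp hT with rfl | hT
        · exact hT0
        · exact (hmem T hT).1
      · rw [card_insert_of_notMem hT0']
        have h4 : 𝒯 ⊆ (𝒯.filter fun T => Disjoint (P T0) (P T)) ∪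
            ((P T0).biUnion fun v => 𝒯.filter fun T => v ∈ P T) := by
          intro T hT
          rw [mem_union, mem_filter, mem_biUnion]
          by_cases hd : Disjoint (P T0) (P T)
          · exact Or.inl ⟨hT, hd⟩
          · right
            obtain ⟨v, hv, hv'⟩ := Finset.not_disjoint_iff.mp hd
            exact ⟨v, hv, mem_filter.mpr ⟨hT, hv'⟩⟩
        have h5 : ((P T0).biUnion fun v => 𝒯.filter fun T => v ∈ P T).card ≤ K * t :=
          le_trans (card_biUnion_le_card_mul _ _ t fun v _ => ht v)
            (Nat.mul_le_mul_right t (hK T0 hT0))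
        have h6 := (card_le_card h4).trans (card_union_le _ _)
        calc 𝒯.card ≤ K * t * 𝒯'.card + K * t := by omega
          _ = K * t * (𝒯'.card + 1) := by ring
      · intro T hT T' hT' hTT'
        rcases mem_insert.mp hT with h8 | h8
        · rcases mem_insert.mp hT' with h9 | h9
          · exact absurd (h8.trans h9.symm) hTT'
          · rw [h8]
            exact (hmem T' h9).2
        · rcases mem_insert.mp hT' with h9 | h9
          · rw [h9]
            exact (hmem T h8).2.symm
          · exact h3 T h8 T' h9 hTT'

end Pool.Agent.SH
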