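import Pool.Agent.SH.Cb
import Pool.Agent.SH.Gr
import Pool.Agent.SH.Sel

set_option autoImplicit false

namespace Pool.Agent.SH

open Finset

/-- The positions of a `(k+1)`-set. -/
private theorem ex0_adj {n k : ℕ} {C : Type} {χ : V n → C} {x : V n → V n}
    {p : V n → V n → V n} (hc : IsCfg k χ x p) {T : V n} (hT : T.card = k + 1) {s : Fin n}
    (hs : s ∈ T) : adj (x (T.erase s)) (p (T.erase s) T) :=
  hc.hp _ _ (by rw [card_erase_of_mem hs, hT]; rfl) hT (erase_subset _ _)

private theorem ex0_mono {n k : ℕ} {C : Type} {χ : V n → C} {x : V n → V n}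
    {p : V n → V n → V n} (hc : IsCfg k χ x p) {T : V n} (hT : T.card = k + 1)
    {D : Finset (V n)} (hD : D ⊆ T.image fun s => p (T.erase s) T) : Mono χ D := by
  intro a ha b hb
  obtain ⟨s, hs, rfl⟩ := mem_image.mp (hD ha)
  obtain ⟨s', hs', rfl⟩ := mem_image.mp (hD hb)
  exact hc.hc _ _ _ (by rw [card_erase_of_mem hs, hT]; rfl) (by rw [card_erase_of_mem hs', hT]; rfl)
    hT (erase_subset _ _) (erase_subset _ _)

private theorem ex0_fam {n k : ℕ} {C : Type} {χ : V n → C} {x : V n → V n}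
    {p : V n → V n → V n} (hc : IsCfg k χ x p) {T : V n} (hT : T.card = k + 1)
    (hbad : ¬ Good k x T) :
    ∃ D ∈ Fam k x T, D ⊆ T.image fun s => p (T.erase s) T := by
  classical
  by_cases hinj : Set.InjOn (fun s => p (T.erase s) T) (T : Set (Fin n))
  · refine ⟨T.image fun s => p (T.erase s) T, ?_, subset_rfl⟩
    refine mem_union_left _ ?_
    unfold Fam1
    rw [mem_filter]
    refine ⟨mem_univ _, by rw [card_image_of_injOn hinj, hT], ?_⟩
    have h1 : ∀ s : Fin n, ∃ i : Fin n, s ∈ T → p (T.erase s) T = fl (x (T.erase s)) i := by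
      intro s
      by_cases hs : s ∈ T
      · obtain ⟨i, hi⟩ := adj_iff.mp (ex0_adj hc hT hs)
        exact ⟨i, fun _ => hi⟩
      · exact ⟨s, fun h => absurd h hs⟩
    choose i hi using h1
    exact ⟨i, image_congr fun s hs => hi s hs⟩
  · rw [Set.InjOn] at hinj
    push Not at hinj
    obtain ⟨s, hs, s', hs', hss, hne⟩ := hinj
    have hs : s ∈ T := hs
    have hs' : s' ∈ T := hs'
    have hss : p (T.erase s) T = p (T.erase s') T := hss
    have h2 : ∃ s'' ∈ T, p (T.erase s'') T ≠ p (T.erase s) T := by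
      by_contra hcon
      push Not at hcon
      refine hbad ⟨p (T.erase s) T, fun S hS hST => ?_⟩
      have h3 : ∃ u ∈ T, S = T.erase u := by
        have h4 : (T \ S).card = 1 := by
          rw [card_sdiff_of_subset hST, hT, hS]; omega
        obtain ⟨u, hu⟩ := card_eq_one.mp h4
        have hu1 : u ∈ T \ S := by rw [hu]; exact mem_singleton_self u
        refine ⟨u, (mem_sdiff.mp hu1).1, ?_⟩
        rw [erase_eq, ← hu, Finset.sdiff_sdiff_eq_self hST]
      obtain ⟨u, hu, rfl⟩ := h3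
      rw [← hcon u hu]
      exact ex0_adj hc hT hu
    obtain ⟨s'', hs'', hne''⟩ := h2
    refine ⟨{p (T.erase s) T, p (T.erase s'') T}, mem_union_right _ ?_, ?_⟩
    · unfold Fam2
      rw [mem_filter]
      refine ⟨mem_univ _, card_pair (Ne.symm hne''), s, hs, s', hs', s'', hs'', _, _, ?_,
        ex0_adj hc hT hs, ?_, ex0_adj hc hT hs'', rfl⟩
      · intro h
        have h5 := hc.inj _ _ (by rw [card_erase_of_mem hs, hT]; rfl)
          (by rw [card_erase_of_mem hs', hT]; rfl) h
        have h6 : s ∉ T.erase s' := by rw [← h5]; exact notMem_erase s T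
        exact h6 (mem_erase.mpr ⟨hne, hs⟩)
      · rw [hss]
        exact ex0_adj hc hT hs'
    · intro v hv
      rw [mem_insert, mem_singleton] at hv
      rcases hv with rfl | rfl
      · exact mem_image.mpr ⟨s, hs, rfl⟩
      · exact mem_image.mpr ⟨s'', hs'', rfl⟩

/-- Few bad sets have a heavy position. -/
private theorem ex0_heavy {n k : ℕ} {C : Type} {χ : V n → C} {x : V n → V n}
    {p : V n → V n → V n} (hc : IsCfg k χ x p) (H : V n → Prop) [DecidablePred H]
    (X : Finset (V n)) (hX : ∀ S : V n, S.card = k → x S ∈ X) :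
    ((powersetCard (k + 1) (univ : V n)).filter fun T => ∃ s ∈ T, H (p (T.erase s) T)).card ≤
      ((X ×ˢ (univ : Finset (V n))).filter fun q => adj q.1 q.2 ∧ H q.2).card := by
  classical
  let g : V n → V n × V n := fun T =>
    if h : ∃ s ∈ T, H (p (T.erase s) T) then (x (T.erase h.choose), p (T.erase h.choose) T)
    else (∅, ∅)
  refine card_le_card_of_injOn g ?_ ?_
  · intro T hT
    obtain ⟨hT0, h⟩ := mem_filter.mp hT
    obtain ⟨-, hT1⟩ := mem_powersetCard.mp hT0
    have hs := h.choose_spec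
    simp only [g, dif_pos h]
    exact mem_filter.mpr ⟨mem_product.mpr ⟨hX _ (by rw [card_erase_of_mem hs.1, hT1]; rfl),
      mem_univ _⟩, ex0_adj hc hT1 hs.1, hs.2⟩
  · intro T hT T' hT' hgg
    obtain ⟨hT0, h⟩ := mem_filter.mp hT
    obtain ⟨-, hT1⟩ := mem_powersetCard.mp hT0
    obtain ⟨hT0', h'⟩ := mem_filter.mp hT'
    obtain ⟨-, hT1'⟩ := mem_powersetCard.mp hT0'
    have hs := h.choose_spec
    have hs' := h'.choose_spec
    simp only [g, dif_pos h, dif_pos h', Prod.mk.injEq] at hgg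
    have hS := hc.inj _ _ (by rw [card_erase_of_mem hs.1, hT1]; rfl)
      (by rw [card_erase_of_mem hs'.1, hT1']; rfl) hgg.1
    have h2 := hgg.2
    rw [← hS] at h2
    exact hc.hpi _ T T' (by rw [card_erase_of_mem hs.1, hT1]; rfl) hT1 hT1' (erase_subset _ _)
      (by rw [hS]; exact erase_subset _ _) h2

/-- A vertex is a position of few sets. -/
private theorem ex0_deg {n k : ℕ} {C : Type} {χ : V n → C} {x : V n → V n}
    {p : V n → V n → V n} (hc : IsCfg k χ x p) (X : Finset (V n))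
    (hX : ∀ S : V n, S.card = k → x S ∈ X) (v : V n) (𝒯 : Finset (V n))
    (h𝒯 : ∀ T ∈ 𝒯, T.card = k + 1) :
    (𝒯.filter fun T => v ∈ T.image fun s => p (T.erase s) T).card ≤
      (X.filter fun y => adj y v).card := by
  classical
  let g : V n → V n := fun T =>
    if h : ∃ s ∈ T, p (T.erase s) T = v then x (T.erase h.choose) else ∅
  refine card_le_card_of_injOn g ?_ ?_
  · intro T hT
    obtain ⟨hT0, h0⟩ := mem_filter.mp hT
    have hT1 := h𝒯 T hT0
    have h : ∃ s ∈ T, p (T.erase s) T = v := mem_image.mp h0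
    have hs := h.choose_spec
    simp only [g, dif_pos h]
    refine mem_filter.mpr ⟨hX _ (by rw [card_erase_of_mem hs.1, hT1]; rfl), ?_⟩
    have h3 := ex0_adj hc hT1 hs.1
    rw [hs.2] at h3
    exact h3
  · intro T hT T' hT' hgg
    obtain ⟨hT0, h0⟩ := mem_filter.mp hT
    have hT1 := h𝒯 T hT0
    have h : ∃ s ∈ T, p (T.erase s) T = v := mem_image.mp h0
    obtain ⟨hT0', h0'⟩ := mem_filter.mp hT'
    have hT1' := h𝒯 T' hT0'
    have h' : ∃ s ∈ T', p (T'.erase s) T' = v := mem_image.mp h0'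
    have hs := h.choose_spec
    have hs' := h'.choose_spec
    simp only [g, dif_pos h, dif_pos h'] at hgg
    have hS := hc.inj _ _ (by rw [card_erase_of_mem hs.1, hT1]; rfl)
      (by rw [card_erase_of_mem hs'.1, hT1']; rfl) hgg
    have h2 : p (T.erase h.choose) T = p (T.erase h.choose) T' := by
      rw [hs.2, hS, hs'.2]
    exact hc.hpi _ T T' (by rw [card_erase_of_mem hs.1, hT1]; rfl) hT1 hT1' (erase_subset _ _)
      (by rw [hS]; exact erase_subset _ _) h2

/-- Extraction of disjoint monochromatic sets from a window with many bad `(k+1)`-sets. -/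
theorem extr (k : ℕ) (hk : 1 ≤ k) (η : ℝ) (hη : 0 < η) : ∃ c : ℝ, 0 < c ∧ ∃ n0 : ℕ, ∀ n ≥ n0,
    ∀ (C : Type) (χ : V n → C) (x : V n → V n) (p : V n → V n → V n), IsCfg k χ x p →
      η * (n.choose (k + 1) : ℝ) ≤ (badT k x).card → Code3 k c χ := by
  classical
  obtain ⟨t, n1, hg⟩ := grow k (η / (4 * (k + 1))) (by positivity)
  refine ⟨η / (2 * (k + 1) * (t + 1)), by positivity, max n1 (2 * k), fun n hn C χ x p hc hb => ?_⟩
  have hn1 : n1 ≤ n := le_trans (le_max_left _ _) hn
  have hn2 : 2 * k ≤ n := le_trans (le_max_right _ _) hn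
  set X : Finset (V n) := (powersetCard k (univ : V n)).image x with hXd
  have hX : ∀ S : V n, S.card = k → x S ∈ X := fun S hS =>
    mem_image_of_mem x (mem_powersetCard.mpr ⟨subset_univ _, hS⟩)
  have hXc : X.card = n.choose k := by
    rw [hXd, card_image_of_injOn, card_powersetCard, card_univ, Fintype.card_fin]
    intro S hS S' hS' h
    exact hc.inj S S' (mem_powersetCard.mp hS).2 (mem_powersetCard.mp hS').2 h
  have hg1 := hg n hn1 X (by rw [hXc]; exact Nat.choose_le_pow n k)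
  set H : V n → Prop := fun v => t ≤ (X.filter fun x' => adj x' v).card with hH
  have hN : (n : ℝ) * (n.choose k : ℝ) ≤ 2 * (k + 1) * (n.choose (k + 1) : ℝ) := by
    have h1 := Nat.choose_succ_right_eq n k
    have h2 : ((n.choose (k + 1) : ℝ)) * (k + 1) = (n.choose k : ℝ) * ((n : ℝ) - k) := by
      rw [← Nat.cast_sub (by omega : k ≤ n)]
      exact_mod_cast h1
    have h3 : (2 * (k : ℝ)) ≤ n := by exact_mod_cast hn2
    have h4 : (0 : ℝ) ≤ (n.choose k : ℝ) := by positivity
    nlinarith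
  have hA1 : (((powersetCard (k + 1) (univ : V n)).filter fun T =>
      ∃ s ∈ T, H (p (T.erase s) T)).card : ℝ) ≤ η / 2 * (n.choose (k + 1) : ℝ) := by
    have h1 := ex0_heavy hc H X hX
    have h2 : (((powersetCard (k + 1) (univ : V n)).filter fun T =>
      ∃ s ∈ T, H (p (T.erase s) T)).card : ℝ) ≤
        (((X ×ˢ (univ : Finset (V n))).filter fun q => adj q.1 q.2 ∧ H q.2).card : ℝ) := by
      exact_mod_cast h1
    have h3 : (((X ×ˢ (univ : Finset (V n))).filter fun q => adj q.1 q.2 ∧ H q.2).card : ℝ) ≤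
        η / (4 * (k + 1)) * n * X.card := by
      convert hg1
    refine h2.trans (h3.trans ?_)
    rw [hXc, mul_assoc]
    have h5 : η / (4 * (k + 1)) * ((n : ℝ) * (n.choose k : ℝ)) ≤
        η / (4 * (k + 1)) * (2 * (k + 1) * (n.choose (k + 1) : ℝ)) :=
      mul_le_mul_of_nonneg_left hN (by positivity)
    refine h5.trans (le_of_eq ?_)
    have h6 : ((k : ℝ) + 1) ≠ 0 := by positivity
    field_simp
    ring
  set 𝒯1 : Finset (V n) := (badT k x).filter fun T => ¬ ∃ s ∈ T, H (p (T.erase s) T) with h𝒯1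
  have hbT : ∀ T ∈ badT k x, T.card = k + 1 ∧ ¬ Good k x T := by
    intro T hT
    unfold badT at hT
    obtain ⟨h1, h2⟩ := mem_filter.mp hT
    exact ⟨(mem_powersetCard.mp h1).2, h2⟩
  have hcard : η / 2 * (n.choose (k + 1) : ℝ) ≤ (𝒯1.card : ℝ) := by
    have h1 := card_filter_add_card_filter_not (s := badT k x)
      (fun T => ∃ s ∈ T, H (p (T.erase s) T))
    have h2 : ((badT k x).filter fun T => ∃ s ∈ T, H (p (T.erase s) T)).card ≤
        ((powersetCard (k + 1) (univ : V n)).filter fun T =>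
          ∃ s ∈ T, H (p (T.erase s) T)).card := by
      refine card_le_card fun T hT => ?_
      obtain ⟨h3, h4⟩ := mem_filter.mp hT
      exact mem_filter.mpr ⟨mem_powersetCard.mpr ⟨subset_univ _, (hbT T h3).1⟩, h4⟩
    have h3 : (((badT k x).filter fun T => ∃ s ∈ T, H (p (T.erase s) T)).card : ℝ) +
        (𝒯1.card : ℝ) = ((badT k x).card : ℝ) := by exact_mod_cast h1
    have h4 : (((badT k x).filter fun T => ∃ s ∈ T, H (p (T.erase s) T)).card : ℝ) ≤
        η / 2 * (n.choose (k + 1) : ℝ) := le_trans (by exact_mod_cast h2) hA1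
    linarith
  have h𝒯c : ∀ T ∈ 𝒯1, T.card = k + 1 := fun T hT => (hbT T (mem_filter.mp hT).1).1
  obtain ⟨𝒯', hsub, hcard', hdis⟩ := disj 𝒯1 (fun T => T.image fun s => p (T.erase s) T) (k + 1) t
    (fun T hT => (card_image_le).trans (h𝒯c T hT).le)
    (fun T hT => by
      rw [image_nonempty, ← card_pos, h𝒯c T hT]; omega)
    (fun v => by
      by_cases hv : ∃ T ∈ 𝒯1, v ∈ T.image fun s => p (T.erase s) T
      · obtain ⟨T, hT, hvT⟩ := hv
        obtain ⟨s, hs, rfl⟩ := mem_image.mp hvT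
        have h1 := (mem_filter.mp hT).2
        have h2 : ¬ H (p (T.erase s) T) := fun h => h1 ⟨s, hs, h⟩
        have h3 : (X.filter fun x' => adj x' (p (T.erase s) T)).card < t := not_le.mp h2
        exact (ex0_deg hc X hX _ 𝒯1 h𝒯c).trans h3.le
      · push Not at hv
        rw [filter_false_of_mem hv]
        exact Nat.zero_le _)
  have hfam : ∀ T : V n, ∃ D : Finset (V n), T ∈ 𝒯' → D ∈ Fam k x T ∧
      D ⊆ T.image fun s => p (T.erase s) T := by
    intro T
    by_cases hT : T ∈ 𝒯'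
    · have h1 := hbT T (mem_filter.mp (hsub hT)).1
      obtain ⟨D, hD, hD'⟩ := ex0_fam hc h1.1 h1.2
      exact ⟨D, fun _ => ⟨hD, hD'⟩⟩
    · exact ⟨∅, fun h => absurd h hT⟩
  choose D hD using hfam
  refine ⟨x, 𝒯', D, ?_, ?_, fun T hT => (hD T hT).1, ?_, ?_⟩
  · intro T hT
    exact mem_powersetCard.mpr ⟨subset_univ _, h𝒯c T (hsub hT)⟩
  · have h1 : (𝒯1.card : ℝ) ≤ (k + 1) * t * 𝒯'.card := by exact_mod_cast hcard'
    have h2 : η / 2 * (n.choose (k + 1) : ℝ) ≤ (k + 1) * t * 𝒯'.card := hcard.trans h1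
    have h3 : (0 : ℝ) ≤ (𝒯'.card : ℝ) := by positivity
    have h4 : (0 : ℝ) < ((k : ℝ) + 1) * (t + 1) := by positivity
    have h5 : η / 2 * (n.choose (k + 1) : ℝ) ≤ ((k + 1) * (t + 1)) * 𝒯'.card := by
      refine h2.trans (mul_le_mul_of_nonneg_right ?_ h3)
      have : (0 : ℝ) ≤ (k : ℝ) + 1 := by positivity
      nlinarith
    have h6 : η / (2 * (k + 1) * (t + 1)) * (n.choose (k + 1) : ℝ) =
        (η / 2 * (n.choose (k + 1) : ℝ)) / ((k + 1) * (t + 1)) := by
      field_simp
    rw [h6, div_le_iff₀ h4]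
    linarith
  · intro T hT T' hT' hne
    exact disjoint_of_subset_left (hD T hT).2 (disjoint_of_subset_right (hD T' hT').2
      (hdis T hT T' hT' hne))
  · intro T hT
    exact ex0_mono hc (h𝒯c T (hsub hT)) (hD T hT).2

end Pool.Agent.SH
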