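import Pool.Agent.SH.Main

set_option autoImplicit false

/-!
# Random colourings of the cube with `n ^ (1 + ε)` colours are determined by their coloured stars
-/

namespace Pool.Agent.SHF

open Filter

/-- The `n`-cube: two vertices are adjacent when they differ in exactly one coordinate. -/
def Q (n : ℕ) : SimpleGraph (Fin n → Bool) where
  Adj x y := hammingDist x y = 1
  symm := ⟨fun x y h => by rw [hammingDist_comm]; exact h⟩
  loopless := ⟨fun x h => by simp at h⟩

/-- The ball of radius `r` about `v` for the graph distance. -/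
def ball (n r : ℕ) (v : Fin n → Bool) : Set (Fin n → Bool) := {u | (Q n).dist v u ≤ r}

/-- The coloured `r`-balls of `χ` at `u` and of `μ` at `w` are isomorphic. -/
def BallIso {n : ℕ} (r : ℕ) (χ μ : (Fin n → Bool) → ℕ) (u w : Fin n → Bool) : Prop :=
  ∃ φ : (Q n).induce (ball n r u) ≃g (Q n).induce (ball n r w), ∀ v, μ (φ v).1 = χ v.1

/-- `r`-local equivalence. -/
def LocEquiv {n : ℕ} (r : ℕ) (χ μ : (Fin n → Bool) → ℕ) : Prop :=
  ∃ f : Equiv.Perm (Fin n → Bool), ∀ v, BallIso r χ μ v (f v)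

/-- `χ ≅ μ`. -/
def Equivalent {n : ℕ} (χ μ : (Fin n → Bool) → ℕ) : Prop :=
  ∃ g : Q n ≃g Q n, ∀ v, χ v = μ (g v)

/-- `χ` is `r`-distinguishable. -/
def Distinguishable {n : ℕ} (r : ℕ) (χ : (Fin n → Bool) → ℕ) : Prop :=
  ∀ μ : (Fin n → Bool) → ℕ, LocEquiv r χ μ → Equivalent μ χ

open Classical in
/-- The probability that a uniform random `q`-colouring of the `n`-cube is `r`-distinguishable. -/
noncomputable def prob (n q r : ℕ) : ℝ :=
  ((Finset.univ.filter fun χ : (Fin n → Bool) → Fin q =>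
    Distinguishable r fun v => (χ v : ℕ)).card : ℝ) / (q : ℝ) ^ (2 ^ n)

/-! ### Transport to subsets of `Fin n` -/

/-- Vertices as subsets. -/
def fn_e (n : ℕ) : (Fin n → Bool) ≃ SH.V n where
  toFun x := Finset.univ.filter fun i => x i = true
  invFun s := fun i => decide (i ∈ s)
  left_inv x := by funext i; simp
  right_inv s := by ext i; simp

theorem fn_adj {n : ℕ} (x y : Fin n → Bool) : (Q n).Adj x y ↔ SH.adj (fn_e n x) (fn_e n y) := by
  unfold SH.adj
  show hammingDist x y = 1 ↔ _
  have : hammingDist x y = (symmDiff (fn_e n x) (fn_e n y)).card := by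
    unfold hammingDist
    congr 1
    ext i
    simp only [fn_e, Equiv.coe_fn_mk, Finset.mem_symmDiff, Finset.mem_filter, Finset.mem_univ,
      true_and]
    cases x i <;> cases y i <;> simp
  rw [this]

theorem fn_adj' {n : ℕ} (x y : SH.V n) :
    SH.adj x y ↔ (Q n).Adj ((fn_e n).symm x) ((fn_e n).symm y) := by
  rw [fn_adj, Equiv.apply_symm_apply, Equiv.apply_symm_apply]

/-- No triangles. -/
theorem fn_tri {n : ℕ} {x y z : SH.V n} (hxy : SH.adj x y) (hyz : SH.adj y z)
    (hxz : SH.adj x z) : False := by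
  unfold SH.adj at *
  have h1 : symmDiff x z = symmDiff (symmDiff x y) (symmDiff y z) := by
    rw [symmDiff_assoc, symmDiff_symmDiff_cancel_left]
  rw [h1] at hxz
  obtain ⟨a, ha⟩ := Finset.card_eq_one.1 hxy
  obtain ⟨b, hb⟩ := Finset.card_eq_one.1 hyz
  rw [ha, hb] at hxz
  by_cases hab : a = b
  · subst hab
    simp at hxz
  · have : symmDiff ({a} : Finset (Fin n)) {b} = {a, b} := by
      ext i
      simp only [Finset.mem_symmDiff, Finset.mem_singleton, Finset.mem_insert]
      constructor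
      · rintro (⟨h, _⟩ | ⟨h, _⟩)
        · exact Or.inl h
        · exact Or.inr h
      · rintro (rfl | rfl)
        · exact Or.inl ⟨rfl, hab⟩
        · exact Or.inr ⟨rfl, fun h => hab h.symm⟩
    rw [this, Finset.card_pair hab] at hxz
    omega

theorem fn_triQ {n : ℕ} {x y z : Fin n → Bool} (hxy : (Q n).Adj x y) (hyz : (Q n).Adj y z)
    (hxz : (Q n).Adj x z) : False :=
  fn_tri ((fn_adj _ _).1 hxy) ((fn_adj _ _).1 hyz) ((fn_adj _ _).1 hxz)

/-- The cube is connected. -/
theorem fn_reach {n : ℕ} (x y : Fin n → Bool) : (Q n).Reachable x y := by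
  induction h : hammingDist x y generalizing x with
  | zero =>
    rw [hammingDist_eq_zero] at h
    subst h
    exact SimpleGraph.Reachable.refl _
  | succ k ih =>
    have hne : x ≠ y := by
      intro hxy
      subst hxy
      simp at h
    obtain ⟨i, hi⟩ := Function.ne_iff.1 hne
    let x' := Function.update x i (y i)
    have h1 : hammingDist x x' = 1 := by
      unfold hammingDist
      rw [Finset.card_eq_one]
      refine ⟨i, ?_⟩
      ext j
      simp only [Finset.mem_filter, Finset.mem_univ, true_and, Finset.mem_singleton, x']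
      by_cases hj : j = i
      · subst hj
        simp [hi]
      · simp [hj]
    have h2 : hammingDist x' y = k := by
      have h3 : (Finset.univ.filter fun j => x j ≠ y j) =
          insert i (Finset.univ.filter fun j => x' j ≠ y j) := by
        ext j
        simp only [Finset.mem_filter, Finset.mem_univ, true_and, Finset.mem_insert, x']
        by_cases hj : j = i
        · subst hj
          simp [hi]
        · simp [hj]
      have h4 : i ∉ (Finset.univ.filter fun j => x' j ≠ y j) := by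
        simp [x']
      unfold hammingDist at h ⊢
      rw [h3, Finset.card_insert_of_notMem h4] at h
      omega
    have hadj : (Q n).Adj x x' := h1
    exact hadj.reachable.trans (ih x' h2)

theorem fn_mem_ball {n : ℕ} (v u : Fin n → Bool) : u ∈ ball n 1 v ↔ u = v ∨ (Q n).Adj v u := by
  show (Q n).dist v u ≤ 1 ↔ _
  constructor
  · intro h
    rcases Nat.le_one_iff_eq_zero_or_eq_one.1 h with h0 | h1
    · left
      exact ((fn_reach v u).dist_eq_zero_iff.1 h0).symm
    · right
      exact SimpleGraph.dist_eq_one_iff_adj.1 h1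
  · rintro (rfl | h)
    · simp
    · exact (SimpleGraph.dist_eq_one_iff_adj.2 h).le

/-- A ball isomorphism fixes the centre. -/
theorem fn_centre {n : ℕ} (hn : 2 ≤ n) {u w : Fin n → Bool}
    (φ : (Q n).induce (ball n 1 u) ≃g (Q n).induce (ball n 1 w)) (hu : u ∈ ball n 1 u) :
    (φ ⟨u, hu⟩).1 = w := by
  by_contra hne
  have hm := (φ ⟨u, hu⟩).2
  rw [fn_mem_ball] at hm
  have hw : (Q n).Adj w (φ ⟨u, hu⟩).1 := hm.resolve_left hne
  -- two neighbours of `u`
  let i0 : Fin n := ⟨0, by omega⟩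
  let i1 : Fin n := ⟨1, by omega⟩
  have hi : i0 ≠ i1 := by
    intro h
    have := congrArg Fin.val h
    simp [i0, i1] at this
  let a : Fin n → Bool := (fn_e n).symm (SH.fl (fn_e n u) i0)
  let b : Fin n → Bool := (fn_e n).symm (SH.fl (fn_e n u) i1)
  have ha : (Q n).Adj u a := by
    rw [fn_adj, Equiv.apply_symm_apply]
    exact SH.adj_fl _ _
  have hb : (Q n).Adj u b := by
    rw [fn_adj, Equiv.apply_symm_apply]
    exact SH.adj_fl _ _
  have hab : a ≠ b := by
    intro h
    have := (fn_e n).symm.injective h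
    exact hi (SH.fl_inj.1 this)
  have hab' : ∀ c, (hc : (Q n).Adj u c) → (φ ⟨c, (fn_mem_ball u c).2 (Or.inr hc)⟩).1 = w := by
    intro c hc
    have h1 : ((Q n).induce (ball n 1 u)).Adj ⟨u, hu⟩ ⟨c, (fn_mem_ball u c).2 (Or.inr hc)⟩ := hc
    have h2 := φ.map_adj_iff.2 h1
    have h3 : (Q n).Adj (φ ⟨u, hu⟩).1 (φ ⟨c, (fn_mem_ball u c).2 (Or.inr hc)⟩).1 := h2
    have hm' := (φ ⟨c, (fn_mem_ball u c).2 (Or.inr hc)⟩).2
    rw [fn_mem_ball] at hm'
    rcases hm' with h4 | h4
    · exact h4
    · exact (fn_triQ hw h3 h4).elim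
  have h5 := (hab' a ha).trans (hab' b hb).symm
  have h6 := φ.injective (Subtype.ext h5)
  exact hab (congrArg Subtype.val h6)

/-- The star map of a ball isomorphism. -/
theorem fn_star {n : ℕ} (hn : 2 ≤ n) {χ μ : (Fin n → Bool) → ℕ} {v w : Fin n → Bool}
    (h : BallIso 1 χ μ v w) :
    μ w = χ v ∧ ∃ b : (Fin n → Bool) → (Fin n → Bool),
      (∀ x, (Q n).Adj w x → (Q n).Adj v (b x)) ∧
      (∀ x y, (Q n).Adj w x → (Q n).Adj w y → b x = b y → x = y) ∧
      ∀ x, (Q n).Adj w x → χ (b x) = μ x := by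
  classical
  obtain ⟨φ, hφ⟩ := h
  have hv : v ∈ ball n 1 v := (fn_mem_ball _ _).2 (Or.inl rfl)
  have hw : w ∈ ball n 1 w := (fn_mem_ball _ _).2 (Or.inl rfl)
  have hcv := fn_centre hn φ hv
  have hcw := fn_centre hn φ.symm hw
  refine ⟨by rw [← hφ ⟨v, hv⟩, hcv], ?_⟩
  refine ⟨fun x => if hx : (Q n).Adj w x then
    (φ.symm ⟨x, (fn_mem_ball w x).2 (Or.inr hx)⟩).1 else x, ?_, ?_, ?_⟩
  · intro x hx
    simp only [hx, dif_pos]
    have h1 : ((Q n).induce (ball n 1 w)).Adj ⟨w, hw⟩ ⟨x, (fn_mem_ball w x).2 (Or.inr hx)⟩ := hx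
    have h2 := φ.symm.map_adj_iff.2 h1
    have h3 : (Q n).Adj (φ.symm ⟨w, hw⟩).1 (φ.symm ⟨x, (fn_mem_ball w x).2 (Or.inr hx)⟩).1 := h2
    rwa [hcw] at h3
  · intro x y hx hy hxy
    simp only [hx, hy, dif_pos] at hxy
    have := φ.symm.injective (Subtype.ext hxy)
    exact congrArg Subtype.val this
  · intro x hx
    simp only [hx, dif_pos]
    rw [← hφ, RelIso.apply_symm_apply]

/-- Outside the exceptional set the colouring is distinguishable. -/
theorem fn_main {n q : ℕ} (hn : 2 ≤ n) (χ : (Fin n → Bool) → Fin q)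
    (h : ∀ (σ : Equiv.Perm (SH.V n)) (β : SH.V n → SH.V n → SH.V n),
      SH.Twin (χ ∘ (fn_e n).symm) σ β → ∀ w b, SH.adj (σ w) (σ (SH.fl w b))) :
    Distinguishable 1 fun v => (χ v : ℕ) := by
  classical
  rintro μ ⟨f, hf⟩
  have hs := fun v => fn_star hn (hf v)
  choose h1 b hb1 hb2 hb3 using hs
  let σ : Equiv.Perm (SH.V n) := (fn_e n).symm.trans (f.symm.trans (fn_e n))
  let β : SH.V n → SH.V n → SH.V n := fun w u =>
    fn_e n (b (f.symm ((fn_e n).symm w)) ((fn_e n).symm u))
  have hcol : ∀ x, (χ (f.symm x) : ℕ) = μ x := by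
    intro x
    have := h1 (f.symm x)
    rw [Equiv.apply_symm_apply] at this
    exact this.symm
  have hT : SH.Twin (χ ∘ (fn_e n).symm) σ β := by
    refine ⟨?_, ?_, ?_⟩
    · intro w u hwu
      rw [fn_adj'] at hwu
      have := hb1 (f.symm ((fn_e n).symm w)) ((fn_e n).symm u)
        (by rw [Equiv.apply_symm_apply]; exact hwu)
      rw [fn_adj] at this
      exact this
    · intro w u u' hu hu' he
      rw [fn_adj'] at hu hu'
      have he' := (fn_e n).injective he
      have := hb2 (f.symm ((fn_e n).symm w)) ((fn_e n).symm u) ((fn_e n).symm u')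
        (by rw [Equiv.apply_symm_apply]; exact hu) (by rw [Equiv.apply_symm_apply]; exact hu') he'
      exact (fn_e n).symm.injective this
    · intro w u hwu
      rw [fn_adj'] at hwu
      have := hb3 (f.symm ((fn_e n).symm w)) ((fn_e n).symm u)
        (by rw [Equiv.apply_symm_apply]; exact hwu)
      have h2 := hcol ((fn_e n).symm u)
      apply Fin.ext
      simp only [Function.comp, β, σ, Equiv.trans_apply, Equiv.symm_apply_apply]
      rw [this, h2]
  have hp := h σ β hT
  have hpa : ∀ w u, SH.adj w u → SH.adj (σ w) (σ u) := by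
    intro w u hwu
    obtain ⟨i, rfl⟩ := SH.adj_iff.1 hwu
    exact hp w i
  have hpa' : ∀ w u, SH.adj (σ w) (σ u) → SH.adj w u := by
    intro w u hwu
    have himg : (Finset.univ.filter fun v => SH.adj w v).image σ =
        Finset.univ.filter fun v => SH.adj (σ w) v := by
      apply Finset.eq_of_subset_of_card_le
      · intro z hz
        rw [Finset.mem_image] at hz
        obtain ⟨y, hy, rfl⟩ := hz
        rw [Finset.mem_filter] at hy ⊢
        exact ⟨Finset.mem_univ _, hpa _ _ hy.2⟩
      · rw [Finset.card_image_of_injective _ σ.injective, SH.card_nb, SH.card_nb]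
    have hmem : σ u ∈ Finset.univ.filter fun v => SH.adj (σ w) v := by
      rw [Finset.mem_filter]
      exact ⟨Finset.mem_univ _, hwu⟩
    rw [← himg, Finset.mem_image] at hmem
    obtain ⟨y, hy, hyu⟩ := hmem
    rw [← σ.injective hyu]
    exact (Finset.mem_filter.1 hy).2
  refine ⟨⟨f.symm, ?_⟩, fun v => (hcol v).symm⟩
  intro x y
  have e1 : fn_e n (f.symm x) = σ (fn_e n x) := by simp [σ]
  have e2 : fn_e n (f.symm y) = σ (fn_e n y) := by simp [σ]
  rw [fn_adj, fn_adj, e1, e2]
  exact ⟨hpa' _ _, hpa _ _⟩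

theorem final (ε : ℝ) (hε : 0 < ε) : ∃ n0 : ℕ, ∀ n ≥ n0, ∀ q : ℕ, (n : ℝ) ^ (1 + ε) ≤ q →
    1 - (1 / 2 : ℝ) ^ n ≤ prob n q 1 := by
  classical
  obtain ⟨n0, h0⟩ := SH.main_ ε hε
  refine ⟨max n0 2, fun n hn q hq => ?_⟩
  have hn2 : 2 ≤ n := le_trans (le_max_right _ _) hn
  have hb := h0 n (le_trans (le_max_left _ _) hn) q hq
  have hqpos : (0 : ℝ) < q := by
    refine lt_of_lt_of_le ?_ hq
    apply Real.rpow_pos_of_pos
    exact_mod_cast (by omega : 0 < n)
  have hle : (Finset.univ.filter fun χ : (Fin n → Bool) → Fin q =>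
      ¬ Distinguishable 1 fun v => (χ v : ℕ)).card ≤
      (Finset.univ.filter fun χ : SH.V n → Fin q =>
        ∃ (σ : Equiv.Perm (SH.V n)) (β : SH.V n → SH.V n → SH.V n),
        SH.Twin χ σ β ∧ ∃ w b, ¬ SH.adj (σ w) (σ (SH.fl w b))).card := by
    apply Finset.card_le_card_of_injOn (fun χ => χ ∘ (fn_e n).symm)
    · intro χ hχ
      have hχ' := (Finset.mem_filter.1 hχ).2
      refine Finset.mem_coe.2 (Finset.mem_filter.2 ⟨Finset.mem_univ _, ?_⟩)
      by_contra hcon
      apply hχ'
      apply fn_main hn2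
      intro σ β hT w b
      by_contra hna
      exact hcon ⟨σ, β, hT, w, b, hna⟩
    · intro χ _ χ' _ he
      funext x
      have := congrFun he (fn_e n x)
      simpa using this
  have hsum : (Finset.univ.filter fun χ : (Fin n → Bool) → Fin q =>
      Distinguishable 1 fun v => (χ v : ℕ)).card +
      (Finset.univ.filter fun χ : (Fin n → Bool) → Fin q =>
      ¬ Distinguishable 1 fun v => (χ v : ℕ)).card = q ^ (2 ^ n) := by
    rw [Finset.card_filter_add_card_filter_not, Finset.card_univ, Fintype.card_fun,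
      Fintype.card_fin, Fintype.card_fun, Fintype.card_bool, Fintype.card_fin]
  unfold prob
  rw [le_div_iff₀ (by positivity)]
  have hs2 : ((Finset.univ.filter fun χ : (Fin n → Bool) → Fin q =>
      Distinguishable 1 fun v => (χ v : ℕ)).card : ℝ) +
      ((Finset.univ.filter fun χ : (Fin n → Bool) → Fin q =>
      ¬ Distinguishable 1 fun v => (χ v : ℕ)).card : ℝ) = (q : ℝ) ^ (2 ^ n) := by
    exact_mod_cast hsum
  have hle2 : ((Finset.univ.filter fun χ : (Fin n → Bool) → Fin q =>
      ¬ Distinguishable 1 fun v => (χ v : ℕ)).card : ℝ) ≤ (1 / 2) ^ n * (q : ℝ) ^ (2 ^ n) :=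
    le_trans (by exact_mod_cast hle) hb
  linarith

end Pool.Agent.SHF
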