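import Pool.Agent.SH.Cb

set_option autoImplicit false

namespace Pool.Agent.SH

open Finset

theorem fm_one {n : ℕ} (k : ℕ) (x : V n → V n) (T : V n) (hT : T.card = k + 1) :
    (Fam1 k x T).card ≤ n ^ (k + 1) := by
  classical
  have hsub : Fam1 k x T ⊆ (univ : Finset ({t // t ∈ T} → Fin n)).image
      (fun g : {t // t ∈ T} → Fin n => (univ : Finset {t // t ∈ T}).image
        fun t : {t // t ∈ T} => fl (x (T.erase t.1)) (g t)) := by
    intro D hD
    obtain ⟨-, -, i, hi⟩ := Finset.mem_filter.1 hD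
    refine Finset.mem_image.2 ⟨fun t => i t.1, Finset.mem_univ _, ?_⟩
    rw [hi]
    ext v
    simp only [Finset.mem_image, Finset.mem_univ, true_and, Subtype.exists]
    constructor
    · rintro ⟨t, ht, h⟩
      exact ⟨t, ht, h⟩
    · rintro ⟨t, ht, h⟩
      exact ⟨t, ht, h⟩
  refine (Finset.card_le_card hsub).trans (Finset.card_image_le.trans ?_)
  rw [Finset.card_univ, Fintype.card_fun, Fintype.card_fin, Fintype.card_coe, hT]

theorem fm_two {n : ℕ} (k : ℕ) (x : V n → V n) (T : V n) (hT : T.card = k + 1) :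
    (Fam2 x T).card ≤ 2 * (k + 1) ^ 3 * n := by
  classical
  set P := (T ×ˢ T ×ˢ T).filter fun p : Fin n × Fin n × Fin n =>
    x (T.erase p.1) ≠ x (T.erase p.2.1) with hP
  have hsub : Fam2 x T ⊆ P.biUnion fun p =>
      ((univ.filter fun v => adj (x (T.erase p.1)) v ∧ adj (x (T.erase p.2.1)) v) ×ˢ
        (univ.filter fun v' => adj (x (T.erase p.2.2)) v')).image fun s => {s.1, s.2} := by
    intro D hD
    obtain ⟨-, -, t, ht, t', ht', t'', ht'', v, v', hne, h1, h2, h3, hD'⟩ :=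
      Finset.mem_filter.1 hD
    refine Finset.mem_biUnion.2 ⟨(t, t', t''), ?_, ?_⟩
    · rw [hP]
      refine Finset.mem_filter.2 ⟨?_, hne⟩
      simp [ht, ht', ht'']
    · refine Finset.mem_image.2 ⟨(v, v'), ?_, hD'.symm⟩
      simp [h1, h2, h3]
  refine (Finset.card_le_card hsub).trans (Finset.card_biUnion_le.trans ?_)
  have hp : ∀ p ∈ P, (((univ.filter fun v => adj (x (T.erase p.1)) v ∧
      adj (x (T.erase p.2.1)) v) ×ˢ (univ.filter fun v' => adj (x (T.erase p.2.2)) v')).image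
        fun s => ({s.1, s.2} : Finset (V n))).card ≤ 2 * n := by
    intro p hp
    refine Finset.card_image_le.trans ?_
    rw [Finset.card_product, card_nb]
    exact Nat.mul_le_mul_right _ (card_common_le (Finset.mem_filter.1 hp).2)
  refine (Finset.sum_le_sum hp).trans ?_
  rw [Finset.sum_const, smul_eq_mul]
  have hPc : P.card ≤ (k + 1) ^ 3 := by
    refine (Finset.card_filter_le _ _).trans ?_
    rw [Finset.card_product, Finset.card_product, hT]
    exact le_of_eq (by ring)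
  calc P.card * (2 * n) ≤ (k + 1) ^ 3 * (2 * n) := Nat.mul_le_mul_right _ hPc
    _ = 2 * (k + 1) ^ 3 * n := by ring

/-- The weight of the family at `T`. -/
theorem fam_weight {n : ℕ} (k : ℕ) (hk : 1 ≤ k) (q : ℕ) (hq : 0 < q) (x : V n → V n) (T : V n)
    (hT : T.card = k + 1) :
    ∑ D ∈ Fam k x T, ((1 : ℝ) / q) ^ (D.card - 1) ≤
      (n : ℝ) ^ (k + 1) / (q : ℝ) ^ k + 2 * ((k : ℝ) + 1) ^ 3 * n / q := by
  classical
  have hq0 : (0 : ℝ) < q := by exact_mod_cast hq
  have h0 : ∑ D ∈ Fam k x T, ((1 : ℝ) / q) ^ (D.card - 1) ≤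
      ∑ D ∈ Fam1 k x T, ((1 : ℝ) / q) ^ (D.card - 1) +
        ∑ D ∈ Fam2 x T, ((1 : ℝ) / q) ^ (D.card - 1) := by
    have h := Finset.sum_union_inter (s₁ := Fam1 k x T) (s₂ := Fam2 x T)
      (f := fun D => ((1 : ℝ) / q) ^ (D.card - 1))
    have h' : 0 ≤ ∑ D ∈ Fam1 k x T ∩ Fam2 x T, ((1 : ℝ) / q) ^ (D.card - 1) :=
      Finset.sum_nonneg fun D _ => by positivity
    have h'' : Fam k x T = Fam1 k x T ∪ Fam2 x T := by
      unfold Fam
      congr!
    rw [h'']
    linarith
  refine h0.trans (add_le_add ?_ ?_)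
  · have h1 : ∑ D ∈ Fam1 k x T, ((1 : ℝ) / q) ^ (D.card - 1) =
        (Fam1 k x T).card * ((1 : ℝ) / q) ^ k := by
      rw [← nsmul_eq_mul, ← Finset.sum_const]
      refine Finset.sum_congr rfl fun D hD => ?_
      obtain ⟨-, hc, -⟩ := Finset.mem_filter.1 hD
      rw [hc, Nat.add_sub_cancel]
    rw [h1, one_div, inv_pow, ← div_eq_mul_inv]
    gcongr
    exact_mod_cast fm_one k x T hT
  · have h1 : ∑ D ∈ Fam2 x T, ((1 : ℝ) / q) ^ (D.card - 1) =
        (Fam2 x T).card * ((1 : ℝ) / q) := by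
      rw [← nsmul_eq_mul, ← Finset.sum_const]
      refine Finset.sum_congr rfl fun D hD => ?_
      obtain ⟨-, hc, -⟩ := Finset.mem_filter.1 hD
      rw [hc]
      norm_num
    rw [h1, one_div, ← div_eq_mul_inv]
    gcongr
    exact_mod_cast fm_two k x T hT

theorem fam_nonempty {n : ℕ} (k : ℕ) (x : V n → V n) (T : V n) (D : Finset (V n))
    (hD : D ∈ Fam k x T) : D.Nonempty := by
  classical
  have h : D ∈ Fam1 k x T ∪ Fam2 x T := by
    unfold Fam at hD
    convert hD
  rcases Finset.mem_union.1 h with h | h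
  · obtain ⟨-, hc, -⟩ := Finset.mem_filter.1 h
    exact Finset.card_pos.1 (by omega)
  · obtain ⟨-, hc, -⟩ := Finset.mem_filter.1 h
    exact Finset.card_pos.1 (by omega)

end Pool.Agent.SH
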