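import Pool.Agent.SH.Fin

set_option autoImplicit false

/-!
# With at most `n / 4` colours (and at least two) a random colouring is not determined
-/

namespace Pool.Agent.SHF

open Finset

/-- Flip the bit `i`. -/
def lb_f {n : ℕ} (x : Fin n → Bool) (i : Fin n) : Fin n → Bool := Function.update x i (!x i)

theorem lb_adj {n : ℕ} {x y : Fin n → Bool} : (Q n).Adj x y ↔ ∃ i, y = lb_f x i := by
  show hammingDist x y = 1 ↔ _
  unfold hammingDist
  rw [Finset.card_eq_one]
  constructor
  · rintro ⟨i, hi⟩
    refine ⟨i, ?_⟩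
    funext j
    unfold lb_f
    by_cases hj : j = i
    · subst hj
      have : j ∈ (univ.filter fun k => x k ≠ y k) := by rw [hi]; exact mem_singleton_self _
      rw [mem_filter] at this
      have h2 := this.2
      rw [Function.update_self]
      revert h2
      cases x j <;> cases y j <;> simp
    · have : j ∉ (univ.filter fun k => x k ≠ y k) := by rw [hi]; simpa using hj
      rw [mem_filter] at this
      rw [Function.update_of_ne hj]
      by_contra hc
      exact this ⟨mem_univ _, fun h => hc h.symm⟩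
  · rintro ⟨i, rfl⟩
    refine ⟨i, ?_⟩
    ext j
    simp only [mem_filter, mem_univ, true_and, mem_singleton]
    unfold lb_f
    by_cases hj : j = i
    · subst hj
      simp
    · simp [hj]

theorem lb_f_f {n : ℕ} (x : Fin n → Bool) (i : Fin n) : lb_f (lb_f x i) i = x := by
  unfold lb_f
  rw [Function.update_idem, Function.update_self, Bool.not_not, Function.update_eq_self]

theorem lb_f_same {n : ℕ} (x : Fin n → Bool) (i : Fin n) : lb_f x i i = !x i := by
  unfold lb_f
  rw [Function.update_self]

theorem lb_f_ne {n : ℕ} (x : Fin n → Bool) {i j : Fin n} (h : j ≠ i) : lb_f x i j = x j := by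
  unfold lb_f
  rw [Function.update_of_ne h]

theorem lb_common {n : ℕ} {y v : Fin n → Bool} {i j : Fin n} (hij : i ≠ j)
    (hi : (Q n).Adj (lb_f y i) v) (hj : (Q n).Adj (lb_f y j) v) (hv : v ≠ y) :
    v = lb_f (lb_f y i) j := by
  obtain ⟨k, hk⟩ := lb_adj.1 hi
  obtain ⟨l, hl⟩ := lb_adj.1 hj
  by_cases hki : k = i
  · subst hki
    rw [lb_f_f] at hk
    exact absurd hk hv
  · by_cases hkj : k = j
    · rw [← hkj]
      exact hk
    · exfalso
      have h1 : v i = !y i := by
        rw [hk, lb_f_ne _ (Ne.symm hki), lb_f_same]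
      have h2 : l = i := by
        by_contra hli
        have : v i = y i := by
          rw [hl, lb_f_ne _ (Ne.symm hli), lb_f_ne _ hij]
        rw [this] at h1
        revert h1
        cases y i <;> simp
      have h3 : v k = !y k := by
        rw [hk, lb_f_same, lb_f_ne _ hki]
      have h4 : v k = y k := by
        rw [hl, h2, lb_f_ne _ hki, lb_f_ne _ hkj]
      rw [h4] at h3
      revert h3
      cases y k <;> simp

/-- An automorphism of the cube is determined by the images of `0` and its neighbours. -/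
theorem lb_det {n : ℕ} (g g' : Q n ≃g Q n) (h0 : g (fun _ => false) = g' (fun _ => false))
    (h1 : ∀ i, g (lb_f (fun _ => false) i) = g' (lb_f (fun _ => false) i)) :
    ∀ (m : ℕ) (x : Fin n → Bool), (univ.filter fun i => x i = true).card = m → g x = g' x := by
  intro m
  induction m using Nat.strong_induction_on with
  | _ m ih =>
    intro x hx
    rcases Nat.lt_or_ge m 2 with hm | hm
    · interval_cases m
      · have : x = fun _ => false := by
          funext i
          have h2 := Finset.card_eq_zero.1 hx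
          have h3 : i ∉ (univ.filter fun i => x i = true) := by rw [h2]; simp
          simpa using h3
        rw [this, h0]
      · obtain ⟨i, hi⟩ := Finset.card_eq_one.1 hx
        have : x = lb_f (fun _ => false) i := by
          funext j
          by_cases hj : j = i
          · subst hj
            have h3 : j ∈ (univ.filter fun i => x i = true) := by
              rw [hi]; exact mem_singleton_self _
            rw [lb_f_same]
            simpa using h3
          · have h3 : j ∉ (univ.filter fun i => x i = true) := by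
              rw [hi]; simpa using hj
            rw [lb_f_ne _ hj]
            simpa using h3
        rw [this, h1]
    · obtain ⟨i, hi, j, hj, hij⟩ := Finset.one_lt_card.1 (by omega :
        1 < (univ.filter fun i => x i = true).card)
      rw [mem_filter] at hi hj
      have hw : ∀ (z : Fin n → Bool) (a : Fin n), z a = true →
          (univ.filter fun i => (lb_f z a) i = true).card + 1 =
            (univ.filter fun i => z i = true).card := by
        intro z a ha
        have : (univ.filter fun i => z i = true) =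
            insert a (univ.filter fun i => (lb_f z a) i = true) := by
          ext b
          rw [mem_insert, mem_filter, mem_filter]
          by_cases hb : b = a
          · subst hb
            simp [ha]
          · rw [lb_f_ne _ hb]
            simp [hb]
        rw [this, card_insert_of_notMem]
        rw [mem_filter, lb_f_same, ha]
        simp
      have hxi := hw x i hi.2
      have hxj := hw x j hj.2
      have hxij := hw (lb_f x i) j (by rw [lb_f_ne _ hij.symm]; exact hj.2)
      set y := lb_f (lb_f x i) j with hy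
      have hyi : lb_f y j = lb_f x i := by rw [hy, lb_f_f]
      have hcomm : lb_f (lb_f x i) j = lb_f (lb_f x j) i := by
        funext k
        by_cases hki : k = i
        · subst hki
          rw [lb_f_ne _ hij, lb_f_same, lb_f_same, lb_f_ne _ hij]
        · by_cases hkj : k = j
          · subst hkj
            rw [lb_f_same, lb_f_ne _ hki, lb_f_ne _ hki, lb_f_same]
          · rw [lb_f_ne _ hkj, lb_f_ne _ hki, lb_f_ne _ hki, lb_f_ne _ hkj]
      have hyj : lb_f y i = lb_f x j := by rw [hy, hcomm, lb_f_f]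
      have e1 : g (lb_f x i) = g' (lb_f x i) := ih _ (by omega) _ rfl
      have e2 : g (lb_f x j) = g' (lb_f x j) := ih _ (by omega) _ rfl
      have e3 : g y = g' y := ih _ (by omega) _ rfl
      have a1 : (Q n).Adj y (lb_f x i) := lb_adj.2 ⟨j, hyi.symm⟩
      have a2 : (Q n).Adj y (lb_f x j) := lb_adj.2 ⟨i, hyj.symm⟩
      have a3 : (Q n).Adj (lb_f x i) x := lb_adj.2 ⟨i, (lb_f_f x i).symm⟩
      have a4 : (Q n).Adj (lb_f x j) x := lb_adj.2 ⟨j, (lb_f_f x j).symm⟩
      have hxy : x ≠ y := by
        intro h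
        have := congrFun h i
        rw [hy, lb_f_ne _ hij, lb_f_same, hi.2] at this
        exact absurd this (by decide)
      obtain ⟨a, ha⟩ := lb_adj.1 (g.map_rel_iff.2 a1)
      obtain ⟨b, hb⟩ := lb_adj.1 (g.map_rel_iff.2 a2)
      have hne : lb_f x i ≠ lb_f x j := by
        intro h
        have := congrFun h i
        rw [lb_f_same, lb_f_ne _ hij, hi.2] at this
        exact absurd this (by decide)
      have hab : a ≠ b := by
        intro h
        apply hne
        apply g.injective
        show g (lb_f x i) = g (lb_f x j)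
        rw [show g (lb_f x i) = _ from ha, show g (lb_f x j) = _ from hb, h]
      have r1 : g x = lb_f (lb_f (g y) a) b := by
        apply lb_common hab
        · rw [← show g (lb_f x i) = _ from ha]
          exact g.map_rel_iff.2 a3
        · rw [← show g (lb_f x j) = _ from hb]
          exact g.map_rel_iff.2 a4
        · exact fun h => hxy (g.injective h)
      have r2 : g' x = lb_f (lb_f (g y) a) b := by
        apply lb_common hab
        · rw [← show g (lb_f x i) = _ from ha, e1]
          exact g'.map_rel_iff.2 a3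
        · rw [← show g (lb_f x j) = _ from hb, e2]
          exact g'.map_rel_iff.2 a4
        · rw [e3]
          exact fun h => hxy (g'.injective h)
      rw [r1, r2]

/-- Two maps with the same fibre cardinalities differ by a permutation. -/
theorem lb_perm {α γ : Type} [Fintype α] [DecidableEq γ] (f g : α → γ)
    (h : ∀ c, (univ.filter fun a => f a = c).card = (univ.filter fun a => g a = c).card) :
    ∃ e : Equiv.Perm α, ∀ a, g (e a) = f a := by
  have h1 : ∀ c, Nonempty ({a // f a = c} ≃ {a // g a = c}) := by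
    intro c
    apply Fintype.card_eq.1
    rw [Fintype.card_subtype, Fintype.card_subtype]
    exact h c
  exact ⟨Equiv.ofFiberEquiv fun c => Classical.choice (h1 c), fun a => Equiv.ofFiberEquiv_map _ a⟩

/-- The coloured star at `v`. -/
def lb_ty {n q : ℕ} (χ : (Fin n → Bool) → Fin q) (v : Fin n → Bool) : Fin q × Sym (Fin q) n :=
  (χ v, ⟨(univ : Finset (Fin n)).val.map fun i => χ (lb_f v i), by simp⟩)

/-- The automorphism which takes `u` to `w` and the direction `i` to `π i`. -/
def lb_aut {n : ℕ} (u w : Fin n → Bool) (π : Equiv.Perm (Fin n)) : Q n ≃g Q n where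
  toFun x := fun j => xor (w j) (xor (x (π.symm j)) (u (π.symm j)))
  invFun x := fun i => xor (u i) (xor (x (π i)) (w (π i)))
  left_inv x := by
    funext i
    simp only [Equiv.symm_apply_apply]
    cases u i <;> cases w (π i) <;> cases x i <;> rfl
  right_inv x := by
    funext j
    simp only [Equiv.apply_symm_apply]
    cases u (π.symm j) <;> cases w j <;> cases x j <;> rfl
  map_rel_iff' := by
    intro x y
    show hammingDist _ _ = 1 ↔ hammingDist x y = 1
    have : hammingDist (fun j => xor (w j) (xor (x (π.symm j)) (u (π.symm j))))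
        (fun j => xor (w j) (xor (y (π.symm j)) (u (π.symm j)))) = hammingDist x y := by
      unfold hammingDist
      apply Finset.card_bij fun j _ => π.symm j
      · intro j hj
        rw [mem_filter] at hj ⊢
        refine ⟨mem_univ _, fun h => hj.2 ?_⟩
        simp only [h]
      · intro j _ j' _ h
        exact π.symm.injective h
      · intro i hi
        rw [mem_filter] at hi
        refine ⟨π i, ?_, π.symm_apply_apply i⟩
        rw [mem_filter]
        refine ⟨mem_univ _, fun h => hi.2 ?_⟩
        simp only [Equiv.symm_apply_apply] at h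
        revert h
        cases u i <;> cases w (π i) <;> cases x i <;> cases y i <;> simp
    show hammingDist (fun j => xor (w j) (xor (x (π.symm j)) (u (π.symm j))))
        (fun j => xor (w j) (xor (y (π.symm j)) (u (π.symm j)))) = 1 ↔ _
    rw [this]

theorem lb_aut_u {n : ℕ} (u w : Fin n → Bool) (π : Equiv.Perm (Fin n)) : lb_aut u w π u = w := by
  funext j
  show xor (w j) (xor (u (π.symm j)) (u (π.symm j))) = w j
  simp

theorem lb_aut_f {n : ℕ} (u w : Fin n → Bool) (π : Equiv.Perm (Fin n)) (i : Fin n) :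
    lb_aut u w π (lb_f u i) = lb_f w (π i) := by
  funext j
  show xor (w j) (xor (lb_f u i (π.symm j)) (u (π.symm j))) = lb_f w (π i) j
  by_cases h : π.symm j = i
  · have h' : j = π i := by rw [← h, Equiv.apply_symm_apply]
    rw [h, h', lb_f_same, lb_f_same]
    cases u i <;> cases w (π i) <;> rfl
  · have h' : j ≠ π i := fun hc => h (by rw [hc, Equiv.symm_apply_apply])
    rw [lb_f_ne _ h, lb_f_ne _ h']
    simp

theorem lb_dist {n : ℕ} (g : Q n ≃g Q n) (u v : Fin n → Bool) :
    (Q n).dist (g u) (g v) = (Q n).dist u v := by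
  have key : ∀ (g : Q n ≃g Q n) (u v : Fin n → Bool), (Q n).Reachable u v →
      (Q n).dist (g u) (g v) ≤ (Q n).dist u v := by
    intro g u v h
    obtain ⟨p, hp⟩ := h.exists_walk_length_eq_dist
    have := SimpleGraph.dist_le (p.map g.toHom)
    rw [SimpleGraph.Walk.length_map, hp] at this
    exact this
  by_cases h : (Q n).Reachable u v
  · apply le_antisymm (key g u v h)
    have h' : (Q n).Reachable (g u) (g v) := SimpleGraph.Iso.reachable_iff.2 h
    have := key g.symm _ _ h'
    simpa using this
  · have h' : ¬ (Q n).Reachable (g u) (g v) := fun hc => h (SimpleGraph.Iso.reachable_iff.1 hc)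
    rw [SimpleGraph.dist_eq_zero_of_not_reachable h, SimpleGraph.dist_eq_zero_of_not_reachable h']

theorem lb_ball {n : ℕ} {u v : Fin n → Bool} (h : v ∈ ball n 1 u) (hr : (Q n).Reachable u v) :
    v = u ∨ ∃ i, v = lb_f u i := by
  have h1 : (Q n).dist u v ≤ 1 := h
  rcases Nat.lt_or_ge ((Q n).dist u v) 1 with h2 | h2
  · left
    have h3 : (Q n).dist u v = 0 := by omega
    rcases SimpleGraph.dist_eq_zero_iff_eq_or_not_reachable.1 h3 with h4 | h4
    · exact h4.symm
    · exact absurd hr h4
  · right
    have h3 : (Q n).dist u v = 1 := by omega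
    exact lb_adj.1 (SimpleGraph.dist_eq_one_iff_adj.1 h3)

theorem lb_conn {n : ℕ} (u v : Fin n → Bool) : (Q n).Reachable u v := by
  have key : ∀ (m : ℕ) (v : Fin n → Bool), hammingDist u v = m → (Q n).Reachable u v := by
    intro m
    induction m with
    | zero =>
      intro v h
      rw [hammingDist_eq_zero] at h
      rw [h]
    | succ m ih =>
      intro v h
      have h1 : (univ.filter fun i => u i ≠ v i).Nonempty := by
        rw [← Finset.card_pos]
        have : (univ.filter fun i => u i ≠ v i).card = m + 1 := h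
        omega
      obtain ⟨i, hi⟩ := h1
      rw [mem_filter] at hi
      have h2 : hammingDist u (lb_f v i) = m := by
        have h3 : (univ.filter fun k => u k ≠ v k) =
            insert i (univ.filter fun k => u k ≠ lb_f v i k) := by
          ext b
          rw [mem_insert, mem_filter, mem_filter]
          by_cases hb : b = i
          · subst hb
            simp [hi.2]
          · rw [lb_f_ne _ hb]
            simp [hb]
        have h4 : i ∉ (univ.filter fun k => u k ≠ lb_f v i k) := by
          rw [mem_filter, lb_f_same]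
          have := hi.2
          revert this
          cases u i <;> cases v i <;> simp
        have h5 : (univ.filter fun k => u k ≠ v k).card = m + 1 := h
        rw [h3, card_insert_of_notMem h4] at h5
        have h6 : (univ.filter fun k => u k ≠ lb_f v i k).card = m := by omega
        exact h6
      exact (ih _ h2).trans (SimpleGraph.Adj.reachable (lb_adj.2 ⟨i, (lb_f_f v i).symm⟩))
  exact key _ v rfl

theorem lb_ballIso {n q : ℕ} (χ μ : (Fin n → Bool) → Fin q) (u w : Fin n → Bool)
    (h : lb_ty χ u = lb_ty μ w) :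
    BallIso 1 (fun v => (χ v : ℕ)) (fun v => (μ v : ℕ)) u w := by
  have h1 : χ u = μ w := congrArg Prod.fst h
  have h2 : (univ : Finset (Fin n)).val.map (fun i => χ (lb_f u i)) =
      (univ : Finset (Fin n)).val.map (fun i => μ (lb_f w i)) :=
    congrArg (fun p => (p.2 : Multiset (Fin q))) h
  obtain ⟨π, hπ⟩ := lb_perm (fun i => χ (lb_f u i)) (fun i => μ (lb_f w i)) (by
    intro c
    have h3 := congrArg (Multiset.count c) h2
    rw [Multiset.count_map, Multiset.count_map] at h3
    have e : ∀ f : Fin n → Fin q, (univ.filter fun a => f a = c).card =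
        (Multiset.filter (fun a => c = f a) (univ : Finset (Fin n)).val).card := by
      intro f
      rw [← Finset.filter_val, Finset.card_val]
      congr 1
      ext a
      simp [eq_comm]
    rw [e, e]
    exact h3)
  set g := lb_aut u w π with hg
  refine ⟨⟨⟨fun v => ⟨g v.1, ?_⟩, fun v => ⟨g.symm v.1, ?_⟩, ?_, ?_⟩, ?_⟩, ?_⟩
  · show (Q n).dist w (g v.1) ≤ 1
    rw [← lb_aut_u u w π, lb_dist]
    exact v.2
  · show (Q n).dist u (g.symm v.1) ≤ 1
    have h3 := lb_dist g u (g.symm v.1)
    rw [RelIso.apply_symm_apply, show g u = w from lb_aut_u u w π] at h3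
    rw [← h3]
    exact v.2
  · intro v
    apply Subtype.ext
    simp
  · intro v
    apply Subtype.ext
    simp
  · intro a b
    exact g.map_rel_iff
  · intro v
    show ((μ (g v.1) : Fin q) : ℕ) = (χ v.1 : ℕ)
    rcases lb_ball v.2 (lb_conn _ _) with h3 | ⟨i, h3⟩
    · rw [h3, hg, lb_aut_u, h1]
    · rw [h3, hg, lb_aut_f]
      exact congrArg Fin.val (hπ i)

/-- The number of vertices with each coloured star. -/
def lb_pf {n q : ℕ} (χ : (Fin n → Bool) → Fin q) (τ : Fin q × Sym (Fin q) n) : Fin (2 ^ n + 1) :=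
  ⟨(univ.filter fun v => lb_ty χ v = τ).card, by
    have h := Finset.card_filter_le (univ : Finset (Fin n → Bool)) (fun v => lb_ty χ v = τ)
    have h2 : (univ : Finset (Fin n → Bool)).card = 2 ^ n := by simp
    omega⟩

theorem lb_loc {n q : ℕ} (χ μ : (Fin n → Bool) → Fin q) (h : lb_pf χ = lb_pf μ) :
    LocEquiv 1 (fun v => (χ v : ℕ)) (fun v => (μ v : ℕ)) := by
  obtain ⟨e, he⟩ := lb_perm (lb_ty χ) (lb_ty μ) (fun τ => by
    have := congrArg Fin.val (congrFun h τ)
    exact this)
  exact ⟨e, fun v => lb_ballIso χ μ v (e v) (he v).symm⟩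

open Classical in
theorem lb_count (n q : ℕ) :
    (univ.filter fun χ : (Fin n → Bool) → Fin q => Distinguishable 1 fun v => (χ v : ℕ)).card ≤
      (2 ^ n * (2 ^ n) ^ n) * (2 ^ n + 1) ^ (q * Nat.multichoose q n) := by
  set D := univ.filter fun χ : (Fin n → Bool) → Fin q => Distinguishable 1 fun v => (χ v : ℕ)
    with hD
  have h1 : D.card ≤ (2 ^ n * (2 ^ n) ^ n) * (D.image lb_pf).card := by
    apply Finset.card_le_mul_card_image
    intro P hP
    rw [mem_image] at hP
    obtain ⟨χ0, hχ0, rfl⟩ := hP
    rw [hD, mem_filter] at hχ0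
    have hg : ∀ χ ∈ D.filter (fun χ => lb_pf χ = lb_pf χ0),
        ∃ g : Q n ≃g Q n, ∀ v, χ v = χ0 (g v) := by
      intro χ hχ
      rw [mem_filter] at hχ
      obtain ⟨g, hg⟩ := hχ0.2 _ (lb_loc χ0 χ hχ.2.symm)
      exact ⟨g, fun v => Fin.ext (hg v)⟩
    choose! G hG using hg
    have hinj : Set.InjOn (fun χ => ((G χ (fun _ => false) : Fin n → Bool),
        fun i => (G χ (lb_f (fun _ => false) i) : Fin n → Bool)))
        (D.filter (fun χ => lb_pf χ = lb_pf χ0) : Finset ((Fin n → Bool) → Fin q)) := by
      intro χ hχ χ' hχ' he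
      simp only [Prod.mk.injEq] at he
      have hdet := lb_det (G χ) (G χ') he.1 (fun i => congrFun he.2 i)
      funext v
      rw [hG χ hχ v, hG χ' hχ' v, hdet _ v rfl]
    calc (D.filter (fun χ => lb_pf χ = lb_pf χ0)).card
        ≤ (univ : Finset ((Fin n → Bool) × (Fin n → Fin n → Bool))).card :=
          Finset.card_le_card_of_injOn _ (fun _ _ => mem_univ _) hinj
      _ = 2 ^ n * (2 ^ n) ^ n := by simp
  refine h1.trans (Nat.mul_le_mul_left _ ?_)
  calc (D.image lb_pf).card
      ≤ (univ : Finset (Fin q × Sym (Fin q) n → Fin (2 ^ n + 1))).card :=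
        Finset.card_le_card (subset_univ _)
    _ = (2 ^ n + 1) ^ (q * Nat.multichoose q n) := by
        rw [Finset.card_univ, Fintype.card_fun, Fintype.card_fin, Fintype.card_prod,
          Fintype.card_fin, Sym.card_sym_eq_multichoose, Fintype.card_fin]

theorem lb_choose (n q : ℕ) (hq : 1 ≤ q) (h4 : 4 * q ≤ n) :
    ((Nat.multichoose q n : ℕ) : ℝ) ^ 4 ≤ (3125 / 256) ^ n := by
  have h1 : Nat.multichoose q n = (q + n - 1).choose (q - 1) := by
    rw [Nat.multichoose_eq, ← Nat.choose_symm (by omega : q - 1 ≤ q + n - 1)]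
    congr 1
    omega
  set N := q + n - 1 with hN
  have h2 : ((N.choose (q - 1) : ℕ) : ℝ) * (1 / 4) ^ (q - 1) ≤ (5 / 4) ^ N := by
    have h3 := add_pow (1 / 4 : ℝ) 1 N
    have h5 : (1 / 4 : ℝ) + 1 = 5 / 4 := by norm_num
    rw [h5] at h3
    rw [h3]
    have h6 : q - 1 ∈ Finset.range (N + 1) := by
      rw [Finset.mem_range]
      omega
    refine le_trans (le_of_eq ?_) (Finset.single_le_sum (f := fun m =>
      (1 / 4 : ℝ) ^ m * 1 ^ (N - m) * (N.choose m : ℝ)) (fun m _ => by positivity) h6)
    simp only [one_pow, mul_one]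
    ring
  have h7 : ((N.choose (q - 1) : ℕ) : ℝ) ≤ (5 / 4) ^ N * 4 ^ (q - 1) := by
    have h8 : (1 / 4 : ℝ) ^ (q - 1) * 4 ^ (q - 1) = 1 := by
      rw [← mul_pow]
      norm_num
    calc ((N.choose (q - 1) : ℕ) : ℝ)
        = ((N.choose (q - 1) : ℕ) : ℝ) * (1 / 4) ^ (q - 1) * 4 ^ (q - 1) := by
          rw [mul_assoc, h8, mul_one]
      _ ≤ _ := mul_le_mul_of_nonneg_right h2 (by positivity)
  rw [h1]
  calc ((N.choose (q - 1) : ℕ) : ℝ) ^ 4 ≤ ((5 / 4) ^ N * 4 ^ (q - 1)) ^ 4 :=
        pow_le_pow_left₀ (by positivity) h7 4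
    _ = (5 / 4) ^ (N * 4) * 4 ^ ((q - 1) * 4) := by
        rw [mul_pow, ← pow_mul, ← pow_mul]
    _ ≤ (5 / 4) ^ (5 * n) * 4 ^ n := by
        apply mul_le_mul
        · exact pow_le_pow_right₀ (by norm_num) (by omega)
        · exact pow_le_pow_right₀ (by norm_num) (by omega)
        · positivity
        · positivity
    _ = (3125 / 256) ^ n := by
        rw [pow_mul, ← mul_pow]
        norm_num

theorem lb_num : ∃ n0 : ℕ, 1 ≤ n0 ∧ ∀ n ≥ n0, ∀ q : ℕ, 1 ≤ q → 4 * q ≤ n →
    (n + 1) * (q * Nat.multichoose q n) + (n + n * n + n) ≤ 2 ^ n := by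
  have t1 : Filter.Tendsto (fun n : ℕ => (n : ℝ) ^ 8 * (3125 / 4096 : ℝ) ^ n) Filter.atTop
      (nhds 0) := tendsto_pow_const_mul_const_pow_of_abs_lt_one 8 (by
        rw [abs_of_pos (by norm_num)]; norm_num)
  have t2 : Filter.Tendsto (fun n : ℕ => (n : ℝ) ^ 2 * (1 / 2 : ℝ) ^ n) Filter.atTop
      (nhds 0) := tendsto_pow_const_mul_const_pow_of_abs_lt_one 2 (by
        rw [abs_of_pos (by norm_num)]; norm_num)
  have e1 := (t1.eventually (gt_mem_nhds (by norm_num : (0 : ℝ) < 1 / 4096)))
  have e2 := (t2.eventually (gt_mem_nhds (by norm_num : (0 : ℝ) < 1 / 16)))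
  obtain ⟨n1, hn1⟩ := Filter.eventually_atTop.1 (e1.and e2)
  refine ⟨max 1 n1, le_max_left _ _, ?_⟩
  intro n hn q hq h4
  have hn1' : 1 ≤ n := (le_max_left _ _).trans hn
  obtain ⟨b1, b2⟩ := hn1 n ((le_max_right _ _).trans hn)
  have hnr : (1 : ℝ) ≤ n := by exact_mod_cast hn1'
  have hqr : (q : ℝ) ≤ n := by exact_mod_cast (by omega : q ≤ n)
  set C : ℝ := ((Nat.multichoose q n : ℕ) : ℝ) with hC
  have hC0 : 0 ≤ C := by positivity
  have hC4 : C ^ 4 ≤ (3125 / 256) ^ n := lb_choose n q hq h4
  have k1 : ((n : ℝ) + 1) * (q * C) ≤ 2 ^ n / 2 := by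
    have k2 : (((n : ℝ) + 1) * (q * C)) ^ 4 ≤ (2 ^ n / 2) ^ 4 := by
      have k3 : (((n : ℝ) + 1) * (q * C)) ^ 4 = ((n : ℝ) + 1) ^ 4 * (q : ℝ) ^ 4 * C ^ 4 := by ring
      have k4 : ((n : ℝ) + 1) ^ 4 ≤ (2 * n) ^ 4 := pow_le_pow_left₀ (by positivity) (by linarith) 4
      have k5 : (q : ℝ) ^ 4 ≤ (n : ℝ) ^ 4 := pow_le_pow_left₀ (by positivity) hqr 4
      have k6 : (3125 / 256 : ℝ) ^ n = (3125 / 4096) ^ n * 16 ^ n := by
        rw [← mul_pow]
        norm_num
      have k7 : ((2 : ℝ) ^ n / 2) ^ 4 = 16 ^ n / 16 := by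
        rw [div_pow, ← pow_mul, mul_comm n 4, pow_mul]
        norm_num
      rw [k3, k7]
      calc ((n : ℝ) + 1) ^ 4 * (q : ℝ) ^ 4 * C ^ 4
          ≤ (2 * n) ^ 4 * (n : ℝ) ^ 4 * (3125 / 256) ^ n := by
            apply mul_le_mul _ hC4 (by positivity) (by positivity)
            exact mul_le_mul k4 k5 (by positivity) (by positivity)
        _ = 16 * ((n : ℝ) ^ 8 * (3125 / 4096) ^ n) * 16 ^ n := by
            rw [k6]; ring
        _ ≤ 16 * (1 / 4096) * 16 ^ n := by
            apply mul_le_mul_of_nonneg_right _ (by positivity)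
            linarith
        _ ≤ 16 ^ n / 16 := by
            have : (0 : ℝ) < 16 ^ n := by positivity
            linarith
    exact le_of_pow_le_pow_left₀ (by norm_num) (by positivity) k2
  have k8 : (n : ℝ) + n * n + n ≤ 2 ^ n / 2 := by
    have k9 : (1 / 2 : ℝ) ^ n * 2 ^ n = 1 := by
      rw [← mul_pow]
      norm_num
    have k10 : (n : ℝ) ^ 2 ≤ 1 / 16 * 2 ^ n := by
      calc (n : ℝ) ^ 2 = (n : ℝ) ^ 2 * (1 / 2) ^ n * 2 ^ n := by rw [mul_assoc, k9, mul_one]
        _ ≤ 1 / 16 * 2 ^ n := mul_le_mul_of_nonneg_right b2.le (by positivity)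
    nlinarith
  have k11 : ((n : ℝ) + 1) * (q * C) + (n + n * n + n) ≤ 2 ^ n := by linarith
  rw [hC] at k11
  exact_mod_cast k11

open Classical in
/-- With at least two and at most `n / 4` colours, a random colouring is almost surely not
1-distinguishable. -/
theorem lower : ∃ n0 : ℕ, ∀ n ≥ n0, ∀ q : ℕ, 2 ≤ q → 4 * q ≤ n →
    prob n q 1 ≤ (1 / 2 : ℝ) ^ n := by
  obtain ⟨n0, hn0, hnum⟩ := lb_num
  refine ⟨n0, ?_⟩
  intro n hn q hq h4
  have h1 := hnum n hn q (by omega) h4
  have hn1 : 1 ≤ n := hn0.trans hn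
  have h2 := lb_count n q
  have h3 : (2 ^ n * (2 ^ n) ^ n) * (2 ^ n + 1) ^ (q * Nat.multichoose q n) * 2 ^ n ≤
      q ^ (2 ^ n) := by
    calc (2 ^ n * (2 ^ n) ^ n) * (2 ^ n + 1) ^ (q * Nat.multichoose q n) * 2 ^ n
        ≤ (2 ^ n * (2 ^ n) ^ n) * (2 ^ (n + 1)) ^ (q * Nat.multichoose q n) * 2 ^ n := by
          apply Nat.mul_le_mul_right
          apply Nat.mul_le_mul_left
          apply Nat.pow_le_pow_left
          rw [pow_succ]
          have : 1 ≤ 2 ^ n := Nat.one_le_two_pow
          omega
      _ = 2 ^ ((n + 1) * (q * Nat.multichoose q n) + (n + n * n + n)) := by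
          rw [← pow_mul, ← pow_mul]
          ring
      _ ≤ 2 ^ (2 ^ n) := Nat.pow_le_pow_right (by norm_num) h1
      _ ≤ q ^ (2 ^ n) := Nat.pow_le_pow_left hq _
  unfold prob
  have hq0 : (0 : ℝ) < (q : ℝ) ^ (2 ^ n) := by
    have : (0 : ℝ) < q := by exact_mod_cast (by omega : 0 < q)
    positivity
  rw [div_le_iff₀ hq0]
  have h5 : (univ.filter fun χ : (Fin n → Bool) → Fin q =>
      Distinguishable 1 fun v => (χ v : ℕ)).card * 2 ^ n ≤ q ^ (2 ^ n) := by
    refine (Nat.mul_le_mul_right _ ?_).trans h3
    convert h2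
  have h6 : ((univ.filter fun χ : (Fin n → Bool) → Fin q =>
      Distinguishable 1 fun v => (χ v : ℕ)).card : ℝ) * 2 ^ n ≤ (q : ℝ) ^ (2 ^ n) := by
    exact_mod_cast h5
  have h7 : (1 / 2 : ℝ) ^ n * 2 ^ n = 1 := by
    rw [← mul_pow]
    norm_num
  have h8 := mul_le_mul_of_nonneg_left h6 (by positivity : (0 : ℝ) ≤ (1 / 2) ^ n)
  calc _ = ((univ.filter fun χ : (Fin n → Bool) → Fin q =>
      Distinguishable 1 fun v => (χ v : ℕ)).card : ℝ) * ((1 / 2 : ℝ) ^ n * 2 ^ n) := by
        rw [h7, mul_one]
    _ = (1 / 2 : ℝ) ^ n * (((univ.filter fun χ : (Fin n → Bool) → Fin q =>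
      Distinguishable 1 fun v => (χ v : ℕ)).card : ℝ) * 2 ^ n) := by ring
    _ ≤ _ := h8

end Pool.Agent.SHF
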