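import Pool.Agent.SH.Pr

set_option autoImplicit false

namespace Pool.Agent.SH

open Finset

theorem p1_adj_fl {n : ℕ} (x : V n) (i : Fin n) : adj x (fl x i) := by
  unfold adj fl
  rw [symmDiff_symmDiff_cancel_left, card_singleton]

theorem p1_adj_iff {n : ℕ} {x y : V n} : adj x y ↔ ∃ i, y = fl x i := by
  constructor
  · intro h
    obtain ⟨i, hi⟩ := card_eq_one.1 h
    refine ⟨i, ?_⟩
    unfold fl
    rw [← hi, symmDiff_symmDiff_cancel_left]
  · rintro ⟨i, rfl⟩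
    exact p1_adj_fl x i

theorem p1_fl_inj {n : ℕ} {x : V n} {i j : Fin n} : fl x i = fl x j ↔ i = j := by
  unfold fl
  rw [symmDiff_right_inj, singleton_inj]

theorem p1_ub {α ι : Type*} [DecidableEq α] (s : Finset α) (I : Finset ι) (P : α → Prop)
    (Q : ι → α → Prop) [DecidablePred P] [∀ i, DecidablePred (Q i)]
    (h : ∀ a ∈ s, P a → ∃ i ∈ I, Q i a) :
    (s.filter P).card ≤ ∑ i ∈ I, (s.filter (Q i)).card := by
  classical
  refine (card_le_card ?_).trans (card_biUnion_le (s := I) (t := fun i => s.filter (Q i)))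
  intro a ha
  rw [mem_filter] at ha
  obtain ⟨i, hi, hq⟩ := h a ha.1 ha.2
  exact mem_biUnion.2 ⟨i, hi, mem_filter.2 ⟨ha.1, hq⟩⟩

open Classical in
theorem p1_one {n q : ℕ} (x x' : V n) (S : Finset (Fin n)) (j : Fin n → Fin n) :
    (univ.filter fun χ : V n → Fin q => (∀ i ∈ S, ¬ adj x' (fl x i)) ∧
      ∀ i ∈ S, χ (fl x i) = χ (fl x' (j i))).card * q ^ S.card ≤ q ^ (2 ^ n) := by
  by_cases h0 : ∀ i ∈ S, ¬ adj x' (fl x i)
  · have hc : (S.image (fl x)).card = S.card := card_image_of_injective _ fun a b h => p1_fl_inj.1 h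
    set f : V n → V n := fun a => if h : ∃ i ∈ S, fl x i = a then fl x' (j h.choose) else a with hf
    have hfi : ∀ i ∈ S, f (fl x i) = fl x' (j i) := by
      intro i hi
      have h : ∃ i' ∈ S, fl x i' = fl x i := ⟨i, hi, rfl⟩
      rw [hf]
      simp only [dif_pos h]
      rw [p1_fl_inj.1 h.choose_spec.2]
    have key := pr (q := q) (S.image (fl x)) f (by
      intro a ha hfa
      obtain ⟨i, hi, rfl⟩ := mem_image.1 ha
      obtain ⟨i', hi', he⟩ := mem_image.1 hfa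
      rw [hfi i hi] at he
      exact h0 i' hi' (he ▸ p1_adj_fl x' (j i)))
    rw [hc] at key
    refine le_trans (Nat.mul_le_mul_right _ (card_le_card ?_)) key
    intro χ hχ
    rw [mem_filter] at hχ ⊢
    refine ⟨hχ.1, fun a ha => ?_⟩
    obtain ⟨i, hi, rfl⟩ := mem_image.1 ha
    rw [hfi i hi]
    exact hχ.2.2 i hi
  · have : (univ.filter fun χ : V n → Fin q => (∀ i ∈ S, ¬ adj x' (fl x i)) ∧
      ∀ i ∈ S, χ (fl x i) = χ (fl x' (j i))) = ∅ := by
      rw [filter_eq_empty_iff]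
      intro χ _ h
      exact h0 h.1
    rw [this]
    simp

open Classical in
theorem p1_cover {n q : ℕ} (hn : 0 < n) (χ : V n → Fin q) (h : E1f χ) :
    ∃ i ∈ (univ : Finset (V n)) ×ˢ ((univ : Finset (V n)) ×ˢ
      ((univ.filter fun S : Finset (Fin n) => n ≤ 4 * S.card).sigma fun S =>
        Fintype.piFinset fun i => if i ∈ S then (univ : Finset (Fin n)) else {⟨0, hn⟩})),
      (∀ a ∈ i.2.2.1, ¬ adj i.2.1 (fl i.1 a)) ∧
        ∀ a ∈ i.2.2.1, χ (fl i.1 a) = χ (fl i.2.1 (i.2.2.2 a)) := by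
  obtain ⟨x, x', A, ι, _, hA, hc⟩ := h
  set S : Finset (Fin n) := univ.filter fun i => fl x i ∈ A with hS
  have hcard : A.card ≤ S.card := by
    refine (card_le_card ?_).trans (card_image_le (s := S) (f := fl x))
    intro a ha
    obtain ⟨i, rfl⟩ := p1_adj_iff.1 (hA a ha).1
    exact mem_image.2 ⟨i, mem_filter.2 ⟨mem_univ _, ha⟩, rfl⟩
  have hj : ∀ i : Fin n, ∃ k : Fin n, i ∈ S → ι (fl x i) = fl x' k := by
    intro i
    by_cases hi : i ∈ S
    · obtain ⟨k, hk⟩ := p1_adj_iff.1 (hA _ (mem_filter.1 hi).2).2.2.1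
      exact ⟨k, fun _ => hk⟩
    · exact ⟨⟨0, hn⟩, fun h => absurd h hi⟩
  choose j hj using hj
  refine ⟨(x, x', ⟨S, fun i => if i ∈ S then j i else ⟨0, hn⟩⟩), ?_, ?_, ?_⟩
  · simp only [mem_product, mem_univ, true_and, mem_sigma, mem_filter]
    refine ⟨by omega, ?_⟩
    rw [Fintype.mem_piFinset]
    intro i
    by_cases hi : i ∈ S
    · simp [hi]
    · simp [hi]
  · intro a ha
    exact (hA _ (mem_filter.1 ha).2).2.1
  · intro a ha
    simp only
    rw [if_pos ha, ← hj a ha]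
    exact (hA _ (mem_filter.1 ha).2).2.2.2

theorem p1_num (ε : ℝ) (hε : 0 < ε) : ∃ n0 : ℕ, 0 < n0 ∧ ∀ n ≥ n0, ∀ q : ℕ,
    (n : ℝ) ^ (1 + ε) ≤ q → (n : ℝ) * 32 ^ 4 ≤ q := by
  refine ⟨⌈(32 : ℝ) ^ (4 / ε)⌉₊ + 1, Nat.succ_pos _, fun n hn q hq => le_trans ?_ hq⟩
  have h1 : (32 : ℝ) ^ (4 / ε) ≤ n := (Nat.le_ceil _).trans (by exact_mod_cast (by omega))
  have hn0 : (0 : ℝ) < n := by
    have : 0 < n := by omega
    exact_mod_cast this
  rw [Real.rpow_add hn0, Real.rpow_one]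
  refine mul_le_mul_of_nonneg_left ?_ hn0.le
  have h2 : ((32 : ℝ) ^ (4 / ε)) ^ ε = 32 ^ 4 := by
    rw [← Real.rpow_mul (by norm_num), div_mul_cancel₀ _ hε.ne', ← Real.rpow_natCast]
    norm_num
  rw [← h2]
  exact Real.rpow_le_rpow (Real.rpow_nonneg (by norm_num) _) h1 hε.le

open Classical in
theorem p1 (ε : ℝ) (hε : 0 < ε) : ∃ n0 : ℕ, ∀ n ≥ n0, ∀ q : ℕ, (n : ℝ) ^ (1 + ε) ≤ q →
    ((univ.filter fun χ : V n → Fin q => E1f χ).card : ℝ) ≤ (1 / 4) ^ n * (q : ℝ) ^ (2 ^ n) := by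
  obtain ⟨n0, hn0, H⟩ := p1_num ε hε
  refine ⟨n0, fun n hn q hq => ?_⟩
  have hn' : 0 < n := by omega
  have hnr : (0 : ℝ) < n := by exact_mod_cast hn'
  have hq' := H n hn q hq
  have hq0 : (0 : ℝ) < q := lt_of_lt_of_le (by positivity) hq'
  have h1 := p1_ub (univ : Finset (V n → Fin q)) _ (fun χ => E1f χ) _
    (fun χ _ h => p1_cover hn' χ h)
  have h2 : ((univ.filter fun χ : V n → Fin q => E1f χ).card : ℝ) ≤
      ∑ i ∈ (univ : Finset (V n)) ×ˢ ((univ : Finset (V n)) ×ˢ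
      ((univ.filter fun S : Finset (Fin n) => n ≤ 4 * S.card).sigma fun S =>
        Fintype.piFinset fun i => if i ∈ S then (univ : Finset (Fin n)) else {⟨0, hn'⟩})),
        (q : ℝ) ^ (2 ^ n) / (q : ℝ) ^ i.2.2.1.card := by
    refine le_trans (Nat.cast_le.2 h1) ?_
    rw [Nat.cast_sum]
    refine sum_le_sum fun i _ => ?_
    rw [le_div_iff₀ (by positivity)]
    exact_mod_cast p1_one i.1 i.2.1 i.2.2.1 i.2.2.2
  refine h2.trans ?_
  rw [sum_product]
  simp_rw [sum_product, sum_sigma]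
  have h3 : ∀ S ∈ (univ.filter fun S : Finset (Fin n) => n ≤ 4 * S.card),
      ∑ _j ∈ Fintype.piFinset fun i => if i ∈ S then (univ : Finset (Fin n)) else {⟨0, hn'⟩},
        (q : ℝ) ^ (2 ^ n) / (q : ℝ) ^ S.card ≤ (1 / 32) ^ n * (q : ℝ) ^ (2 ^ n) := by
    intro S hS
    have hS' := (mem_filter.1 hS).2
    rw [sum_const, nsmul_eq_mul, Fintype.card_piFinset]
    have hp : ∏ i : Fin n, (if i ∈ S then (univ : Finset (Fin n)) else {⟨0, hn'⟩}).card =
        n ^ S.card := by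
      have : ∀ i : Fin n, (if i ∈ S then (univ : Finset (Fin n)) else {⟨0, hn'⟩}).card =
          if i ∈ S then n else 1 := by
        intro i
        split_ifs <;> simp
      rw [prod_congr rfl fun i _ => this i, prod_ite]
      simp
    rw [hp]
    push_cast
    have h4 : (n : ℝ) ^ S.card * ((q : ℝ) ^ (2 ^ n) / (q : ℝ) ^ S.card) =
        ((n : ℝ) / q) ^ S.card * (q : ℝ) ^ (2 ^ n) := by
      rw [div_pow]; ring
    rw [h4]
    refine mul_le_mul_of_nonneg_right ?_ (by positivity)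
    have h5 : (n : ℝ) / q ≤ (1 / 32) ^ 4 := by
      rw [div_le_iff₀ hq0]
      have : (n : ℝ) * 32 ^ 4 * (1 / 32) ^ 4 = n := by ring
      nlinarith
    calc ((n : ℝ) / q) ^ S.card ≤ ((1 / 32 : ℝ) ^ 4) ^ S.card :=
          pow_le_pow_left₀ (by positivity) h5 _
      _ = (1 / 32 : ℝ) ^ (4 * S.card) := (pow_mul _ _ _).symm
      _ ≤ (1 / 32 : ℝ) ^ n := pow_le_pow_of_le_one (by norm_num) (by norm_num) hS'
  have h6 : ∑ S ∈ (univ.filter fun S : Finset (Fin n) => n ≤ 4 * S.card),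
      ∑ _j ∈ Fintype.piFinset fun i => if i ∈ S then (univ : Finset (Fin n)) else {⟨0, hn'⟩},
        (q : ℝ) ^ (2 ^ n) / (q : ℝ) ^ S.card ≤ 2 ^ n * ((1 / 32) ^ n * (q : ℝ) ^ (2 ^ n)) := by
    refine (sum_le_sum h3).trans ?_
    rw [sum_const, nsmul_eq_mul]
    refine mul_le_mul_of_nonneg_right ?_ (by positivity)
    have : (univ.filter fun S : Finset (Fin n) => n ≤ 4 * S.card).card ≤ 2 ^ n := by
      refine (card_filter_le _ _).trans ?_
      simp
    exact_mod_cast this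
  refine (sum_le_sum fun x _ => sum_le_sum fun y _ => h6).trans ?_
  rw [sum_const, sum_const, nsmul_eq_mul, nsmul_eq_mul]
  have hcv : ((univ : Finset (V n)).card : ℝ) = 2 ^ n := by
    simp
  rw [hcv]
  have : (2 : ℝ) ^ n * (2 ^ n * (2 ^ n * ((1 / 32) ^ n * (q : ℝ) ^ (2 ^ n)))) =
      ((2 * (2 * (2 * (1 / 32)))) ^ n) * (q : ℝ) ^ (2 ^ n) := by
    rw [mul_pow, mul_pow, mul_pow]; ring
  rw [this]
  norm_num

end Pool.Agent.SH
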