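import Pool.Agent.SH.Pr

set_option autoImplicit false

namespace Pool.Agent.SH

open Finset

theorem p2_num (ε : ℝ) (hε : 0 < ε) : ∃ n0 : ℕ, 1 ≤ n0 ∧ ∀ n : ℕ, n0 ≤ n →
    (4 : ℝ) ^ n * ((n : ℝ) ^ n) ^ 2 * 2 ^ (n ^ 2) *
      Real.exp (-(ε / 64 * (n : ℝ) ^ 2 * Real.log n)) ≤ (1 / 4) ^ n := by
  refine ⟨max 1 (max ⌈256 / ε⌉₊ ⌈Real.exp (512 / ε)⌉₊), le_max_left _ _, ?_⟩
  intro n hn
  have h1 : 1 ≤ n := (le_max_left _ _).trans hn
  have h2 : 256 / ε ≤ n := by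
    refine (Nat.le_ceil _).trans ?_
    exact_mod_cast (le_max_left _ _).trans ((le_max_right _ _).trans hn)
  have h3 : Real.exp (512 / ε) ≤ n := by
    refine (Nat.le_ceil _).trans ?_
    exact_mod_cast (le_max_right _ _).trans ((le_max_right _ _).trans hn)
  have hn0 : (0 : ℝ) < n := by exact_mod_cast h1
  have hn1 : (1 : ℝ) ≤ n := by exact_mod_cast h1
  have hL : 512 / ε ≤ Real.log n := (Real.le_log_iff_exp_le hn0).2 h3
  have hL0 : 0 ≤ Real.log n := le_trans (by positivity) hL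
  set L := Real.log n with hLdef
  have hL' : 512 ≤ ε * L := by
    have := (div_le_iff₀ hε).1 hL
    linarith [mul_comm L ε]
  have hn' : 256 ≤ ε * n := by
    have := (div_le_iff₀ hε).1 h2
    linarith [mul_comm (n : ℝ) ε]
  have e4 : (4 : ℝ) ^ n = Real.exp (n * Real.log 4) := by
    rw [Real.exp_nat_mul, Real.exp_log (by norm_num)]
  have e4' : ((1 : ℝ) / 4) ^ n = Real.exp (-(n * Real.log 4)) := by
    rw [one_div, inv_pow, e4, Real.exp_neg]
  have en : (n : ℝ) ^ n = Real.exp (n * L) := by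
    rw [Real.exp_nat_mul, hLdef, Real.exp_log hn0]
  have e2 : (2 : ℝ) ^ (n ^ 2) = Real.exp ((n : ℝ) ^ 2 * Real.log 2) := by
    have : ((n : ℝ) ^ 2 * Real.log 2) = ((n ^ 2 : ℕ) : ℝ) * Real.log 2 := by push_cast; ring
    rw [this, Real.exp_nat_mul, Real.exp_log (by norm_num)]
  rw [e4', e4, en, e2, ← Real.exp_nat_mul, ← Real.exp_add, ← Real.exp_add, ← Real.exp_add]
  apply Real.exp_le_exp.2
  have hl2 : Real.log 2 ≤ 1 := by linarith [Real.log_two_lt_d9]
  have hl4 : Real.log 4 ≤ 1.5 := by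
    have : Real.log 4 = 2 * Real.log 2 := by
      rw [show (4 : ℝ) = 2 ^ 2 by norm_num, Real.log_pow]
      push_cast
      ring
    linarith [Real.log_two_lt_d9]
  have a1 : (n : ℝ) * Real.log 4 ≤ 1.5 * (n : ℝ) ^ 2 := by nlinarith
  have a2 : (n : ℝ) ^ 2 * Real.log 2 ≤ (n : ℝ) ^ 2 := by nlinarith [sq_nonneg (n : ℝ)]
  have a3 : 4 * (n : ℝ) ^ 2 ≤ ε / 128 * (n : ℝ) ^ 2 * L := by
    have := mul_le_mul_of_nonneg_left hL' (sq_nonneg (n : ℝ))
    nlinarith
  have a4 : 2 * (n * L) ≤ ε / 128 * (n : ℝ) ^ 2 * L := by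
    have := mul_le_mul_of_nonneg_left hn' (mul_nonneg hn0.le hL0)
    nlinarith
  push_cast
  nlinarith

theorem p2_pow (ε : ℝ) (hε : 0 < ε) (n q m : ℕ) (hn : 1 ≤ n) (hq : (n : ℝ) ^ (1 + ε) ≤ q)
    (hm : n ^ 2 ≤ 64 * m) :
    ((n : ℝ) / q) ^ m ≤ Real.exp (-(ε / 64 * (n : ℝ) ^ 2 * Real.log n)) := by
  have hn0 : (0 : ℝ) < n := by exact_mod_cast hn
  have hL0 : 0 ≤ Real.log n := Real.log_nonneg (by exact_mod_cast hn)
  have hq0 : (0 : ℝ) < q := lt_of_lt_of_le (Real.rpow_pos_of_pos hn0 _) hq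
  have h1 : (n : ℝ) / q ≤ Real.exp (-(ε * Real.log n)) := by
    rw [div_le_iff₀ hq0]
    have h2 : (n : ℝ) ^ (1 + ε) = n * Real.exp (ε * Real.log n) := by
      rw [Real.rpow_add hn0, Real.rpow_one, Real.rpow_def_of_pos hn0, mul_comm (Real.log _) ε]
    have h3 : (n : ℝ) = Real.exp (-(ε * Real.log n)) * (n : ℝ) ^ (1 + ε) := by
      rw [h2, mul_left_comm, ← Real.exp_add, neg_add_cancel, Real.exp_zero, mul_one]
    calc (n : ℝ) = Real.exp (-(ε * Real.log n)) * (n : ℝ) ^ (1 + ε) := h3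
      _ ≤ _ := mul_le_mul_of_nonneg_left hq (Real.exp_pos _).le
  calc ((n : ℝ) / q) ^ m ≤ (Real.exp (-(ε * Real.log n))) ^ m :=
        pow_le_pow_left₀ (by positivity) h1 m
    _ = Real.exp (m * (-(ε * Real.log n))) := by rw [Real.exp_nat_mul]
    _ ≤ _ := by
        apply Real.exp_le_exp.2
        have hm' : (n : ℝ) ^ 2 ≤ 64 * m := by exact_mod_cast hm
        have := mul_le_mul_of_nonneg_left hm' (mul_nonneg hε.le hL0)
        nlinarith

open Classical in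
theorem p2_fix {n q : ℕ} (hq : 0 < q) (R : Finset (Fin n × Fin n))
    (s : Fin n × Fin n → V n) (Z : Fin n × Fin n → Fin n → V n) (hs : ∀ r ∈ R, ∀ r' ∈ R, s r = s r' → r = r') :
    ((univ.filter fun χ : V n → Fin q => ∃ z : Fin n × Fin n → Fin n,
      (∀ r ∈ R, ∀ r' ∈ R, Z r (z r) ≠ s r') ∧ ∀ r ∈ R, χ (s r) = χ (Z r (z r))).card : ℝ)
      ≤ ((n : ℝ) / q) ^ R.card * (q : ℝ) ^ (2 ^ n) := by
  have hq0 : (0 : ℝ) < q := by exact_mod_cast hq
  set G : ({r // r ∈ R} → Fin n) → Finset (V n → Fin q) := fun w =>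
    univ.filter fun χ : V n → Fin q =>
      (∀ r r' : {r // r ∈ R}, Z r.1 (w r) ≠ s r'.1) ∧
        ∀ r : {r // r ∈ R}, χ (s r.1) = χ (Z r.1 (w r)) with hG
  have hsub : (univ.filter fun χ : V n → Fin q => ∃ z : Fin n × Fin n → Fin n,
      (∀ r ∈ R, ∀ r' ∈ R, Z r (z r) ≠ s r') ∧ ∀ r ∈ R, χ (s r) = χ (Z r (z r))) ⊆
      (univ : Finset ({r // r ∈ R} → Fin n)).biUnion G := by
    intro χ hχ
    simp only [mem_filter, mem_univ, true_and] at hχ
    obtain ⟨z, h1, h2⟩ := hχ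
    rw [Finset.mem_biUnion]
    refine ⟨fun r => z r.1, mem_univ _, ?_⟩
    simp only [hG, mem_filter, mem_univ, true_and]
    exact ⟨fun r r' => h1 r.1 r.2 r'.1 r'.2, fun r => h2 r.1 r.2⟩
  have hGc : ∀ w, ((G w).card : ℝ) * (q : ℝ) ^ R.card ≤ (q : ℝ) ^ (2 ^ n) := by
    intro w
    by_cases hw : ∀ r r' : {r // r ∈ R}, Z r.1 (w r) ≠ s r'.1
    · set g : V n → V n := fun a =>
        if h : ∃ r : {r // r ∈ R}, s r.1 = a then Z h.choose.1 (w h.choose) else a with hg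
      have hgr : ∀ r : {r // r ∈ R}, g (s r.1) = Z r.1 (w r) := by
        intro r
        have hex : ∃ r' : {r // r ∈ R}, s r'.1 = s r.1 := ⟨r, rfl⟩
        have hch : hex.choose = r :=
          Subtype.ext (hs _ hex.choose.2 _ r.2 hex.choose_spec)
        simp only [hg, dif_pos hex]
        rw [hch]
      have hA := pr (q := q) (R.image s) g (by
        intro a ha
        rw [Finset.mem_image] at ha
        obtain ⟨r, hr, rfl⟩ := ha
        rw [hgr ⟨r, hr⟩]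
        intro hm
        rw [Finset.mem_image] at hm
        obtain ⟨r', hr', he⟩ := hm
        exact hw ⟨r, hr⟩ ⟨r', hr'⟩ he.symm)
      have hc : (R.image s).card = R.card :=
        Finset.card_image_of_injOn fun r hr r' hr' he => hs r hr r' hr' he
      rw [hc] at hA
      have hsub' : G w ⊆ univ.filter fun χ : V n → Fin q => ∀ a ∈ R.image s, χ a = χ (g a) := by
        intro χ hχ
        simp only [hG, mem_filter, mem_univ, true_and] at hχ ⊢
        intro a ha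
        rw [Finset.mem_image] at ha
        obtain ⟨r, hr, rfl⟩ := ha
        rw [hgr ⟨r, hr⟩]
        exact hχ.2 ⟨r, hr⟩
      have h1 : (G w).card * q ^ R.card ≤ q ^ (2 ^ n) :=
        (Nat.mul_le_mul_right _ (Finset.card_le_card hsub')).trans (by convert hA)
      exact_mod_cast h1
    · have : G w = ∅ := by
        apply Finset.filter_eq_empty_iff.2
        intro χ _ h
        exact hw h.1
      rw [this, Finset.card_empty, Nat.cast_zero, zero_mul]
      positivity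
  have hcard : ((univ : Finset ({r // r ∈ R} → Fin n)).card : ℝ) = (n : ℝ) ^ R.card := by
    rw [Finset.card_univ, Fintype.card_fun, Fintype.card_fin, Fintype.card_coe]
    push_cast
    rfl
  calc _ ≤ (((univ : Finset ({r // r ∈ R} → Fin n)).biUnion G).card : ℝ) := by
          exact_mod_cast Finset.card_le_card hsub
    _ ≤ ∑ w : ({r // r ∈ R} → Fin n), ((G w).card : ℝ) := by
          exact_mod_cast Finset.card_biUnion_le
    _ ≤ ∑ _w : ({r // r ∈ R} → Fin n), (q : ℝ) ^ (2 ^ n) / (q : ℝ) ^ R.card := by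
          apply Finset.sum_le_sum
          intro w _
          rw [le_div_iff₀ (by positivity)]
          exact hGc w
    _ = ((n : ℝ) / q) ^ R.card * (q : ℝ) ^ (2 ^ n) := by
          rw [Finset.sum_const, nsmul_eq_mul, hcard, div_pow]
          ring

theorem p2_card (n : ℕ) : (((univ : Finset (V n × V n × (Fin n → Fin n) × (Fin n → Fin n) ×
    Finset (Fin n × Fin n))).card : ℕ) : ℝ) = (4 : ℝ) ^ n * ((n : ℝ) ^ n) ^ 2 * 2 ^ (n ^ 2) := by
  have h : (univ : Finset (V n × V n × (Fin n → Fin n) × (Fin n → Fin n) ×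
      Finset (Fin n × Fin n))).card = 2 ^ n * (2 ^ n * (n ^ n * (n ^ n * 2 ^ (n * n)))) := by
    rw [Finset.card_univ, Fintype.card_prod, Fintype.card_prod, Fintype.card_prod,
      Fintype.card_prod, Fintype.card_finset, Fintype.card_finset, Fintype.card_fun,
      Fintype.card_prod, Fintype.card_fin]
  rw [h]
  push_cast
  rw [show (4 : ℝ) = 2 * 2 by norm_num, mul_pow, pow_two n]
  ring

open Classical in
theorem p2 (ε : ℝ) (hε : 0 < ε) : ∃ n0 : ℕ, ∀ n ≥ n0, ∀ q : ℕ, (n : ℝ) ^ (1 + ε) ≤ q →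
    ((univ.filter fun χ : V n → Fin q => E2f χ).card : ℝ) ≤ (1 / 4) ^ n * (q : ℝ) ^ (2 ^ n) := by
  obtain ⟨n0, hn0, hnum⟩ := p2_num ε hε
  refine ⟨n0, ?_⟩
  intro n hn q hq
  have hn1 : 1 ≤ n := hn0.trans hn
  have hnr : (0 : ℝ) < n := by exact_mod_cast hn1
  have hq0 : (0 : ℝ) < q := lt_of_lt_of_le (Real.rpow_pos_of_pos hnr _) hq
  have hqn : 0 < q := by exact_mod_cast hq0
  set K := V n × V n × (Fin n → Fin n) × (Fin n → Fin n) × Finset (Fin n × Fin n) with hK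
  set s : K → Fin n × Fin n → V n := fun κ r => fl (fl κ.2.1 (κ.2.2.2.1 r.1)) (κ.2.2.2.1 r.2)
    with hs
  set Z : K → Fin n × Fin n → Fin n → V n := fun κ r i =>
    fl (fl (fl κ.1 (κ.2.2.1 r.1)) (κ.2.2.1 r.2)) i with hZ
  set E : K → Finset (V n → Fin q) := fun κ => univ.filter fun χ : V n → Fin q =>
    ∃ z : Fin n × Fin n → Fin n,
      (∀ r ∈ κ.2.2.2.2, ∀ r' ∈ κ.2.2.2.2, Z κ r (z r) ≠ s κ r') ∧
        ∀ r ∈ κ.2.2.2.2, χ (s κ r) = χ (Z κ r (z r)) with hE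
  set P : K → Prop := fun κ => n ^ 2 ≤ 64 * κ.2.2.2.2.card ∧
    ∀ r ∈ κ.2.2.2.2, ∀ r' ∈ κ.2.2.2.2, s κ r = s κ r' → r = r' with hP
  set W : ℝ := Real.exp (-(ε / 64 * (n : ℝ) ^ 2 * Real.log n)) * (q : ℝ) ^ (2 ^ n) with hW
  have hW0 : 0 ≤ W := by positivity
  have hsub : (univ.filter fun χ : V n → Fin q => E2f χ) ⊆
      ((univ : Finset K).filter P).biUnion E := by
    intro χ hχ
    simp only [mem_filter, mem_univ, true_and] at hχ
    obtain ⟨y0, y1, f, h, R, z, h1, h2, h3, h4⟩ := hχ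
    rw [Finset.mem_biUnion]
    refine ⟨(y0, y1, f, h, R), ?_, ?_⟩
    · rw [Finset.mem_filter]
      exact ⟨mem_univ _, h1, h2⟩
    · simp only [hE, mem_filter, mem_univ, true_and]
      exact ⟨z, h3, h4⟩
  have hEc : ∀ κ ∈ (univ : Finset K).filter P, ((E κ).card : ℝ) ≤ W := by
    intro κ hκ
    rw [Finset.mem_filter] at hκ
    obtain ⟨_, hκ1, hκ2⟩ := hκ
    have h1 := p2_fix hqn κ.2.2.2.2 (s κ) (Z κ) hκ2
    refine h1.trans ?_
    exact mul_le_mul_of_nonneg_right (p2_pow ε hε n q _ hn1 hq hκ1) (by positivity)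
  have hKc : (((univ : Finset K).filter P).card : ℝ) ≤
      (4 : ℝ) ^ n * ((n : ℝ) ^ n) ^ 2 * 2 ^ (n ^ 2) := by
    have h1 : ((univ : Finset K).filter P).card ≤ (univ : Finset K).card :=
      Finset.card_filter_le _ _
    have h2 : ((univ : Finset K).card : ℝ) = (4 : ℝ) ^ n * ((n : ℝ) ^ n) ^ 2 * 2 ^ (n ^ 2) := by
      exact p2_card n
    rw [← h2]
    exact_mod_cast h1
  calc _ ≤ ((((univ : Finset K).filter P).biUnion E).card : ℝ) := by
          exact_mod_cast Finset.card_le_card hsub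
    _ ≤ ∑ κ ∈ (univ : Finset K).filter P, ((E κ).card : ℝ) := by
          exact_mod_cast Finset.card_biUnion_le
    _ ≤ ∑ _κ ∈ (univ : Finset K).filter P, W := Finset.sum_le_sum hEc
    _ = (((univ : Finset K).filter P).card : ℝ) * W := by
          rw [Finset.sum_const, nsmul_eq_mul]
    _ ≤ ((4 : ℝ) ^ n * ((n : ℝ) ^ n) ^ 2 * 2 ^ (n ^ 2)) * W :=
          mul_le_mul_of_nonneg_right hKc hW0
    _ = ((4 : ℝ) ^ n * ((n : ℝ) ^ n) ^ 2 * 2 ^ (n ^ 2) *
          Real.exp (-(ε / 64 * (n : ℝ) ^ 2 * Real.log n))) * (q : ℝ) ^ (2 ^ n) := by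
          rw [hW]; ring
    _ ≤ (1 / 4) ^ n * (q : ℝ) ^ (2 ^ n) :=
          mul_le_mul_of_nonneg_right (hnum n hn) (by positivity)

end Pool.Agent.SH
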