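import Pool.Agent.SH.P3a

set_option autoImplicit false

namespace Pool.Agent.SH

open Finset

theorem p3_tend (k : ℕ) (ε : ℝ) (hε : 0 < ε) (hkε : 2 ≤ k * ε) (Z : ℝ) (hZ : 0 < Z) :
    ∃ n1 : ℕ, ∀ n ≥ n1, ∀ q : ℕ, (n : ℝ) ^ (1 + ε) ≤ q →
      (n : ℝ) ^ (k + 1) / (q : ℝ) ^ k + 2 * ((k : ℝ) + 1) ^ 3 * n / q ≤ Z := by
  have h1 : Filter.Tendsto (fun n : ℕ => (n : ℝ) ^ (-(1 : ℝ))) Filter.atTop (nhds 0) :=
    (tendsto_rpow_neg_atTop (by norm_num : (0 : ℝ) < 1)).comp tendsto_natCast_atTop_atTop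
  have h2 : Filter.Tendsto (fun n : ℕ => (n : ℝ) ^ (-ε)) Filter.atTop (nhds 0) :=
    (tendsto_rpow_neg_atTop hε).comp tendsto_natCast_atTop_atTop
  have h3 : Filter.Tendsto (fun n : ℕ => (n : ℝ) ^ (-(1 : ℝ)) +
      2 * ((k : ℝ) + 1) ^ 3 * (n : ℝ) ^ (-ε)) Filter.atTop (nhds (0 + 2 * ((k : ℝ) + 1) ^ 3 * 0)) :=
    h1.add (h2.const_mul _)
  rw [mul_zero, add_zero] at h3
  have h4 := h3.eventually (gt_mem_nhds hZ)
  obtain ⟨n1, hn1⟩ := Filter.eventually_atTop.1 h4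
  refine ⟨max n1 1, fun n hn q hq => ?_⟩
  have hna : n1 ≤ n := le_trans (le_max_left _ _) hn
  have hnb : 1 ≤ n := le_trans (le_max_right _ _) hn
  have hn1' : (1 : ℝ) ≤ n := by exact_mod_cast hnb
  have hn0 : (0 : ℝ) < n := by linarith
  have hp : (0 : ℝ) < (n : ℝ) ^ (1 + ε) := Real.rpow_pos_of_pos hn0 _
  have hq0 : (0 : ℝ) < q := lt_of_lt_of_le hp hq
  have a1 : (n : ℝ) ^ (k + 1) / (q : ℝ) ^ k ≤ (n : ℝ) ^ (-(1 : ℝ)) := by
    rw [div_le_iff₀ (by positivity)]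
    have h5 : ((n : ℝ) ^ (1 + ε)) ^ k ≤ (q : ℝ) ^ k := pow_le_pow_left₀ hp.le hq k
    have e : ((n : ℝ) ^ (1 + ε)) ^ k = (n : ℝ) ^ ((1 + ε) * k) := by
      rw [← Real.rpow_natCast, ← Real.rpow_mul hn0.le]
    have e2 : (n : ℝ) ^ (k + 1) = (n : ℝ) ^ ((k : ℝ) + 1) := by
      rw [← Real.rpow_natCast]
      push_cast
      rfl
    rw [e2]
    calc (n : ℝ) ^ ((k : ℝ) + 1) ≤ (n : ℝ) ^ (-(1 : ℝ) + (1 + ε) * k) :=
          Real.rpow_le_rpow_of_exponent_le hn1' (by nlinarith)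
      _ = (n : ℝ) ^ (-(1 : ℝ)) * (n : ℝ) ^ ((1 + ε) * k) := Real.rpow_add hn0 _ _
      _ ≤ (n : ℝ) ^ (-(1 : ℝ)) * (q : ℝ) ^ k := by
          rw [← e]
          exact mul_le_mul_of_nonneg_left h5 (Real.rpow_pos_of_pos hn0 _).le
  have a2 : 2 * ((k : ℝ) + 1) ^ 3 * n / q ≤ 2 * ((k : ℝ) + 1) ^ 3 * (n : ℝ) ^ (-ε) := by
    rw [mul_div_assoc]
    refine mul_le_mul_of_nonneg_left ?_ (by positivity)
    rw [div_le_iff₀ hq0]
    calc (n : ℝ) = (n : ℝ) ^ (-ε) * (n : ℝ) ^ (1 + ε) := by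
          rw [← Real.rpow_add hn0]
          ring_nf
          exact (Real.rpow_one _).symm
      _ ≤ (n : ℝ) ^ (-ε) * q := mul_le_mul_of_nonneg_left hq (Real.rpow_pos_of_pos hn0 _).le
  have h6 := hn1 n hna
  linarith

theorem p3_num (k n : ℕ) (hn : 2 * k ≤ n) (c : ℝ) (hc : 0 < c) :
    (2 : ℝ) ^ (n * n.choose k) * 2 ^ (n.choose (k + 1)) *
      ((2 : ℝ) ^ (-(8 * ((k : ℝ) + 1) / c))) ^ (c * (n.choose (k + 1) : ℝ)) ≤ (1 / 4) ^ n := by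
  have hM : 1 ≤ n.choose k := Nat.choose_pos (by omega)
  have hE := Nat.choose_succ_right_eq n k
  have hA : n * n.choose k ≤ 2 * (n.choose (k + 1) * (k + 1)) := by
    rw [hE]
    calc n * n.choose k ≤ (2 * (n - k)) * n.choose k := Nat.mul_le_mul_right _ (by omega)
      _ = 2 * (n.choose k * (n - k)) := by ring
  have hB : n.choose (k + 1) ≤ n * n.choose k := by
    calc n.choose (k + 1) ≤ n.choose (k + 1) * (k + 1) := Nat.le_mul_of_pos_right _ (by omega)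
      _ = n.choose k * (n - k) := hE
      _ ≤ n.choose k * n := Nat.mul_le_mul_left _ (by omega)
      _ = n * n.choose k := by ring
  have hC : n ≤ n * n.choose k := Nat.le_mul_of_pos_right _ hM
  have hA' : (n : ℝ) * n.choose k ≤ 2 * (n.choose (k + 1) * ((k : ℝ) + 1)) := by exact_mod_cast hA
  have hB' : (n.choose (k + 1) : ℝ) ≤ (n : ℝ) * n.choose k := by exact_mod_cast hB
  have hC' : (n : ℝ) ≤ (n : ℝ) * n.choose k := by exact_mod_cast hC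
  have e1 : (2 : ℝ) ^ (n * n.choose k) = (2 : ℝ) ^ ((n : ℝ) * n.choose k) := by
    rw [← Real.rpow_natCast]
    push_cast
    rfl
  have e2 : (2 : ℝ) ^ (n.choose (k + 1)) = (2 : ℝ) ^ ((n.choose (k + 1) : ℝ)) := by
    rw [← Real.rpow_natCast]
  have e3 : ((2 : ℝ) ^ (-(8 * ((k : ℝ) + 1) / c))) ^ (c * (n.choose (k + 1) : ℝ)) =
      (2 : ℝ) ^ (-(8 * ((k : ℝ) + 1) * n.choose (k + 1))) := by
    rw [← Real.rpow_mul (by norm_num)]
    congr 1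
    field_simp
  have e4 : ((1 : ℝ) / 4) ^ n = (2 : ℝ) ^ (-(2 * (n : ℝ))) := by
    rw [Real.rpow_neg (by norm_num), Real.rpow_mul (by norm_num), Real.rpow_natCast, one_div, inv_pow]
    norm_num
  rw [e1, e2, e3, e4, ← Real.rpow_add (by norm_num), ← Real.rpow_add (by norm_num)]
  refine Real.rpow_le_rpow_of_exponent_le (by norm_num) ?_
  nlinarith

open Classical in
theorem p3 (k : ℕ) (hk : 1 ≤ k) (c : ℝ) (hc : 0 < c) (ε : ℝ) (hε : 0 < ε) (hkε : 2 ≤ k * ε) :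
    ∃ n0 : ℕ, ∀ n ≥ n0, ∀ q : ℕ, (n : ℝ) ^ (1 + ε) ≤ q →
    ((univ.filter fun χ : V n → Fin q => Code3 k c χ).card : ℝ) ≤
      (1 / 4) ^ n * (q : ℝ) ^ (2 ^ n) := by
  obtain ⟨n1, h1⟩ := p3_tend k ε hε hkε ((2 : ℝ) ^ (-(8 * ((k : ℝ) + 1) / c))) (by positivity)
  refine ⟨max n1 (max (2 * k) 1), fun n hn q hq => ?_⟩
  have ha : n1 ≤ n := le_trans (le_max_left _ _) hn
  have hb : 2 * k ≤ n := le_trans (le_trans (le_max_left _ _) (le_max_right _ _)) hn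
  have hb1 : 1 ≤ n := le_trans (le_trans (le_max_right _ _) (le_max_right _ _)) hn
  have hn0 : (0 : ℝ) < n := by exact_mod_cast hb1
  have hq0 : 0 < q := by
    have : (0 : ℝ) < q := lt_of_lt_of_le (Real.rpow_pos_of_pos hn0 _) hq
    exact_mod_cast this
  have hZ1 : (2 : ℝ) ^ (-(8 * ((k : ℝ) + 1) / c)) ≤ 1 := by
    apply Real.rpow_le_one_of_one_le_of_nonpos (by norm_num)
    have : 0 ≤ 8 * ((k : ℝ) + 1) / c := by positivity
    linarith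
  have h2 := p3a (n := n) k hk hq0 c hc _ (h1 n ha q hq) hZ1
  refine h2.trans ?_
  rw [mul_comm]
  exact mul_le_mul_of_nonneg_right (p3_num k n hb c hc) (by positivity)

end Pool.Agent.SH
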