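import Pool.Agent.SH.Cb
import Pool.Agent.SH.Sel

set_option autoImplicit false

namespace Pool.Agent.SH

open Finset

theorem xa_pair {n : ℕ} (u : V n) {a c : Fin n} (h : a ≠ c) :
    fl (fl u a) c = symmDiff u {a, c} := by
  unfold fl
  rw [symmDiff_assoc]
  congr 1
  ext i
  simp only [mem_symmDiff, mem_singleton, mem_insert]
  constructor
  · rintro (⟨h1, _⟩ | ⟨h1, _⟩)
    · exact Or.inl h1
    · exact Or.inr h1
  · rintro (h1 | h1)
    · left
      exact ⟨h1, fun h2 => h (h1.symm.trans h2)⟩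
    · right
      exact ⟨h1, fun h2 => h (h2.symm.trans h1)⟩

theorem xa_pair_inj {n : ℕ} (u : V n) {a c a' c' : Fin n} (h : a < c) (h' : a' < c')
    (he : fl (fl u a) c = fl (fl u a') c') : a = a' ∧ c = c' := by
  rw [xa_pair u h.ne, xa_pair u h'.ne] at he
  have h1 : ({a, c} : Finset (Fin n)) = {a', c'} := symmDiff_right_injective u he
  have ha : a ∈ ({a', c'} : Finset (Fin n)) := by rw [← h1]; simp
  have hc : c ∈ ({a', c'} : Finset (Fin n)) := by rw [← h1]; simp
  have ha' : a' ∈ ({a, c} : Finset (Fin n)) := by rw [h1]; simp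
  have hc' : c' ∈ ({a, c} : Finset (Fin n)) := by rw [h1]; simp
  simp only [mem_insert, mem_singleton] at ha hc ha' hc'
  rcases ha with rfl | rfl
  · refine ⟨rfl, ?_⟩
    rcases hc with rfl | rfl
    · exact absurd h (lt_irrefl _)
    · rfl
  · exfalso
    rcases ha' with rfl | rfl
    · exact absurd h' (lt_irrefl _)
    · exact absurd (h.trans h') (lt_irrefl _)

/-- Step (1). -/
theorem xa_D {n : ℕ} (σ : Equiv.Perm (V n)) (x : V n) (b : Fin n)
    (hx : ¬ adj (σ x) (σ (fl x b))) :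
    (univ.filter fun a : Fin n => a ≠ b ∧ adj (σ (fl x a)) (σ (fl (fl x a) b))).card ≤
      dfc σ x + dfc σ (fl x b) + 3 := by
  classical
  have hsub : (univ.filter fun a : Fin n => a ≠ b ∧ adj (σ (fl x a)) (σ (fl (fl x a) b))) ⊆
      ((univ.filter fun a : Fin n => ¬ adj (σ x) (σ (fl x a))) ∪
        (univ.filter fun a : Fin n => ¬ adj (σ (fl x b)) (σ (fl (fl x b) a)))) ∪
        (univ.filter fun a : Fin n => adj (σ x) (σ (fl x a)) ∧
          adj (σ (fl x b)) (σ (fl (fl x b) a)) ∧ adj (σ (fl x a)) (σ (fl (fl x a) b))) := by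
    intro a ha
    simp only [mem_filter, mem_univ, true_and, mem_union] at ha ⊢
    tauto
  have h3 : (univ.filter fun a : Fin n => adj (σ x) (σ (fl x a)) ∧
      adj (σ (fl x b)) (σ (fl (fl x b) a)) ∧ adj (σ (fl x a)) (σ (fl (fl x a) b))).card ≤ 3 := by
    refine le_trans ?_ (three hx)
    refine card_le_card_of_injOn (fun a => σ (fl x a)) ?_ ?_
    · intro a ha
      have ha' := (mem_filter.1 (mem_coe.1 ha)).2
      refine mem_coe.2 (mem_filter.2 ⟨mem_univ _, ha'.1, σ (fl (fl x b) a), ha'.2.1, ?_⟩)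
      rw [fl_comm x b a]
      exact ha'.2.2
    · intro a _ a' _ h
      exact fl_inj.1 (σ.injective h)
  refine (card_le_card hsub).trans ((card_union_le _ _).trans ?_)
  refine add_le_add ((card_union_le _ _).trans ?_) h3
  exact le_refl _

/-- Counting pairs by rows. -/
theorem xa_rows {n : ℕ} (P : Fin n → Fin n → Prop) [∀ a c, Decidable (P a c)] (N : ℕ)
    (h : ∀ a, (univ.filter fun c : Fin n => P a c).card ≤ N) :
    ((univ : Finset (Fin n × Fin n)).filter fun p => P p.1 p.2).card ≤ n * N := by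
  classical
  have h1 : ((univ : Finset (Fin n × Fin n)).filter fun p => P p.1 p.2).card =
      ∑ a : Fin n, (univ.filter fun c : Fin n => P a c).card := by
    rw [← univ_product_univ, card_filter, sum_product]
    refine sum_congr rfl fun a _ => ?_
    rw [card_filter]
  rw [h1]
  calc _ ≤ ∑ _a : Fin n, N := sum_le_sum fun a _ => h a
    _ = n * N := by simp

theorem xa_cols {n : ℕ} (P : Fin n → Fin n → Prop) [∀ a c, Decidable (P a c)] (N : ℕ)
    (h : ∀ c, (univ.filter fun a : Fin n => P a c).card ≤ N) :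
    ((univ : Finset (Fin n × Fin n)).filter fun p => P p.1 p.2).card ≤ n * N := by
  classical
  refine le_trans (card_le_card_of_injOn (fun p : Fin n × Fin n => (p.2, p.1)) ?_ ?_)
    (xa_rows (fun a c => P c a) N h)
  · intro p hp
    have hp' := (mem_filter.1 (mem_coe.1 hp)).2
    exact mem_coe.2 (mem_filter.2 ⟨mem_univ _, hp'⟩)
  · rintro ⟨a, c⟩ _ ⟨a', c'⟩ _ h
    simp only [Prod.mk.injEq] at h ⊢
    exact ⟨h.2, h.1⟩

theorem xa_lt_card {n : ℕ} :
    n * n ≤ 2 * ((univ : Finset (Fin n × Fin n)).filter fun p => p.1 < p.2).card + n := by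
  classical
  have h1 : (univ : Finset (Fin n × Fin n)) =
      ((univ.filter fun p : Fin n × Fin n => p.1 < p.2) ∪
        (univ.filter fun p : Fin n × Fin n => p.2 < p.1)) ∪
        (univ.filter fun p : Fin n × Fin n => p.1 = p.2) := by
    ext p
    simp only [mem_union, mem_filter, mem_univ, true_and, true_iff]
    rcases lt_trichotomy p.1 p.2 with h | h | h
    · exact Or.inl (Or.inl h)
    · exact Or.inr h
    · exact Or.inl (Or.inr h)
  have h2 : (univ.filter fun p : Fin n × Fin n => p.2 < p.1).card ≤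
      (univ.filter fun p : Fin n × Fin n => p.1 < p.2).card := by
    refine card_le_card_of_injOn (fun p : Fin n × Fin n => (p.2, p.1)) ?_ ?_
    · intro p hp
      have hp' := (mem_filter.1 (mem_coe.1 hp)).2
      exact mem_coe.2 (mem_filter.2 ⟨mem_univ _, hp'⟩)
    · rintro ⟨a, c⟩ _ ⟨a', c'⟩ _ h
      simp only [Prod.mk.injEq] at h ⊢
      exact ⟨h.2, h.1⟩
  have h3 : (univ.filter fun p : Fin n × Fin n => p.1 = p.2).card ≤ n := by
    have h4 := xa_rows (n := n) (fun a c => a = c) 1 (fun a => by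
      rw [card_le_one]
      intro c hc c' hc'
      rw [← (mem_filter.1 hc).2, ← (mem_filter.1 hc').2])
    simpa using h4
  have h5 : (univ : Finset (Fin n × Fin n)).card = n * n := by simp
  have h6 := (card_union_le ((univ.filter fun p : Fin n × Fin n => p.1 < p.2) ∪
    (univ.filter fun p : Fin n × Fin n => p.2 < p.1))
    (univ.filter fun p : Fin n × Fin n => p.1 = p.2))
  rw [← h1, h5] at h6
  have h7 := card_union_le (univ.filter fun p : Fin n × Fin n => p.1 < p.2)
    (univ.filter fun p : Fin n × Fin n => p.2 < p.1)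
  omega

/-- The regular pairs of step (2). -/
def Reg {n : ℕ} (σ : Equiv.Perm (V n)) (w : V n) (b : Fin n) (p : Fin n × Fin n) : Prop :=
  p.1 ≠ b ∧ p.2 ≠ b ∧
  adj (σ w) (σ (fl w p.1)) ∧ adj (σ w) (σ (fl w p.2)) ∧
  adj (σ (fl w p.1)) (σ (fl (fl w p.1) p.2)) ∧ adj (σ (fl w p.2)) (σ (fl (fl w p.2) p.1)) ∧
  adj (σ (fl w b)) (σ (fl (fl w b) p.1)) ∧ adj (σ (fl w b)) (σ (fl (fl w b) p.2)) ∧
  adj (σ (fl (fl w b) p.1)) (σ (fl (fl (fl w b) p.1) p.2)) ∧
  adj (σ (fl (fl w b) p.2)) (σ (fl (fl (fl w b) p.2) p.1)) ∧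
  ¬ adj (σ (fl (fl w p.1) p.2)) (σ (fl (fl (fl w p.1) p.2) b))

instance {n : ℕ} (σ : Equiv.Perm (V n)) (w : V n) (b : Fin n) : DecidablePred (Reg σ w b) := by
  intro p
  unfold Reg
  infer_instance

/-- Step (2): many regular pairs. -/
theorem xa_many {n : ℕ} (σ : Equiv.Perm (V n)) (hn : 100 ≤ n) (hd : ∀ w, 100 * dfc σ w ≤ n)
    (w : V n) (b : Fin n) (hb : ¬ adj (σ w) (σ (fl w b))) :
    n * n ≤ 4 * ((univ : Finset (Fin n × Fin n)).filter fun p => p.1 < p.2 ∧ Reg σ w b p).card := by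
  classical
  obtain ⟨m, hm, hm'⟩ : ∃ m : ℕ, 100 * m ≤ n ∧ n < 100 * m + 100 := ⟨n / 100, by omega, by omega⟩
  have hdm : ∀ x, dfc σ x ≤ m := fun x => by have := hd x; omega
  -- the irregular sets
  let I1 := (univ : Finset (Fin n × Fin n)).filter fun p => p.1 = b
  let I2 := (univ : Finset (Fin n × Fin n)).filter fun p => p.2 = b
  let I3 := (univ : Finset (Fin n × Fin n)).filter fun p => ¬ adj (σ w) (σ (fl w p.1))
  let I4 := (univ : Finset (Fin n × Fin n)).filter fun p => ¬ adj (σ w) (σ (fl w p.2))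
  let I5 := (univ : Finset (Fin n × Fin n)).filter fun p =>
    ¬ adj (σ (fl w p.1)) (σ (fl (fl w p.1) p.2))
  let I6 := (univ : Finset (Fin n × Fin n)).filter fun p =>
    ¬ adj (σ (fl w p.2)) (σ (fl (fl w p.2) p.1))
  let I7 := (univ : Finset (Fin n × Fin n)).filter fun p =>
    ¬ adj (σ (fl w b)) (σ (fl (fl w b) p.1))
  let I8 := (univ : Finset (Fin n × Fin n)).filter fun p =>
    ¬ adj (σ (fl w b)) (σ (fl (fl w b) p.2))
  let I9 := (univ : Finset (Fin n × Fin n)).filter fun p =>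
    ¬ adj (σ (fl (fl w b) p.1)) (σ (fl (fl (fl w b) p.1) p.2))
  let I10 := (univ : Finset (Fin n × Fin n)).filter fun p =>
    ¬ adj (σ (fl (fl w b) p.2)) (σ (fl (fl (fl w b) p.2) p.1))
  let I11 := (univ : Finset (Fin n × Fin n)).filter fun p =>
    p.1 ≠ b ∧ adj (σ (fl w p.1)) (σ (fl (fl w p.1) b))
  let I12 := (univ : Finset (Fin n × Fin n)).filter fun p =>
    ¬ adj (σ (fl w p.1)) (σ (fl (fl w p.1) b)) ∧ p.2 ≠ b ∧
      adj (σ (fl (fl w p.1) p.2)) (σ (fl (fl (fl w p.1) p.2) b))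
  have c1 : I1.card ≤ n * 1 := xa_cols (fun a _ => a = b) 1 (fun c => by
    rw [card_le_one]
    intro x hx y hy
    rw [(mem_filter.1 hx).2, (mem_filter.1 hy).2])
  have c2 : I2.card ≤ n * 1 := xa_rows (fun _ c => c = b) 1 (fun a => by
    rw [card_le_one]
    intro x hx y hy
    rw [(mem_filter.1 hx).2, (mem_filter.1 hy).2])
  have c3 : I3.card ≤ n * m := xa_cols (fun a _ => ¬ adj (σ w) (σ (fl w a))) m fun c => hdm w
  have c4 : I4.card ≤ n * m := xa_rows (fun _ c => ¬ adj (σ w) (σ (fl w c))) m fun c => hdm w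
  have c5 : I5.card ≤ n * m :=
    xa_rows (fun a c => ¬ adj (σ (fl w a)) (σ (fl (fl w a) c))) m fun a => hdm (fl w a)
  have c6 : I6.card ≤ n * m :=
    xa_cols (fun a c => ¬ adj (σ (fl w c)) (σ (fl (fl w c) a))) m fun c => hdm (fl w c)
  have c7 : I7.card ≤ n * m :=
    xa_cols (fun a _ => ¬ adj (σ (fl w b)) (σ (fl (fl w b) a))) m fun c => hdm (fl w b)
  have c8 : I8.card ≤ n * m :=
    xa_rows (fun _ c => ¬ adj (σ (fl w b)) (σ (fl (fl w b) c))) m fun c => hdm (fl w b)
  have c9 : I9.card ≤ n * m :=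
    xa_rows (fun a c => ¬ adj (σ (fl (fl w b) a)) (σ (fl (fl (fl w b) a) c))) m
      fun a => hdm (fl (fl w b) a)
  have c10 : I10.card ≤ n * m :=
    xa_cols (fun a c => ¬ adj (σ (fl (fl w b) c)) (σ (fl (fl (fl w b) c) a))) m
      fun c => hdm (fl (fl w b) c)
  have c11 : I11.card ≤ n * (2 * m + 3) :=
    xa_cols (fun a _ => a ≠ b ∧ adj (σ (fl w a)) (σ (fl (fl w a) b))) (2 * m + 3)
      fun c => (xa_D σ w b hb).trans (by have := hdm w; have := hdm (fl w b); omega)
  have c12 : I12.card ≤ n * (2 * m + 3) := by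
    refine xa_rows (fun a c => ¬ adj (σ (fl w a)) (σ (fl (fl w a) b)) ∧ c ≠ b ∧
      adj (σ (fl (fl w a) c)) (σ (fl (fl (fl w a) c) b))) (2 * m + 3) fun a => ?_
    by_cases h : adj (σ (fl w a)) (σ (fl (fl w a) b))
    · rw [filter_false_of_mem (fun c _ => by tauto)]
      simp
    · refine le_trans (card_le_card ?_) ((xa_D σ (fl w a) b h).trans
        (by have := hdm (fl w a); have := hdm (fl (fl w a) b); omega))
      intro c hc
      have hc' := (mem_filter.1 hc).2
      exact mem_filter.2 ⟨mem_univ _, hc'.2⟩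
  have hsub : ((univ : Finset (Fin n × Fin n)).filter fun p => p.1 < p.2) ⊆
      ((univ : Finset (Fin n × Fin n)).filter fun p => p.1 < p.2 ∧ Reg σ w b p) ∪
      (I1 ∪ (I2 ∪ (I3 ∪ (I4 ∪ (I5 ∪ (I6 ∪ (I7 ∪ (I8 ∪ (I9 ∪ (I10 ∪ (I11 ∪ I12))))))))))) := by
    intro p hp
    have hlt := (mem_filter.1 hp).2
    by_cases h1 : p.1 = b
    · simp [I1, h1]
    by_cases h2 : p.2 = b
    · simp [I2, h2]
    simp only [mem_union, mem_filter, mem_univ, true_and, I1, I2, I3, I4, I5, I6, I7, I8, I9, I10,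
      I11, I12, Reg, hlt]
    tauto
  have hk := card_le_card hsub
  have hu : (((univ : Finset (Fin n × Fin n)).filter fun p => p.1 < p.2 ∧ Reg σ w b p) ∪
      (I1 ∪ (I2 ∪ (I3 ∪ (I4 ∪ (I5 ∪ (I6 ∪ (I7 ∪ (I8 ∪ (I9 ∪ (I10 ∪ (I11 ∪ I12)))))))))))).card ≤
      ((univ : Finset (Fin n × Fin n)).filter fun p => p.1 < p.2 ∧ Reg σ w b p).card +
      (I1.card + (I2.card + (I3.card + (I4.card + (I5.card + (I6.card + (I7.card + (I8.card +
      (I9.card + (I10.card + (I11.card + I12.card))))))))))) := by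
    repeat (first | exact card_union_le _ _ | refine (card_union_le _ _).trans (Nat.add_le_add_left ?_ _))
  have hl := xa_lt_card (n := n)
  set R := ((univ : Finset (Fin n × Fin n)).filter fun p => p.1 < p.2 ∧ Reg σ w b p).card
  have htot : ((univ : Finset (Fin n × Fin n)).filter fun p => p.1 < p.2).card ≤
      R + (n * 1 + n * 1 + 8 * (n * m) + 2 * (n * (2 * m + 3))) := by omega
  have hnm : n * (100 * m) ≤ n * n := Nat.mul_le_mul_left _ hm
  have h100 : n * 100 ≤ n * n := Nat.mul_le_mul_left _ hn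
  nlinarith

/-- A bad edge gives many coincidences. -/
theorem exact_ {n : ℕ} {C : Type} {χ : V n → C} {σ : Equiv.Perm (V n)} {β : V n → V n → V n}
    (ht : Twin χ σ β) (hn : 100 ≤ n) (hd : ∀ w, 100 * dfc σ w ≤ n) (w : V n) (b : Fin n)
    (hb : ¬ adj (σ w) (σ (fl w b))) : E2f χ := by
  classical
  have hmany := xa_many σ hn hd w b hb
  -- neighbours of `x` kept by `σ`
  have hch : ∀ x : V n, ∃ f : Fin n → Fin n, ∀ a, adj (σ x) (σ (fl x a)) →
      σ (fl x a) = fl (σ x) (f a) := by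
    intro x
    have : ∀ a : Fin n, ∃ i, adj (σ x) (σ (fl x a)) → σ (fl x a) = fl (σ x) i := by
      intro a
      by_cases h : adj (σ x) (σ (fl x a))
      · obtain ⟨i, hi⟩ := adj_iff.1 h
        exact ⟨i, fun _ => hi⟩
      · exact ⟨b, fun h' => absurd h' h⟩
    choose f hf using this
    exact ⟨f, hf⟩
  obtain ⟨f, hf⟩ := hch w
  obtain ⟨h, hh⟩ := hch (fl w b)
  -- second level
  have hsec : ∀ (x : V n) (g : Fin n → Fin n), (∀ a, adj (σ x) (σ (fl x a)) →
      σ (fl x a) = fl (σ x) (g a)) → ∀ a c : Fin n, a ≠ c → adj (σ x) (σ (fl x a)) →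
      adj (σ x) (σ (fl x c)) → adj (σ (fl x a)) (σ (fl (fl x a) c)) →
      adj (σ (fl x c)) (σ (fl (fl x c) a)) →
      σ (fl (fl x a) c) = fl (fl (σ x) (g a)) (g c) := by
    intro x g hg a c hac h1 h2 h3 h4
    refine eq_fl_fl ?_ ?_ ?_ ?_
    · intro he
      apply hac
      have := hg a h1
      rw [he, ← hg c h2] at this
      exact fl_inj.1 (σ.injective this)
    · rw [← hg a h1]
      exact adj_comm.1 h3
    · rw [← hg c h2]
      rw [fl_comm x c a] at h4
      exact adj_comm.1 h4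
    · intro he
      have h5 := σ.injective he
      have h6 : fl x a = fl x c := by
        rw [← fl_fl (fl x a) c, h5]
      exact hac (fl_inj.1 h6)
  set R0 := (univ : Finset (Fin n × Fin n)).filter fun p => p.1 < p.2 ∧ Reg σ w b p with hR0
  have hs : ∀ r ∈ R0, σ (fl (fl (fl w b) r.1) r.2) =
      fl (fl (σ (fl w b)) (h r.1)) (h r.2) := by
    intro r hr
    obtain ⟨hlt, hreg⟩ := (mem_filter.1 hr).2
    obtain ⟨_, _, _, _, _, _, g7, g8, g9, g10, _⟩ := hreg
    exact hsec (fl w b) h hh r.1 r.2 hlt.ne g7 g8 g9 g10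
  have hp : ∀ r ∈ R0, σ (fl (fl w r.1) r.2) = fl (fl (σ w) (f r.1)) (f r.2) := by
    intro r hr
    obtain ⟨hlt, hreg⟩ := (mem_filter.1 hr).2
    obtain ⟨_, _, g3, g4, g5, g6, _, _, _, _, _⟩ := hreg
    exact hsec w f hf r.1 r.2 hlt.ne g3 g4 g5 g6
  have hcm : ∀ r : Fin n × Fin n, fl (fl (fl w b) r.1) r.2 = fl (fl (fl w r.1) r.2) b := by
    intro r
    rw [fl_comm w b r.1, fl_comm (fl w r.1) b r.2]
  have hadj : ∀ r : Fin n × Fin n, adj (fl (fl w r.1) r.2) (fl (fl (fl w b) r.1) r.2) := by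
    intro r
    rw [hcm r]
    exact adj_fl _ _
  have hz : ∀ r : Fin n × Fin n, ∃ i : Fin n,
      β (fl (fl w r.1) r.2) (fl (fl (fl w b) r.1) r.2) = fl (σ (fl (fl w r.1) r.2)) i := by
    intro r
    exact adj_iff.1 (ht.1 _ _ (hadj r))
  choose z hz using hz
  -- the two vertices attached to a pair
  let s : Fin n × Fin n → V n := fun r => fl (fl (σ (fl w b)) (h r.1)) (h r.2)
  let Z : Fin n × Fin n → V n := fun r => fl (fl (fl (σ w) (f r.1)) (f r.2)) (z r)
  have hsinj : ∀ r ∈ R0, ∀ r' ∈ R0, s r = s r' → r = r' := by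
    intro r hr r' hr' he
    have he' : σ (fl (fl (fl w b) r.1) r.2) = σ (fl (fl (fl w b) r'.1) r'.2) := by
      rw [hs r hr, hs r' hr']
      exact he
    obtain ⟨e1, e2⟩ := xa_pair_inj _ (mem_filter.1 hr).2.1 (mem_filter.1 hr').2.1
      (σ.injective he')
    exact Prod.ext e1 e2
  have hZeq : ∀ r ∈ R0, Z r = β (fl (fl w r.1) r.2) (fl (fl (fl w b) r.1) r.2) := by
    intro r hr
    rw [hz r, hp r hr]
  have hZs : ∀ r ∈ R0, Z r ≠ s r := by
    intro r hr he
    have h11 := (mem_filter.1 hr).2.2.2.2.2.2.2.2.2.2.2.2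
    apply h11
    rw [← hcm r, hs r hr]
    have h1 := ht.1 _ _ (hadj r)
    rw [← hZeq r hr, he] at h1
    exact h1
  have hcol : ∀ r ∈ R0, χ (s r) = χ (Z r) := by
    intro r hr
    have h1 := ht.2.2 _ _ (hadj r)
    rw [← hZeq r hr, hs r hr] at h1
    exact h1.symm
  -- an independent quarter
  let F : V n → V n := fun v => if hv : ∃ r ∈ R0, s r = v then Z hv.choose else ∅
  have hF : ∀ r ∈ R0, F (s r) = Z r := by
    intro r hr
    have hv : ∃ r' ∈ R0, s r' = s r := ⟨r, hr, rfl⟩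
    have h1 : F (s r) = Z hv.choose := dif_pos hv
    rw [h1, hsinj _ hv.choose_spec.1 r hr hv.choose_spec.2]
  obtain ⟨A', hA', hcard, hind⟩ := sel4 (R0.image s) F (by
    intro a ha
    obtain ⟨r, hr, rfl⟩ := mem_image.1 ha
    rw [hF r hr]
    exact hZs r hr)
  let R := R0.filter fun r => s r ∈ A'
  have hRcard : A'.card ≤ R.card := by
    have : A' ⊆ R.image s := by
      intro a ha
      obtain ⟨r, hr, rfl⟩ := mem_image.1 (hA' ha)
      exact mem_image.2 ⟨r, mem_filter.2 ⟨hr, ha⟩, rfl⟩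
    exact (card_le_card this).trans card_image_le
  have hR0card : (R0.image s).card = R0.card := by
    apply card_image_of_injOn
    intro r hr r' hr' he
    exact hsinj r hr r' hr' he
  refine ⟨σ w, σ (fl w b), f, h, R, z, ?_, ?_, ?_, ?_⟩
  · rw [sq]
    omega
  · intro r hr r' hr' he
    exact hsinj r (mem_filter.1 hr).1 r' (mem_filter.1 hr').1 he
  · intro r hr r' hr' he
    have h1 := hind (s r) (mem_filter.1 hr).2
    rw [hF r (mem_filter.1 hr).1] at h1
    apply h1
    have h2 : Z r = s r' := he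
    rw [h2]
    exact (mem_filter.1 hr').2
  · intro r hr
    exact hcol r (mem_filter.1 hr).1

end Pool.Agent.SH
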