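import Pool.Agent.SH.Nice
import Pool.Agent.SH.Xa
import Pool.Agent.SH.P1
import Pool.Agent.SH.P2
import Pool.Agent.SH.P3
import Pool.Agent.SH.Ex

set_option autoImplicit false

namespace Pool.Agent.SH

open Finset

/-- The window of a twin at `w0`. -/
theorem isCfg_of_twin {n : ℕ} {C : Type} {χ : V n → C} {σ : Equiv.Perm (V n)}
    {β : V n → V n → V n} (ht : Twin χ σ β) (k : ℕ) (w0 : V n) :
    IsCfg k χ (fun S => σ (symmDiff w0 S)) (fun S T => β (symmDiff w0 S) (symmDiff w0 T)) := by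
  have hinj : ∀ {S S' : V n}, symmDiff w0 S = symmDiff w0 S' → S = S' := by
    intro S S' h
    exact symmDiff_right_injective w0 h
  have hadj : ∀ {S T : V n}, S.card = k → T.card = k + 1 → S ⊆ T →
      adj (symmDiff w0 S) (symmDiff w0 T) := by
    intro S T hS hT hST
    rw [adj_symmDiff]
    unfold adj
    have : symmDiff S T = T \ S := by
      rw [symmDiff_def, sdiff_eq_bot_iff.2 hST]
      simp
    rw [this, card_sdiff_of_subset hST]
    omega
  refine ⟨?_, ?_, ?_, ?_⟩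
  · intro S S' _ _ h
    exact hinj (σ.injective h)
  · intro S T hS hT hST
    exact ht.1 _ _ (hadj hS hT hST)
  · intro S T T' hS hT hT' hST hST' h
    exact hinj (ht.2.1 _ _ _ (hadj hS hT hST) (hadj hS hT' hST') h)
  · intro S S' T hS hS' hT hST hS'T
    exact (ht.2.2 _ _ (hadj hS hT hST)).trans (ht.2.2 _ _ (hadj hS' hT hS'T)).symm

open Classical in
theorem main_ (ε : ℝ) (hε : 0 < ε) : ∃ n0 : ℕ, ∀ n ≥ n0, ∀ q : ℕ, (n : ℝ) ^ (1 + ε) ≤ q →
    ((univ.filter fun χ : V n → Fin q => ∃ (σ : Equiv.Perm (V n)) (β : V n → V n → V n),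
      Twin χ σ β ∧ ∃ w b, ¬ adj (σ w) (σ (fl w b))).card : ℝ) ≤
      (1 / 2) ^ n * (q : ℝ) ^ (2 ^ n) := by
  obtain ⟨k0, hk0⟩ := exists_nat_ge (2 / ε)
  have hk1 : 1 ≤ max k0 1 := le_max_right _ _
  have hkε : 2 ≤ ((max k0 1 : ℕ) : ℝ) * ε := by
    have h1 : (k0 : ℝ) ≤ ((max k0 1 : ℕ) : ℝ) := by exact_mod_cast le_max_left _ _
    have h2 : 2 / ε * ε ≤ ((max k0 1 : ℕ) : ℝ) * ε :=
      mul_le_mul_of_nonneg_right (hk0.trans h1) hε.le
    rwa [div_mul_cancel₀ _ hε.ne'] at h2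
  generalize max k0 1 = k at hk1 hkε
  obtain ⟨η, hη, n1, H1⟩ := niceall k hk1
  obtain ⟨c, hc, n2, H2⟩ := extr k hk1 η hη
  obtain ⟨n3, H3⟩ := p1 ε hε
  obtain ⟨n4, H4⟩ := p2 ε hε
  obtain ⟨n5, H5⟩ := p3 k hk1 c hc ε hε hkε
  refine ⟨n1 + n2 + n3 + n4 + n5 + 100, ?_⟩
  intro n hn q hq
  have e1 := H3 n (by omega) q hq
  have e2 := H4 n (by omega) q hq
  have e3 := H5 n (by omega) q hq
  have hsub : (univ.filter fun χ : V n → Fin q => ∃ (σ : Equiv.Perm (V n))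
      (β : V n → V n → V n), Twin χ σ β ∧ ∃ w b, ¬ adj (σ w) (σ (fl w b))) ⊆
      (univ.filter fun χ : V n → Fin q => E1f χ) ∪ (univ.filter fun χ : V n → Fin q => E2f χ) ∪
        (univ.filter fun χ : V n → Fin q => Code3 k c χ) := by
    intro χ hχ
    simp only [mem_filter, mem_univ, true_and, mem_union] at hχ ⊢
    obtain ⟨σ, β, ht, w, b, hb⟩ := hχ
    by_contra hcon
    push Not at hcon
    obtain ⟨⟨c1, c2⟩, c3⟩ := hcon
    apply c2
    refine exact_ ht (by omega) ?_ w b hb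
    refine H1 n (by omega) (Fin q) χ σ β ht c1 ?_
    intro w0
    by_contra hlt
    push Not at hlt
    exact c3 (H2 n (by omega) (Fin q) χ _ _ (isCfg_of_twin ht k w0) hlt.le)
  have hcard := (card_le_card hsub).trans ((card_union_le _ _).trans
    (Nat.add_le_add_right (card_union_le _ _) _))
  have hcard' : ((univ.filter fun χ : V n → Fin q => ∃ (σ : Equiv.Perm (V n))
      (β : V n → V n → V n), Twin χ σ β ∧ ∃ w b, ¬ adj (σ w) (σ (fl w b))).card : ℝ) ≤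
      ((univ.filter fun χ : V n → Fin q => E1f χ).card : ℝ) +
        ((univ.filter fun χ : V n → Fin q => E2f χ).card : ℝ) +
        ((univ.filter fun χ : V n → Fin q => Code3 k c χ).card : ℝ) := by
    exact_mod_cast hcard
  have hpow : 3 * (1 / 4 : ℝ) ^ n ≤ (1 / 2) ^ n := by
    have h4 : (1 / 4 : ℝ) ^ n = (1 / 2) ^ n * (1 / 2) ^ n := by
      rw [← mul_pow]
      norm_num
    have h2 : (1 / 2 : ℝ) ^ n ≤ (1 / 2) ^ 2 :=
      pow_le_pow_of_le_one (by norm_num) (by norm_num) (by omega)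
    rw [h4]
    have h3 : 0 < (1 / 2 : ℝ) ^ n := by positivity
    nlinarith
  calc _ ≤ _ := hcard'
    _ ≤ (1 / 4) ^ n * (q : ℝ) ^ (2 ^ n) + (1 / 4) ^ n * (q : ℝ) ^ (2 ^ n) +
        (1 / 4) ^ n * (q : ℝ) ^ (2 ^ n) := add_le_add (add_le_add e1 e2) e3
    _ = 3 * (1 / 4) ^ n * (q : ℝ) ^ (2 ^ n) := by ring
    _ ≤ (1 / 2) ^ n * (q : ℝ) ^ (2 ^ n) := mul_le_mul_of_nonneg_right hpow (by positivity)

end Pool.Agent.SH
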