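import Pool.Agent.SH.Lb

set_option autoImplicit false

namespace Pool.Agent.SHF

open Filter

open Classical in
theorem prob_le_one (n q r : ℕ) : prob n q r ≤ 1 := by
  unfold prob
  rcases Nat.eq_zero_or_pos q with hq | hq
  · subst hq
    have : ((0 : ℕ) : ℝ) ^ (2 ^ n) = 0 := by
      rw [Nat.cast_zero, zero_pow (by positivity)]
    rw [this, div_zero]
    norm_num
  · have hq0 : (0 : ℝ) < (q : ℝ) ^ (2 ^ n) := by
      have : (0 : ℝ) < q := by exact_mod_cast hq
      positivity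
    rw [div_le_one hq0]
    have h1 := Finset.card_filter_le (Finset.univ : Finset ((Fin n → Bool) → Fin q))
      (fun χ => Distinguishable r fun v => (χ v : ℕ))
    have h2 : (Finset.univ : Finset ((Fin n → Bool) → Fin q)).card = q ^ (2 ^ n) := by simp
    rw [h2] at h1
    exact_mod_cast h1

/-- The implication of Q1 outside the window `n / 4 < q < n ^ (1 + ε)`. -/
theorem mono (ε : ℝ) (hε : 0 < ε) (q : ℕ → ℕ)
    (hq : ∀ᶠ n : ℕ in atTop, (2 ≤ q n ∧ 4 * q n ≤ n) ∨ (n : ℝ) ^ (1 + ε) ≤ q n)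
    (h : Tendsto (fun n => prob n (q n) 1) atTop (nhds 1)) :
    Tendsto (fun n => prob n (q n + 1) 1) atTop (nhds 1) := by
  obtain ⟨n1, hn1⟩ := final ε hε
  obtain ⟨n2, hn2⟩ := lower
  have hhalf : Tendsto (fun n : ℕ => (1 / 2 : ℝ) ^ n) atTop (nhds 0) :=
    tendsto_pow_atTop_nhds_zero_of_lt_one (by norm_num) (by norm_num)
  have e1 : ∀ᶠ n : ℕ in atTop, (1 / 2 : ℝ) < prob n (q n) 1 :=
    h.eventually (lt_mem_nhds (by norm_num))
  have e2 : ∀ᶠ n : ℕ in atTop, (1 / 2 : ℝ) ^ n < 1 / 2 :=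
    hhalf.eventually (gt_mem_nhds (by norm_num))
  have e3 : ∀ᶠ n : ℕ in atTop, 1 - (1 / 2 : ℝ) ^ n ≤ prob n (q n + 1) 1 := by
    filter_upwards [hq, e1, e2, eventually_ge_atTop n1, eventually_ge_atTop n2] with n a b c d e
    rcases a with ⟨a1, a2⟩ | a
    · have := hn2 n e (q n) a1 a2
      linarith
    · apply hn1 n d
      push_cast
      linarith
  have h4 : Tendsto (fun n : ℕ => 1 - (1 / 2 : ℝ) ^ n) atTop (nhds 1) := by
    simpa using hhalf.const_sub 1
  exact tendsto_of_tendsto_of_tendsto_of_le_of_le' h4 tendsto_const_nhds e3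
    (Eventually.of_forall fun n => prob_le_one n _ 1)

end Pool.Agent.SHF
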