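import Pool.Agent.SH.Mo

set_option autoImplicit false

namespace Pool.Agent.SHF

open Filter

theorem mono_of (U : ℕ → ℕ → Prop) (hU : ∀ n q, U n q → U n (q + 1))
    (hup : ∃ n1 : ℕ, ∀ n ≥ n1, ∀ q : ℕ, U n q → 1 - (1 / 2 : ℝ) ^ n ≤ prob n q 1) (q : ℕ → ℕ)
    (hq : ∀ᶠ n : ℕ in atTop, (2 ≤ q n ∧ 4 * q n ≤ n) ∨ U n (q n))
    (h : Tendsto (fun n => prob n (q n) 1) atTop (nhds 1)) :
    Tendsto (fun n => prob n (q n + 1) 1) atTop (nhds 1) := by
  obtain ⟨n1, hn1⟩ := hup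
  obtain ⟨n2, hn2⟩ := lower
  have hhalf : Tendsto (fun n : ℕ => (1 / 2 : ℝ) ^ n) atTop (nhds 0) :=
    tendsto_pow_atTop_nhds_zero_of_lt_one (by norm_num) (by norm_num)
  have e1 : ∀ᶠ n : ℕ in atTop, (1 / 2 : ℝ) < prob n (q n) 1 :=
    h.eventually (lt_mem_nhds (by norm_num))
  have e2 : ∀ᶠ n : ℕ in atTop, (1 / 2 : ℝ) ^ n < 1 / 2 :=
    hhalf.eventually (gt_mem_nhds (by norm_num))
  have e3 : ∀ᶠ n : ℕ in atTop, 1 - (1 / 2 : ℝ) ^ n ≤ prob n (q n + 1) 1 := by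
    filter_upwards [hq, e1, e2, eventually_ge_atTop n1, eventually_ge_atTop n2] with n a b c d e
    rcases a with ⟨a1, a2⟩ | a
    · have := hn2 n e (q n) a1 a2
      linarith
    · exact hn1 n d _ (hU _ _ a)
  have h4 : Tendsto (fun n : ℕ => 1 - (1 / 2 : ℝ) ^ n) atTop (nhds 1) := by
    simpa using hhalf.const_sub 1
  exact tendsto_of_tendsto_of_tendsto_of_le_of_le' h4 tendsto_const_nhds e3
    (Eventually.of_forall fun n => prob_le_one n _ 1)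

/-- Coarse monotonicity, from the upper side: if the probability for `q` colours stays above a
fixed `a > 0`, then with `q' ≥ 4 C q` colours it tends to one. -/
theorem coarse_of (C : ℕ)
    (hup : ∃ n1 : ℕ, ∀ n ≥ n1, ∀ q : ℕ, C * n ≤ q → 1 - (1 / 2 : ℝ) ^ n ≤ prob n q 1)
    (q q' : ℕ → ℕ) (hq : ∀ᶠ n : ℕ in atTop, 2 ≤ q n ∧ 4 * C * q n ≤ q' n) (a : ℝ) (ha : 0 < a)
    (h : ∀ᶠ n : ℕ in atTop, a ≤ prob n (q n) 1) :
    Tendsto (fun n => prob n (q' n) 1) atTop (nhds 1) := by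
  obtain ⟨n1, hn1⟩ := hup
  obtain ⟨n2, hn2⟩ := lower
  have hhalf : Tendsto (fun n : ℕ => (1 / 2 : ℝ) ^ n) atTop (nhds 0) :=
    tendsto_pow_atTop_nhds_zero_of_lt_one (by norm_num) (by norm_num)
  have e2 : ∀ᶠ n : ℕ in atTop, (1 / 2 : ℝ) ^ n < a := hhalf.eventually (gt_mem_nhds ha)
  have e3 : ∀ᶠ n : ℕ in atTop, 1 - (1 / 2 : ℝ) ^ n ≤ prob n (q' n) 1 := by
    filter_upwards [hq, h, e2, eventually_ge_atTop n1, eventually_ge_atTop n2] with n b c d e f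
    obtain ⟨b1, b2⟩ := b
    have hn : n < 4 * q n := by
      by_contra hc
      have := hn2 n f (q n) b1 (by omega)
      linarith
    apply hn1 n e
    calc C * n ≤ C * (4 * q n) := Nat.mul_le_mul_left _ hn.le
      _ = 4 * C * q n := by ring
      _ ≤ q' n := b2
  have h4 : Tendsto (fun n : ℕ => 1 - (1 / 2 : ℝ) ^ n) atTop (nhds 1) := by
    simpa using hhalf.const_sub 1
  exact tendsto_of_tendsto_of_tendsto_of_le_of_le' h4 tendsto_const_nhds e3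
    (Eventually.of_forall fun n => prob_le_one n _ 1)

end Pool.Agent.SHF
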