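import Pool.Agent.SH.St

set_option autoImplicit false

namespace Pool.Agent.SH

open Finset

/-- The core of niceness: if almost all pairs of the images of the neighbours of `w` are at
distance two then `σ` preserves almost all edges at `w`. -/
theorem nc {n : ℕ} {C : Type} {χ : V n → C} {σ : Equiv.Perm (V n)} {β : V n → V n → V n}
    (ht : Twin χ σ β) (h1 : ¬ E1f χ) (w : V n) (I : Finset (Fin n)) (hn : 100 ≤ n)
    (hI : 9 * n ≤ 10 * I.card)
    (hB : 20 * ((I ×ˢ I).filter fun p => p.1 ≠ p.2 ∧
      (symmDiff (σ (fl w p.1)) (σ (fl w p.2))).card ≠ 2).card ≤ I.card ^ 2) :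
    I.card * dfc σ w ≤ 5 * ((I ×ˢ I).filter fun p => p.1 ≠ p.2 ∧
      (symmDiff (σ (fl w p.1)) (σ (fl w p.2))).card ≠ 2).card + 3 * I.card +
      I.card * (n - I.card) := by
  classical
  obtain ⟨y, hy⟩ := star I (fun a => σ (fl w a))
    (fun a _ b _ hab => fl_inj.1 (σ.injective hab)) (by omega) hB
  set B := ((I ×ˢ I).filter fun p => p.1 ≠ p.2 ∧
      (symmDiff (σ (fl w p.1)) (σ (fl w p.2))).card ≠ 2).card with hBdef
  set J := I.filter fun a => adj y (σ (fl w a)) with hJ
  have hmn : I.card ≤ n := by
    have := card_le_univ I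
    simpa using this
  have hs : 3 * I.card ≤ 4 * J.card + 12 := by
    have hpos : 0 < I.card := by omega
    have h2 : I.card * (3 * I.card) ≤ I.card * (4 * J.card + 12) := by nlinarith
    exact Nat.le_of_mul_le_mul_left h2 hpos
  have hyw : y = σ w := by
    by_contra hne
    apply h1
    let g : Fin n → V n := fun a => β w (fl w a)
    have hg : Function.Injective g := fun a b hab =>
      fl_inj.1 (ht.2.1 w _ _ (adj_fl w a) (adj_fl w b) hab)
    let ι : V n → V n := fun v => if h : ∃ a, g a = v then σ (fl w h.choose) else v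
    have hι : ∀ a, ι (g a) = σ (fl w a) := by
      intro a
      have hex : ∃ a', g a' = g a := ⟨a, rfl⟩
      have h2 : ι (g a) = σ (fl w hex.choose) := dif_pos hex
      rw [h2, hg hex.choose_spec]
    refine ⟨σ w, y, (J.image g).filter fun v => ¬ adj y v, ι, fun h => hne h.symm, ?_, ?_⟩
    · intro v hv
      obtain ⟨hv1, hv2⟩ := mem_filter.1 hv
      obtain ⟨a, ha, rfl⟩ := mem_image.1 hv1
      refine ⟨ht.1 w _ (adj_fl w a), hv2, ?_, ?_⟩
      · rw [hι a]
        exact (mem_filter.1 ha).2
      · rw [hι a]
        exact ht.2.2 w _ (adj_fl w a)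
    · have h3 : ((J.image g).filter fun v => adj y v).card ≤ 2 := by
        refine (card_le_card ?_).trans (card_common_le (x := σ w) (y := y) fun h => hne h.symm)
        intro v hv
        obtain ⟨hv1, hv2⟩ := mem_filter.1 hv
        obtain ⟨a, _, rfl⟩ := mem_image.1 hv1
        exact mem_filter.2 ⟨mem_univ _, ht.1 w _ (adj_fl w a), hv2⟩
      have h4 : (J.image g).card = J.card := card_image_of_injective _ hg
      have h5 := card_filter_add_card_filter_not (s := J.image g) (fun v => adj y v)
      omega
  have hd : dfc σ w + J.card ≤ n := by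
    have h2 := card_filter_add_card_filter_not (s := (univ : Finset (Fin n)))
      (fun i => adj (σ w) (σ (fl w i)))
    have h3 : J.card ≤ (univ.filter fun i : Fin n => adj (σ w) (σ (fl w i))).card := by
      refine card_le_card fun a ha => mem_filter.2 ⟨mem_univ _, ?_⟩
      rw [← hyw]
      exact (mem_filter.1 ha).2
    have h4 : (univ : Finset (Fin n)).card = n := by simp
    unfold dfc
    omega
  obtain ⟨r, hr⟩ := Nat.exists_eq_add_of_le hmn
  have h6 : n - I.card = r := by omega
  rw [h6]
  have h7 : I.card * (dfc σ w + J.card) ≤ I.card * n := Nat.mul_le_mul_left _ hd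
  have h8 : I.card * n = I.card * I.card + I.card * r := by rw [← mul_add, ← hr]
  nlinarith

end Pool.Agent.SH
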