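import Pool.Agent.SH.Top
import Pool.Agent.SH.Dn

set_option autoImplicit false

namespace Pool.Agent.SH

open Finset

theorem nice_mono {n : ℕ} {σ : Equiv.Perm (V n)} {j : ℕ} {η η' δ : ℝ} (h : Lv σ j η δ)
    (hη : η ≤ η') : Lv σ j η' δ := by
  intro w0
  refine le_trans ?_ (h w0)
  norm_cast
  apply Finset.card_le_card
  intro S hS
  rw [Finset.mem_filter] at hS ⊢
  refine ⟨hS.1, lt_of_le_of_lt ?_ hS.2⟩
  exact mul_le_mul_of_nonneg_right hη (Nat.cast_nonneg n)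

/-- Going down `i` levels from level `k - 1`. -/
theorem nice_down (k : ℕ) (hk : 1 ≤ k) (κ : ℝ) (hκ : 0 < κ) (hκk : κ * (600 * 22 ^ k) = 1) :
    ∀ i : ℕ, i ≤ k - 1 → ∃ n0 : ℕ, ∀ n ≥ n0,
    ∀ (C : Type) (χ : V n → C) (σ : Equiv.Perm (V n)) (β : V n → V n → V n),
      Twin χ σ β → ¬ E1f χ →
      (∀ w0 : V n, ((badT k fun S => σ (symmDiff w0 S)).card : ℝ) ≤
        κ ^ k / 2 * n.choose (k + 1)) →
      Lv σ (k - 1 - i) (6 * 22 ^ i * κ) (κ ^ (k - 1 - i) / 2) := by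
  have h22 : (22 : ℝ) ≤ 22 ^ k := by
    calc (22 : ℝ) = 22 ^ 1 := (pow_one _).symm
      _ ≤ 22 ^ k := pow_le_pow_right₀ (by norm_num) hk
  intro i
  induction i with
  | zero =>
    intro _
    have hκ' : κ ≤ 1 / 100 := by
      by_contra hcon
      push Not at hcon
      nlinarith
    obtain ⟨n0, hn0⟩ := lv_top k hk κ (κ ^ k / 2) hκ hκ' (by positivity)
    refine ⟨n0, fun n hn C χ σ β h1 h2 h3 => ?_⟩
    have h4 := hn0 n hn C χ σ β h1 h2 h3
    have h5 : κ ^ k / 2 / κ = κ ^ (k - 1 - 0) / 2 := by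
      obtain ⟨m, rfl⟩ : ∃ m, k = m + 1 := ⟨k - 1, by omega⟩
      simp only [Nat.add_sub_cancel, Nat.sub_zero]
      rw [pow_succ]
      field_simp
    rw [h5] at h4
    simpa using h4
  | succ i ih =>
    intro hi
    obtain ⟨n1, hn1⟩ := ih (by omega)
    obtain ⟨j, hj⟩ : ∃ j, k - 1 - (i + 1) = j := ⟨_, rfl⟩
    have hj1 : k - 1 - i = j + 1 := by omega
    have hpow : (22 : ℝ) ^ (i + 1) ≤ 22 ^ k := pow_le_pow_right₀ (by norm_num) (by omega)
    have hpi : (1 : ℝ) ≤ 22 ^ i := one_le_pow₀ (by norm_num)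
    have hcond : κ + 6 * 22 ^ i * κ ≤ 1 / 60 := by
      have e : (22 : ℝ) ^ (i + 1) = 22 * 22 ^ i := by ring
      rw [e] at hpow
      have h1 : κ * (600 * (22 * 22 ^ i)) ≤ 1 := by
        rw [← hκk]
        exact mul_le_mul_of_nonneg_left (mul_le_mul_of_nonneg_left hpow (by norm_num)) hκ.le
      have h2 : κ * 1 ≤ κ * 22 ^ i := mul_le_mul_of_nonneg_left hpi hκ.le
      nlinarith
    obtain ⟨n2, hn2⟩ := lv_down j κ (6 * 22 ^ i * κ) (κ ^ (j + 1) / 2) hκ (by positivity) hcond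
      (by positivity)
    refine ⟨max n1 n2, fun n hn C χ σ β h1 h2 h3 => ?_⟩
    have h4 := hn1 n (le_trans (le_max_left _ _) hn) C χ σ β h1 h2 h3
    rw [hj1] at h4
    have h5 := hn2 n (le_trans (le_max_right _ _) hn) C χ σ β h1 h2 h4
    rw [hj]
    have h6 : κ ^ (j + 1) / 2 / κ = κ ^ j / 2 := by
      rw [pow_succ]
      field_simp
    rw [h6] at h5
    refine nice_mono h5 ?_
    have h2 : κ * 1 ≤ κ * 22 ^ i := mul_le_mul_of_nonneg_left hpi hκ.le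
    have e : (22 : ℝ) ^ (i + 1) = 22 * 22 ^ i := by ring
    rw [e]
    nlinarith

/-- All vertices are nice. -/
theorem niceall (k : ℕ) (hk : 1 ≤ k) : ∃ η : ℝ, 0 < η ∧ ∃ n0 : ℕ, ∀ n ≥ n0,
    ∀ (C : Type) (χ : V n → C) (σ : Equiv.Perm (V n)) (β : V n → V n → V n),
      Twin χ σ β → ¬ E1f χ →
      (∀ w0 : V n, ((badT k fun S => σ (symmDiff w0 S)).card : ℝ) ≤ η * n.choose (k + 1)) →
      ∀ w, 100 * dfc σ w ≤ n := by
  have h22 : (0 : ℝ) < 600 * 22 ^ k := by positivity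
  obtain ⟨κ, hκ⟩ : ∃ κ : ℝ, κ = 1 / (600 * 22 ^ k) := ⟨_, rfl⟩
  have hκ0 : 0 < κ := by rw [hκ]; positivity
  have hκk : κ * (600 * 22 ^ k) = 1 := by rw [hκ]; field_simp
  obtain ⟨n0, hn0⟩ := nice_down k hk κ hκ0 hκk (k - 1) le_rfl
  refine ⟨κ ^ k / 2, by positivity, n0, fun n hn C χ σ β h1 h2 h3 w => ?_⟩
  have h4 := hn0 n hn C χ σ β h1 h2 h3 w
  rw [Nat.sub_self, Nat.choose_zero_right, pow_zero, Finset.powersetCard_zero] at h4
  by_contra hcon
  push Not at hcon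
  have hd : 6 * 22 ^ (k - 1) * κ * (n : ℝ) < dfc σ (symmDiff w ∅) := by
    have e : symmDiff w (∅ : V n) = w := by
      rw [← Finset.bot_eq_empty, symmDiff_bot]
    rw [e]
    have hc : (n : ℝ) < 100 * dfc σ w := by exact_mod_cast hcon
    have h5 : (6 * 22 ^ (k - 1) * κ) * 2200 = 1 := by
      obtain ⟨m, rfl⟩ : ∃ m, k = m + 1 := ⟨k - 1, by omega⟩
      simp only [Nat.add_sub_cancel]
      rw [← hκk]
      ring
    have hn0' : (0 : ℝ) ≤ n := Nat.cast_nonneg n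
    nlinarith
  rw [Finset.filter_true_of_mem (by
    intro S hS
    rw [Finset.mem_singleton] at hS
    rw [hS]
    exact hd)] at h4
  norm_num at h4

end Pool.Agent.SH
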