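import Pool.Agent.SH.P1
import Pool.Agent.SH.P2

set_option autoImplicit false

/-!
# The events E1f and E2f for `q ≥ C n`
-/

namespace Pool.Agent.SH

open Finset

open Classical in
theorem p1c {n q : ℕ} (hn' : 0 < n) (hq' : (n : ℝ) * 32 ^ 4 ≤ q) :
    ((univ.filter fun χ : V n → Fin q => E1f χ).card : ℝ) ≤ (1 / 4) ^ n * (q : ℝ) ^ (2 ^ n) := by
  have hnr : (0 : ℝ) < n := by exact_mod_cast hn'
  have hq0 : (0 : ℝ) < q := lt_of_lt_of_le (by positivity) hq'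
  have h1 := p1_ub (univ : Finset (V n → Fin q)) _ (fun χ => E1f χ) _
    (fun χ _ h => p1_cover hn' χ h)
  have h2 : ((univ.filter fun χ : V n → Fin q => E1f χ).card : ℝ) ≤
      ∑ i ∈ (univ : Finset (V n)) ×ˢ ((univ : Finset (V n)) ×ˢ
      ((univ.filter fun S : Finset (Fin n) => n ≤ 4 * S.card).sigma fun S =>
        Fintype.piFinset fun i => if i ∈ S then (univ : Finset (Fin n)) else {⟨0, hn'⟩})),
        (q : ℝ) ^ (2 ^ n) / (q : ℝ) ^ i.2.2.1.card := by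
    refine le_trans (Nat.cast_le.2 h1) ?_
    rw [Nat.cast_sum]
    refine sum_le_sum fun i _ => ?_
    rw [le_div_iff₀ (by positivity)]
    exact_mod_cast p1_one i.1 i.2.1 i.2.2.1 i.2.2.2
  refine h2.trans ?_
  rw [sum_product]
  simp_rw [sum_product, sum_sigma]
  have h3 : ∀ S ∈ (univ.filter fun S : Finset (Fin n) => n ≤ 4 * S.card),
      ∑ _j ∈ Fintype.piFinset fun i => if i ∈ S then (univ : Finset (Fin n)) else {⟨0, hn'⟩},
        (q : ℝ) ^ (2 ^ n) / (q : ℝ) ^ S.card ≤ (1 / 32) ^ n * (q : ℝ) ^ (2 ^ n) := by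
    intro S hS
    have hS' := (mem_filter.1 hS).2
    rw [sum_const, nsmul_eq_mul, Fintype.card_piFinset]
    have hp : ∏ i : Fin n, (if i ∈ S then (univ : Finset (Fin n)) else {⟨0, hn'⟩}).card =
        n ^ S.card := by
      have : ∀ i : Fin n, (if i ∈ S then (univ : Finset (Fin n)) else {⟨0, hn'⟩}).card =
          if i ∈ S then n else 1 := by
        intro i
        split_ifs <;> simp
      rw [prod_congr rfl fun i _ => this i, prod_ite]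
      simp
    rw [hp]
    push_cast
    have h4 : (n : ℝ) ^ S.card * ((q : ℝ) ^ (2 ^ n) / (q : ℝ) ^ S.card) =
        ((n : ℝ) / q) ^ S.card * (q : ℝ) ^ (2 ^ n) := by
      rw [div_pow]; ring
    rw [h4]
    refine mul_le_mul_of_nonneg_right ?_ (by positivity)
    have h5 : (n : ℝ) / q ≤ (1 / 32) ^ 4 := by
      rw [div_le_iff₀ hq0]
      have : (n : ℝ) * 32 ^ 4 * (1 / 32) ^ 4 = n := by ring
      nlinarith
    calc ((n : ℝ) / q) ^ S.card ≤ ((1 / 32 : ℝ) ^ 4) ^ S.card :=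
          pow_le_pow_left₀ (by positivity) h5 _
      _ = (1 / 32 : ℝ) ^ (4 * S.card) := (pow_mul _ _ _).symm
      _ ≤ (1 / 32 : ℝ) ^ n := pow_le_pow_of_le_one (by norm_num) (by norm_num) hS'
  have h6 : ∑ S ∈ (univ.filter fun S : Finset (Fin n) => n ≤ 4 * S.card),
      ∑ _j ∈ Fintype.piFinset fun i => if i ∈ S then (univ : Finset (Fin n)) else {⟨0, hn'⟩},
        (q : ℝ) ^ (2 ^ n) / (q : ℝ) ^ S.card ≤ 2 ^ n * ((1 / 32) ^ n * (q : ℝ) ^ (2 ^ n)) := by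
    refine (sum_le_sum h3).trans ?_
    rw [sum_const, nsmul_eq_mul]
    refine mul_le_mul_of_nonneg_right ?_ (by positivity)
    have : (univ.filter fun S : Finset (Fin n) => n ≤ 4 * S.card).card ≤ 2 ^ n := by
      refine (card_filter_le _ _).trans ?_
      simp
    exact_mod_cast this
  refine (sum_le_sum fun x _ => sum_le_sum fun y _ => h6).trans ?_
  rw [sum_const, sum_const, nsmul_eq_mul, nsmul_eq_mul]
  have hcv : ((univ : Finset (V n)).card : ℝ) = 2 ^ n := by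
    simp
  rw [hcv]
  have : (2 : ℝ) ^ n * (2 ^ n * (2 ^ n * ((1 / 32) ^ n * (q : ℝ) ^ (2 ^ n)))) =
      ((2 * (2 * (2 * (1 / 32)))) ^ n) * (q : ℝ) ^ (2 ^ n) := by
    rw [mul_pow, mul_pow, mul_pow]; ring
  rw [this]
  norm_num

theorem p2c_num (n : ℕ) (hn : 12 ≤ n) : 16 * n ^ 2 ≤ 2 ^ n := by
  induction n, hn using Nat.le_induction with
  | base => norm_num
  | succ m hm ih =>
    rw [pow_succ 2 m]
    nlinarith

theorem p2c_pow {n q m : ℕ} (hn : 12 ≤ n) (hq : (n : ℝ) * 2 ^ 128 ≤ q) (hm : n ^ 2 ≤ 64 * m) :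
    (4 : ℝ) ^ n * ((n : ℝ) ^ n) ^ 2 * 2 ^ (n ^ 2) * ((n : ℝ) / q) ^ m ≤ (1 / 4) ^ n := by
  have hn0 : (0 : ℝ) < n := by exact_mod_cast (by omega : 0 < n)
  have hq0 : (0 : ℝ) < q := lt_of_lt_of_le (by positivity) hq
  have h1 : (n : ℝ) / q ≤ (1 / 2) ^ 128 := by
    rw [div_le_iff₀ hq0]
    have h2 : (n : ℝ) = (1 / 2) ^ 128 * ((n : ℝ) * 2 ^ 128) := by
      rw [mul_left_comm, ← mul_pow]
      norm_num
    calc (n : ℝ) = (1 / 2) ^ 128 * ((n : ℝ) * 2 ^ 128) := h2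
      _ ≤ _ := mul_le_mul_of_nonneg_left hq (by positivity)
  have h3 : ((n : ℝ) / q) ^ m ≤ (1 / 2) ^ (2 * n ^ 2) := by
    calc ((n : ℝ) / q) ^ m ≤ ((1 / 2 : ℝ) ^ 128) ^ m := pow_le_pow_left₀ (by positivity) h1 m
      _ = (1 / 2 : ℝ) ^ (128 * m) := (pow_mul _ _ _).symm
      _ ≤ (1 / 2 : ℝ) ^ (2 * n ^ 2) := pow_le_pow_of_le_one (by norm_num) (by norm_num) (by omega)
  have h4 : (16 * (n : ℝ) ^ 2) ^ n ≤ 2 ^ (n ^ 2) := by
    have h5 : 16 * (n : ℝ) ^ 2 ≤ 2 ^ n := by exact_mod_cast p2c_num n hn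
    calc (16 * (n : ℝ) ^ 2) ^ n ≤ ((2 : ℝ) ^ n) ^ n := pow_le_pow_left₀ (by positivity) h5 n
      _ = 2 ^ (n ^ 2) := by rw [← pow_mul, pow_two]
  have h6 : (2 : ℝ) ^ (n ^ 2) * (1 / 2) ^ (2 * n ^ 2) * 2 ^ (n ^ 2) = 1 := by
    have : (2 : ℝ) ^ (n ^ 2) * (1 / 2) ^ (2 * n ^ 2) * 2 ^ (n ^ 2) =
        2 ^ (2 * n ^ 2) * (1 / 2) ^ (2 * n ^ 2) := by
      rw [two_mul, pow_add 2]
      ring
    rw [this, ← mul_pow]
    norm_num
  calc (4 : ℝ) ^ n * ((n : ℝ) ^ n) ^ 2 * 2 ^ (n ^ 2) * ((n : ℝ) / q) ^ m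
      ≤ (4 : ℝ) ^ n * ((n : ℝ) ^ n) ^ 2 * 2 ^ (n ^ 2) * (1 / 2) ^ (2 * n ^ 2) :=
        mul_le_mul_of_nonneg_left h3 (by positivity)
    _ = (1 / 4) ^ n * ((2 : ℝ) ^ (n ^ 2) * (1 / 2) ^ (2 * n ^ 2) * (16 * (n : ℝ) ^ 2) ^ n) := by
        have e1 : (16 * (n : ℝ) ^ 2) ^ n = 4 ^ n * 4 ^ n * ((n : ℝ) ^ n) ^ 2 := by
          rw [mul_pow, show (16 : ℝ) = 4 * 4 by norm_num, mul_pow, ← pow_mul, ← pow_mul,
            mul_comm 2 n]
        have e2 : (1 / 4 : ℝ) ^ n * 4 ^ n = 1 := by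
          rw [← mul_pow]
          norm_num
        rw [e1]
        linear_combination (-(4 : ℝ) ^ n * ((n : ℝ) ^ n) ^ 2 * 2 ^ (n ^ 2) *
          (1 / 2) ^ (2 * n ^ 2)) * e2
    _ ≤ (1 / 4) ^ n * ((2 : ℝ) ^ (n ^ 2) * (1 / 2) ^ (2 * n ^ 2) * 2 ^ (n ^ 2)) := by
        apply mul_le_mul_of_nonneg_left _ (by positivity)
        exact mul_le_mul_of_nonneg_left h4 (by positivity)
    _ = (1 / 4) ^ n := by rw [h6, mul_one]

open Classical in
theorem p2c {n q : ℕ} (hn : 12 ≤ n) (hq : (n : ℝ) * 2 ^ 128 ≤ q) :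
    ((univ.filter fun χ : V n → Fin q => E2f χ).card : ℝ) ≤ (1 / 4) ^ n * (q : ℝ) ^ (2 ^ n) := by
  have hnr : (0 : ℝ) < n := by exact_mod_cast (by omega : 0 < n)
  have hq0 : (0 : ℝ) < q := lt_of_lt_of_le (by positivity) hq
  have hqn : 0 < q := by exact_mod_cast hq0
  set K := V n × V n × (Fin n → Fin n) × (Fin n → Fin n) × Finset (Fin n × Fin n) with hK
  set s : K → Fin n × Fin n → V n := fun κ r => fl (fl κ.2.1 (κ.2.2.2.1 r.1)) (κ.2.2.2.1 r.2)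
    with hs
  set Z : K → Fin n × Fin n → Fin n → V n := fun κ r i =>
    fl (fl (fl κ.1 (κ.2.2.1 r.1)) (κ.2.2.1 r.2)) i with hZ
  set E : K → Finset (V n → Fin q) := fun κ => univ.filter fun χ : V n → Fin q =>
    ∃ z : Fin n × Fin n → Fin n,
      (∀ r ∈ κ.2.2.2.2, ∀ r' ∈ κ.2.2.2.2, Z κ r (z r) ≠ s κ r') ∧
        ∀ r ∈ κ.2.2.2.2, χ (s κ r) = χ (Z κ r (z r)) with hE
  set P : K → Prop := fun κ => n ^ 2 ≤ 64 * κ.2.2.2.2.card ∧
    ∀ r ∈ κ.2.2.2.2, ∀ r' ∈ κ.2.2.2.2, s κ r = s κ r' → r = r' with hP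
  set B : ℝ := (4 : ℝ) ^ n * ((n : ℝ) ^ n) ^ 2 * 2 ^ (n ^ 2) with hB
  have hB0 : 0 < B := by positivity
  set W : ℝ := (1 / 4) ^ n / B * (q : ℝ) ^ (2 ^ n) with hW
  have hW0 : 0 ≤ W := by positivity
  have hsub : (univ.filter fun χ : V n → Fin q => E2f χ) ⊆
      ((univ : Finset K).filter P).biUnion E := by
    intro χ hχ
    simp only [mem_filter, mem_univ, true_and] at hχ
    obtain ⟨y0, y1, f, h, R, z, h1, h2, h3, h4⟩ := hχ
    rw [Finset.mem_biUnion]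
    refine ⟨(y0, y1, f, h, R), ?_, ?_⟩
    · rw [Finset.mem_filter]
      exact ⟨mem_univ _, h1, h2⟩
    · simp only [hE, mem_filter, mem_univ, true_and]
      exact ⟨z, h3, h4⟩
  have hEc : ∀ κ ∈ (univ : Finset K).filter P, ((E κ).card : ℝ) ≤ W := by
    intro κ hκ
    rw [Finset.mem_filter] at hκ
    obtain ⟨_, hκ1, hκ2⟩ := hκ
    have h1 := p2_fix hqn κ.2.2.2.2 (s κ) (Z κ) hκ2
    refine h1.trans ?_
    apply mul_le_mul_of_nonneg_right _ (by positivity)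
    rw [le_div_iff₀ hB0, mul_comm]
    exact p2c_pow hn hq hκ1
  have hKc : (((univ : Finset K).filter P).card : ℝ) ≤ B := by
    have h1 : ((univ : Finset K).filter P).card ≤ (univ : Finset K).card :=
      Finset.card_filter_le _ _
    have h2 : ((univ : Finset K).card : ℝ) = B := by
      exact p2_card n
    rw [← h2]
    exact_mod_cast h1
  calc _ ≤ ((((univ : Finset K).filter P).biUnion E).card : ℝ) := by
          exact_mod_cast Finset.card_le_card hsub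
    _ ≤ ∑ κ ∈ (univ : Finset K).filter P, ((E κ).card : ℝ) := by
          exact_mod_cast Finset.card_biUnion_le
    _ ≤ ∑ _κ ∈ (univ : Finset K).filter P, W := Finset.sum_le_sum hEc
    _ = (((univ : Finset K).filter P).card : ℝ) * W := by
          rw [Finset.sum_const, nsmul_eq_mul]
    _ ≤ B * W := mul_le_mul_of_nonneg_right hKc hW0
    _ = (1 / 4) ^ n * (q : ℝ) ^ (2 ^ n) := by
          rw [hW, ← mul_assoc, mul_div_cancel₀ _ hB0.ne']

end Pool.Agent.SH
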