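import Pool.Agent.SH.Pr0

set_option autoImplicit false

namespace Pool.Agent.SH

open Finset

open Classical in
/-- The union bound over all choices of the sets. -/
theorem ub {n q : ℕ} (hq : 0 < q) (𝒯 : Finset (V n)) (F : V n → Finset (Finset (V n)))
    (hF : ∀ T ∈ 𝒯, ∀ D ∈ F T, D.Nonempty) :
    ((univ.filter fun χ : V n → Fin q => ∃ D : V n → Finset (V n), (∀ T ∈ 𝒯, D T ∈ F T) ∧
      (∀ T ∈ 𝒯, ∀ T' ∈ 𝒯, T ≠ T' → Disjoint (D T) (D T')) ∧ ∀ T ∈ 𝒯, Mono χ (D T)).card : ℝ)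
      ≤ (q : ℝ) ^ (2 ^ n) * ∏ T ∈ 𝒯, ∑ D ∈ F T, ((1 : ℝ) / q) ^ (D.card - 1) := by
  have hq0 : (0 : ℝ) < q := by exact_mod_cast hq
  set fam : (∀ i ∈ 𝒯, Finset (V n)) → V n → Finset (V n) :=
    fun p i => if h : i ∈ 𝒯 then p i h else ∅ with hfam
  set 𝒟 : Finset (∀ i ∈ 𝒯, Finset (V n)) := (𝒯.pi F).filter fun p =>
    ∀ i ∈ 𝒯, ∀ j ∈ 𝒯, i ≠ j → Disjoint (fam p i) (fam p j) with hD
  have hsub : (univ.filter fun χ : V n → Fin q => ∃ D : V n → Finset (V n),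
      (∀ T ∈ 𝒯, D T ∈ F T) ∧
      (∀ T ∈ 𝒯, ∀ T' ∈ 𝒯, T ≠ T' → Disjoint (D T) (D T')) ∧ ∀ T ∈ 𝒯, Mono χ (D T)) ⊆
      𝒟.biUnion fun p => univ.filter fun χ : V n → Fin q => ∀ T ∈ 𝒯, Mono χ (fam p T) := by
    intro χ hχ
    simp only [mem_filter, mem_univ, true_and] at hχ
    obtain ⟨P, h1, h2, h3⟩ := hχ
    rw [Finset.mem_biUnion]
    have hPf : ∀ i ∈ 𝒯, fam (fun i _ => P i) i = P i := by
      intro i hi
      simp only [hfam, dif_pos hi]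
    refine ⟨fun i _ => P i, ?_, ?_⟩
    · rw [hD, Finset.mem_filter, Finset.mem_pi]
      refine ⟨fun i hi => h1 i hi, ?_⟩
      intro i hi j hj hij
      rw [hPf i hi, hPf j hj]
      exact h2 i hi j hj hij
    · simp only [mem_filter, mem_univ, true_and]
      intro i hi
      rw [hPf i hi]
      exact h3 i hi
  have hle : ∀ p ∈ 𝒟, ((univ.filter fun χ : V n → Fin q =>
        ∀ T ∈ 𝒯, Mono χ (fam p T)).card : ℝ) ≤
      (q : ℝ) ^ (2 ^ n) * ∏ i ∈ 𝒯.attach, ((1 : ℝ) / q) ^ ((p i.1 i.2).card - 1) := by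
    intro p hp
    rw [hD, Finset.mem_filter, Finset.mem_pi] at hp
    have hfp : ∀ i (hi : i ∈ 𝒯), fam p i = p i hi := by
      intro i hi
      simp only [hfam, dif_pos hi]
    have h := prD (q := q) 𝒯 (fam p) (by
      intro i hi
      rw [hfp i hi]
      exact hF i hi _ (hp.1 i hi)) hp.2
    have h' : ((univ.filter fun χ : V n → Fin q =>
        ∀ T ∈ 𝒯, Mono χ (fam p T)).card : ℝ) * (q : ℝ) ^ (∑ T ∈ 𝒯, ((fam p T).card - 1)) ≤
        (q : ℝ) ^ (2 ^ n) := by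
      exact_mod_cast h
    have hprod : ∏ i ∈ 𝒯.attach, ((1 : ℝ) / q) ^ ((p i.1 i.2).card - 1) =
        ((q : ℝ) ^ (∑ T ∈ 𝒯, ((fam p T).card - 1)))⁻¹ := by
      rw [← Finset.prod_pow_eq_pow_sum, ← Finset.prod_inv_distrib, ← Finset.prod_attach 𝒯]
      apply Finset.prod_congr rfl
      intro i _
      rw [hfp i.1 i.2, one_div, inv_pow]
    rw [hprod, ← div_eq_mul_inv, le_div_iff₀ (by positivity)]
    exact h'
  calc _ ≤ ((𝒟.biUnion fun p => univ.filter fun χ : V n → Fin q =>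
        ∀ T ∈ 𝒯, Mono χ (fam p T)).card : ℝ) := by
          exact_mod_cast Finset.card_le_card hsub
    _ ≤ ∑ p ∈ 𝒟, ((univ.filter fun χ : V n → Fin q =>
        ∀ T ∈ 𝒯, Mono χ (fam p T)).card : ℝ) := by
          exact_mod_cast Finset.card_biUnion_le
    _ ≤ ∑ p ∈ 𝒟, (q : ℝ) ^ (2 ^ n) *
          ∏ i ∈ 𝒯.attach, ((1 : ℝ) / q) ^ ((p i.1 i.2).card - 1) := Finset.sum_le_sum hle
    _ ≤ ∑ p ∈ 𝒯.pi F, (q : ℝ) ^ (2 ^ n) *
          ∏ i ∈ 𝒯.attach, ((1 : ℝ) / q) ^ ((p i.1 i.2).card - 1) := by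
          apply Finset.sum_le_sum_of_subset_of_nonneg (Finset.filter_subset _ _)
          intro p _ _
          positivity
    _ = (q : ℝ) ^ (2 ^ n) * ∏ T ∈ 𝒯, ∑ D ∈ F T, ((1 : ℝ) / q) ^ (D.card - 1) := by
          rw [Finset.prod_sum, Finset.mul_sum]

end Pool.Agent.SH
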