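import Pool.Agent.SH.Fm
import Pool.Agent.SH.Pr

set_option autoImplicit false

namespace Pool.Agent.SH

open Finset

theorem p3a_fam_congr {n : ℕ} (k : ℕ) (x x' : V n → V n) (h : ∀ S : V n, S.card = k → x S = x' S)
    (T : V n) (hT : T.card = k + 1) : Fam k x T = Fam k x' T := by
  have he : ∀ t ∈ T, x (T.erase t) = x' (T.erase t) := by
    intro t ht
    apply h
    rw [Finset.card_erase_of_mem ht, hT]
    rfl
  have h1 : Fam1 k x T = Fam1 k x' T := by
    unfold Fam1
    apply Finset.filter_congr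
    intro D _
    apply and_congr_right
    intro _
    apply exists_congr
    intro i
    have : (T.image fun t => fl (x (T.erase t)) (i t)) =
        T.image fun t => fl (x' (T.erase t)) (i t) := by
      apply Finset.image_congr
      intro t ht
      simp only
      rw [he t (Finset.mem_coe.1 ht)]
    rw [this]
  have h2 : Fam2 x T = Fam2 x' T := by
    unfold Fam2
    apply Finset.filter_congr
    intro D _
    apply and_congr_right
    intro _
    constructor
    · rintro ⟨t, ht, t', ht', t'', ht'', v, v', h1, h2, h3, h4, h5⟩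
      exact ⟨t, ht, t', ht', t'', ht'', v, v', by rwa [← he t ht, ← he t' ht'],
        by rwa [← he t ht], by rwa [← he t' ht'], by rwa [← he t'' ht''], h5⟩
    · rintro ⟨t, ht, t', ht', t'', ht'', v, v', h1, h2, h3, h4, h5⟩
      exact ⟨t, ht, t', ht', t'', ht'', v, v', by rwa [he t ht, he t' ht'],
        by rwa [he t ht], by rwa [he t' ht'], by rwa [he t'' ht''], h5⟩
  unfold Fam
  rw [h1, h2]

open Classical in
/-- The number of colourings with a code, in finite form. -/
theorem p3a {n q : ℕ} (k : ℕ) (hk : 1 ≤ k) (hq : 0 < q) (c : ℝ) (hc : 0 < c)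
    (Z : ℝ) (hZ : (n : ℝ) ^ (k + 1) / (q : ℝ) ^ k + 2 * ((k : ℝ) + 1) ^ 3 * n / q ≤ Z)
    (hZ1 : Z ≤ 1) :
    ((univ.filter fun χ : V n → Fin q => Code3 k c χ).card : ℝ) ≤
      (q : ℝ) ^ (2 ^ n) * ((2 : ℝ) ^ (n * n.choose k) * 2 ^ (n.choose (k + 1)) *
        Z ^ (c * (n.choose (k + 1) : ℝ))) := by
  have hq0 : (0 : ℝ) < q := by exact_mod_cast hq
  have hZ0 : 0 ≤ Z := le_trans (by positivity) hZ
  set ext : ({S : V n // S.card = k} → V n) → V n → V n :=
    fun y S => if h : S.card = k then y ⟨S, h⟩ else ∅ with hext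
  set PP : Finset (Finset (V n)) := (powersetCard (k + 1) (univ : V n)).powerset.filter
    fun 𝒯 => c * (n.choose (k + 1) : ℝ) ≤ 𝒯.card with hPP
  set E : ({S : V n // S.card = k} → V n) → Finset (V n) → Finset (V n → Fin q) := fun y 𝒯 =>
    univ.filter fun χ : V n → Fin q => ∃ D : V n → Finset (V n),
      (∀ T ∈ 𝒯, D T ∈ Fam k (ext y) T) ∧
      (∀ T ∈ 𝒯, ∀ T' ∈ 𝒯, T ≠ T' → Disjoint (D T) (D T')) ∧ ∀ T ∈ 𝒯, Mono χ (D T) with hE
  have hsub : (univ.filter fun χ : V n → Fin q => Code3 k c χ) ⊆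
      (univ : Finset ({S : V n // S.card = k} → V n)).biUnion fun y => PP.biUnion fun 𝒯 => E y 𝒯 := by
    intro χ hχ
    simp only [mem_filter, mem_univ, true_and] at hχ
    obtain ⟨x, 𝒯, D, h1, h2, h3, h4, h5⟩ := hχ
    rw [Finset.mem_biUnion]
    refine ⟨fun S => x S.1, Finset.mem_univ _, ?_⟩
    rw [Finset.mem_biUnion]
    refine ⟨𝒯, ?_, ?_⟩
    · rw [hPP, Finset.mem_filter, Finset.mem_powerset]
      exact ⟨h1, h2⟩
    · simp only [hE, mem_filter, mem_univ, true_and]
      refine ⟨D, ?_, h4, h5⟩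
      intro T hT
      rw [p3a_fam_congr k (ext fun S => x S.1) x ?_ T (Finset.mem_powersetCard.1 (h1 hT)).2]
      · exact h3 T hT
      · intro S hS
        simp only [hext, dif_pos hS]
  have hEc : ∀ y, ∀ 𝒯 ∈ PP, ((E y 𝒯).card : ℝ) ≤
      (q : ℝ) ^ (2 ^ n) * Z ^ (c * (n.choose (k + 1) : ℝ)) := by
    intro y 𝒯 h𝒯
    rw [hPP, Finset.mem_filter, Finset.mem_powerset] at h𝒯
    have hub := ub hq 𝒯 (fun T => Fam k (ext y) T) (fun T _ D hD =>
      fam_nonempty k (ext y) T D hD)
    refine le_trans hub ?_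
    apply mul_le_mul_of_nonneg_left _ (by positivity)
    calc ∏ T ∈ 𝒯, ∑ D ∈ Fam k (ext y) T, ((1 : ℝ) / q) ^ (D.card - 1)
        ≤ ∏ _T ∈ 𝒯, Z := by
          apply Finset.prod_le_prod
          · intro T _
            apply Finset.sum_nonneg
            intro D _
            positivity
          · intro T hT
            exact (fam_weight k hk q hq (ext y) T
              (Finset.mem_powersetCard.1 (h𝒯.1 hT)).2).trans hZ
      _ = Z ^ ((𝒯.card : ℕ) : ℝ) := by
          rw [Finset.prod_const, Real.rpow_natCast]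
      _ ≤ Z ^ (c * (n.choose (k + 1) : ℝ)) :=
          Real.rpow_le_rpow_of_exponent_ge' hZ0 hZ1 (by positivity) h𝒯.2
  have hW : (0 : ℝ) ≤ (q : ℝ) ^ (2 ^ n) * Z ^ (c * (n.choose (k + 1) : ℝ)) := by positivity
  have hP : (PP.card : ℝ) ≤ 2 ^ (n.choose (k + 1)) := by
    have : PP.card ≤ 2 ^ (n.choose (k + 1)) := by
      refine (Finset.card_filter_le _ _).trans (le_of_eq ?_)
      rw [Finset.card_powerset, Finset.card_powersetCard, Finset.card_univ, Fintype.card_fin]
    exact_mod_cast this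
  have hY : ((univ : Finset ({S : V n // S.card = k} → V n)).card : ℝ) =
      2 ^ (n * n.choose k) := by
    rw [Finset.card_univ, Fintype.card_fun, Fintype.card_finset_len, Fintype.card_fin,
      pr0_cardV, pow_mul]
    push_cast
    rfl
  calc _ ≤ (((univ : Finset ({S : V n // S.card = k} → V n)).biUnion
        fun y => PP.biUnion fun 𝒯 => E y 𝒯).card : ℝ) := by
          exact_mod_cast Finset.card_le_card hsub
    _ ≤ ∑ y : ({S : V n // S.card = k} → V n), ((PP.biUnion fun 𝒯 => E y 𝒯).card : ℝ) := by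
          exact_mod_cast Finset.card_biUnion_le
    _ ≤ ∑ y : ({S : V n // S.card = k} → V n), ∑ 𝒯 ∈ PP, ((E y 𝒯).card : ℝ) := by
          apply Finset.sum_le_sum
          intro y _
          exact_mod_cast Finset.card_biUnion_le
    _ ≤ ∑ _y : ({S : V n // S.card = k} → V n), ∑ _𝒯 ∈ PP,
          (q : ℝ) ^ (2 ^ n) * Z ^ (c * (n.choose (k + 1) : ℝ)) := by
          apply Finset.sum_le_sum
          intro y _
          exact Finset.sum_le_sum (hEc y)
    _ = 2 ^ (n * n.choose k) * ((PP.card : ℝ) *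
          ((q : ℝ) ^ (2 ^ n) * Z ^ (c * (n.choose (k + 1) : ℝ)))) := by
          rw [Finset.sum_const, Finset.sum_const, nsmul_eq_mul, nsmul_eq_mul, hY]
    _ ≤ 2 ^ (n * n.choose k) * (2 ^ (n.choose (k + 1)) *
          ((q : ℝ) ^ (2 ^ n) * Z ^ (c * (n.choose (k + 1) : ℝ)))) := by
          apply mul_le_mul_of_nonneg_left _ (by positivity)
          exact mul_le_mul_of_nonneg_right hP hW
    _ = _ := by ring

end Pool.Agent.SH
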