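import Pool.Agent.SH.Df

set_option autoImplicit false

namespace Pool.Agent.SH

open Finset

open scoped Classical in
/-- Base case: the colours of the points of `Y` are determined by those outside `Y`. -/
theorem pr0_card_det_le {V : Type*} [Fintype V] (q : ℕ) (Y : Finset V) (ρ : V → V)
    (hρ : ∀ y ∈ Y, ρ y ∉ Y) :
    (univ.filter fun χ : V → Fin q => ∀ y ∈ Y, χ y = χ (ρ y)).card
      ≤ q ^ (Fintype.card V - Y.card) := by
  classical
  have hc : Fintype.card ({v // v ∉ Y} → Fin q) = q ^ (Fintype.card V - Y.card) := by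
    rw [Fintype.card_fun, Fintype.card_fin]
    congr 1
    rw [Fintype.card_subtype_compl]
    simp
  rw [← hc, ← Finset.card_univ]
  apply Finset.card_le_card_of_injOn (fun χ => fun v : {v // v ∉ Y} => χ v.1)
  · intro χ _
    exact Finset.mem_coe.2 (Finset.mem_univ _)
  · intro χ hχ χ' hχ' h
    simp only [coe_filter, mem_univ, true_and, Set.mem_ofPred_eq] at hχ hχ'
    have key : ∀ v, v ∉ Y → χ v = χ' v := fun v hv => congrFun h ⟨v, hv⟩
    funext v
    by_cases hv : v ∈ Y
    · rw [hχ v hv, hχ' v hv]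
      exact key _ (hρ v hv)
    · exact key v hv

open scoped Classical in
/-- A family of pairwise disjoint nonempty sets of positions, each of them monochromatic. -/
theorem pr0_card_fam_le {V I : Type*} [Fintype V] (q : ℕ) (J : Finset I)
    (P : I → Finset V) (hne : ∀ i ∈ J, (P i).Nonempty)
    (hdis : ∀ i ∈ J, ∀ j ∈ J, i ≠ j → Disjoint (P i) (P j)) :
    (univ.filter fun χ : V → Fin q => ∀ i ∈ J, ∀ a ∈ P i, ∀ b ∈ P i, χ a = χ b).card
      ≤ q ^ (Fintype.card V - ∑ i ∈ J, ((P i).card - 1)) ∧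
      ∑ i ∈ J, ((P i).card - 1) ≤ Fintype.card V := by
  classical
  rcases J.eq_empty_or_nonempty with hJ | ⟨i0, hi0⟩
  · subst hJ
    refine ⟨?_, by simp⟩
    calc (univ.filter fun χ : V → Fin q => ∀ i ∈ (∅ : Finset I), ∀ a ∈ P i, ∀ b ∈ P i,
          χ a = χ b).card ≤ (univ : Finset (V → Fin q)).card :=
            Finset.card_le_card (Finset.filter_subset _ _)
      _ = q ^ (Fintype.card V - ∑ i ∈ (∅ : Finset I), ((P i).card - 1)) := by
            rw [Finset.card_univ, Fintype.card_fun, Fintype.card_fin]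
            simp
  · have hV : Nonempty V := ⟨(hne i0 hi0).choose⟩
    set r : I → V := fun i => if h : i ∈ J then (hne i h).choose else hV.some with hr
    have hrP : ∀ i ∈ J, r i ∈ P i := by
      intro i hi
      simp only [hr, dif_pos hi]
      exact (hne i hi).choose_spec
    set Y : Finset V := J.biUnion fun i => (P i).erase (r i) with hY
    have hYc : Y.card = ∑ i ∈ J, ((P i).card - 1) := by
      rw [hY, Finset.card_biUnion]
      · apply Finset.sum_congr rfl
        intro i hi
        rw [Finset.card_erase_of_mem (hrP i hi)]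
      · intro i hi j hj hij
        exact Finset.disjoint_of_subset_left (Finset.erase_subset _ _)
          (Finset.disjoint_of_subset_right (Finset.erase_subset _ _) (hdis i hi j hj hij))
    set ρ : V → V := fun y => if h : ∃ i ∈ J, y ∈ P i then r h.choose else y with hρd
    have huniq : ∀ i ∈ J, ∀ j ∈ J, ∀ v, v ∈ P i → v ∈ P j → i = j := by
      intro i hi j hj v h1 h2
      by_contra hne'
      exact Finset.disjoint_left.1 (hdis i hi j hj hne') h1 h2
    have hρ : ∀ i ∈ J, ∀ y ∈ P i, ρ y = r i := by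
      intro i hi y hy
      have h : ∃ i ∈ J, y ∈ P i := ⟨i, hi, hy⟩
      simp only [hρd, dif_pos h]
      have hs := h.choose_spec
      rw [huniq _ hs.1 i hi y hs.2 hy]
    have hrY : ∀ i ∈ J, r i ∉ Y := by
      intro i hi hmem
      rw [hY, Finset.mem_biUnion] at hmem
      obtain ⟨j, hj, hm⟩ := hmem
      rw [Finset.mem_erase] at hm
      have := huniq i hi j hj (r i) (hrP i hi) hm.2
      subst this
      exact hm.1 rfl
    rw [← hYc]
    refine ⟨?_, Finset.card_le_univ Y⟩
    refine le_trans (Finset.card_le_card ?_) (pr0_card_det_le q Y ρ ?_)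
    · intro χ hχ
      simp only [mem_filter, mem_univ, true_and] at hχ ⊢
      intro y hy
      rw [hY, Finset.mem_biUnion] at hy
      obtain ⟨i, hi, hm⟩ := hy
      have hyP := Finset.mem_of_mem_erase hm
      rw [hρ i hi y hyP]
      exact hχ i hi y hyP _ (hrP i hi)
    · intro y hy
      rw [hY, Finset.mem_biUnion] at hy
      obtain ⟨i, hi, hm⟩ := hy
      rw [hρ i hi y (Finset.mem_of_mem_erase hm)]
      exact hrY i hi

theorem pr0_cardV (n : ℕ) : Fintype.card (V n) = 2 ^ n := by
  simp [V]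

/-- The number of elements does not depend on the instances. -/
theorem pr0_inst {α : Type*} (F1 F2 : Fintype α) (p : α → Prop) (d1 d2 : DecidablePred p) :
    (@Finset.filter α p d1 (@Finset.univ α F1)).card =
      (@Finset.filter α p d2 (@Finset.univ α F2)).card := by
  have h : F1 = F2 := Subsingleton.elim _ _
  subst h
  have h' : d1 = d2 := Subsingleton.elim _ _
  subst h'
  rfl

/-- Colourings with `χ a = χ (f a)` on `A`, where `f` maps `A` outside `A`. -/
theorem pr {n q : ℕ} (A : Finset (V n)) (f : V n → V n) (h : ∀ a ∈ A, f a ∉ A) :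
    (univ.filter fun χ : V n → Fin q => ∀ a ∈ A, χ a = χ (f a)).card * q ^ A.card
      ≤ q ^ (2 ^ n) := by
  classical
  have h1 := pr0_card_det_le q A f h
  have hA : A.card ≤ 2 ^ n := by
    rw [← pr0_cardV n]
    exact Finset.card_le_univ A
  rw [pr0_cardV] at h1
  calc _ ≤ q ^ (2 ^ n - A.card) * q ^ A.card := by
        apply Nat.mul_le_mul_right
        exact (pr0_inst _ _ _ _ _).trans_le h1
    _ = q ^ (2 ^ n) := by
        rw [← pow_add, Nat.sub_add_cancel hA]

/-- Colourings constant on disjoint sets. -/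
theorem prD {n q : ℕ} (𝒯 : Finset (V n)) (D : V n → Finset (V n)) (hne : ∀ T ∈ 𝒯, (D T).Nonempty)
    (hd : ∀ T ∈ 𝒯, ∀ T' ∈ 𝒯, T ≠ T' → Disjoint (D T) (D T')) :
    (open Classical in
      (univ.filter fun χ : V n → Fin q => ∀ T ∈ 𝒯, Mono χ (D T)).card) *
        q ^ (∑ T ∈ 𝒯, ((D T).card - 1)) ≤ q ^ (2 ^ n) := by
  classical
  obtain ⟨h1, h2⟩ := pr0_card_fam_le q 𝒯 D hne hd
  rw [pr0_cardV] at h1 h2
  calc _ ≤ q ^ (2 ^ n - ∑ T ∈ 𝒯, ((D T).card - 1)) * q ^ (∑ T ∈ 𝒯, ((D T).card - 1)) := by
        apply Nat.mul_le_mul_right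
        exact (pr0_inst _ _ _ _ _).trans_le h1
    _ = q ^ (2 ^ n) := by
        rw [← pow_add, Nat.sub_add_cancel h2]

end Pool.Agent.SH
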