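import Pool.Agent.SH.Cb

set_option autoImplicit false

namespace Pool.Agent.SH

open Finset

/-- Ordered pairs of different indices, whose points are not at distance two. -/
def st_bad {ι : Type*} [DecidableEq ι] {n : ℕ} (x : ι → V n) (I : Finset ι) : Finset (ι × ι) :=
  (I ×ˢ I).filter fun p => p.1 ≠ p.2 ∧ (symmDiff (x p.1) (x p.2)).card ≠ 2

theorem st_comm {n : ℕ} (a b : V n) : (symmDiff a b).card = (symmDiff b a).card := by
  rw [symmDiff_comm]

/-- Two disjoint sets with few pairs at distance two give many bad pairs. -/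
theorem st_half {ι : Type*} [DecidableEq ι] {n : ℕ} (I : Finset ι) (x : ι → V n)
    (G1 G2 : Finset ι) (h1 : G1 ⊆ I) (h2 : G2 ⊆ I) (hd : Disjoint G1 G2)
    (hu : ∀ d ∈ G2, ∀ y ∈ G1, ∀ y' ∈ G1, (symmDiff (x y) (x d)).card = 2 →
      (symmDiff (x y') (x d)).card = 2 → y = y') :
    2 * (G2.card * (G1.card - 1)) ≤ (st_bad x I).card := by
  classical
  set S1 : Finset (ι × ι) := (G1 ×ˢ G2).filter fun p => (symmDiff (x p.1) (x p.2)).card ≠ 2 with hS1
  set S2 : Finset (ι × ι) := (G2 ×ˢ G1).filter fun p => (symmDiff (x p.1) (x p.2)).card ≠ 2 with hS2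
  have hne : ∀ a ∈ G1, ∀ b ∈ G2, a ≠ b := fun a ha b hb hab =>
    (Finset.disjoint_left.1 hd ha) (hab ▸ hb)
  have hsub1 : S1 ⊆ st_bad x I := by
    intro p hp
    rw [hS1, Finset.mem_filter, Finset.mem_product] at hp
    unfold st_bad
    rw [Finset.mem_filter, Finset.mem_product]
    exact ⟨⟨h1 hp.1.1, h2 hp.1.2⟩, hne _ hp.1.1 _ hp.1.2, hp.2⟩
  have hsub2 : S2 ⊆ st_bad x I := by
    intro p hp
    rw [hS2, Finset.mem_filter, Finset.mem_product] at hp
    unfold st_bad
    rw [Finset.mem_filter, Finset.mem_product]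
    exact ⟨⟨h2 hp.1.1, h1 hp.1.2⟩, (hne _ hp.1.2 _ hp.1.1).symm, hp.2⟩
  have hdis : Disjoint S1 S2 := by
    rw [Finset.disjoint_left]
    intro p hp1 hp2
    rw [hS1, Finset.mem_filter, Finset.mem_product] at hp1
    rw [hS2, Finset.mem_filter, Finset.mem_product] at hp2
    exact Finset.disjoint_left.1 hd hp1.1.1 hp2.1.1
  have hS12 : S1.card = S2.card := by
    apply Finset.card_bij (fun p _ => (p.2, p.1))
    · intro p hp
      rw [hS1, Finset.mem_filter, Finset.mem_product] at hp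
      rw [hS2, Finset.mem_filter, Finset.mem_product]
      refine ⟨⟨hp.1.2, hp.1.1⟩, ?_⟩
      rw [st_comm]
      exact hp.2
    · intro p _ q _ h
      simp only [Prod.mk.injEq] at h
      exact Prod.ext h.2 h.1
    · intro p hp
      rw [hS2, Finset.mem_filter, Finset.mem_product] at hp
      refine ⟨(p.2, p.1), ?_, rfl⟩
      rw [hS1, Finset.mem_filter, Finset.mem_product]
      refine ⟨⟨hp.1.2, hp.1.1⟩, ?_⟩
      rw [st_comm]
      exact hp.2
  have hlow : G2.card * (G1.card - 1) ≤ S2.card := by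
    have e1 : S2.card = ∑ d ∈ G2, (G1.filter fun y => (symmDiff (x d) (x y)).card ≠ 2).card := by
      rw [hS2, Finset.card_filter, Finset.sum_product]
      refine Finset.sum_congr rfl fun d _ => ?_
      rw [Finset.card_filter]
    rw [e1, ← smul_eq_mul]
    apply Finset.card_nsmul_le_sum
    intro d hd'
    have e2 := Finset.card_filter_add_card_filter_not (s := G1)
      (fun y => (symmDiff (x d) (x y)).card ≠ 2)
    have e3 : (G1.filter fun y => ¬ (symmDiff (x d) (x y)).card ≠ 2).card ≤ 1 := by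
      rw [Finset.card_le_one]
      intro a ha b hb
      rw [Finset.mem_filter] at ha hb
      apply hu d hd' a ha.1 b hb.1
      · rw [st_comm]
        exact not_not.1 ha.2
      · rw [st_comm]
        exact not_not.1 hb.2
    omega
  have h3 : (S1 ∪ S2).card ≤ (st_bad x I).card := Finset.card_le_card (Finset.union_subset hsub1 hsub2)
  rw [Finset.card_union_of_disjoint hdis] at h3
  omega

/-- The arithmetic. -/
theorem st_num {m B b0 b1 g0 g g1 g2 : ℕ} (hm : 20 ≤ m) (hB : 20 * B ≤ m ^ 2)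
    (hb0 : m * b0 ≤ B) (hg0 : m ≤ g0 + 1 + b0) (hb1 : g0 * b1 ≤ B) (hg : g0 ≤ g + 1 + b1)
    (hg12 : g = g1 + g2) (hle : g2 ≤ g1) (h2 : 2 * (g2 * (g1 - 1)) ≤ B) :
    m ^ 2 ≤ m * g1 + 5 * B + 3 * m := by
  subst hg12
  have hb0m : 20 * b0 ≤ m := by
    by_contra h
    push Not at h
    have : m * m < m * (20 * b0) := by
      apply Nat.mul_lt_mul_of_pos_left h
      omega
    nlinarith
  have hg0m : m ≤ 2 * g0 := by omega
  have hmb1 : m * b1 ≤ 2 * B := by
    calc m * b1 ≤ (2 * g0) * b1 := Nat.mul_le_mul_right _ hg0m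
      _ = 2 * (g0 * b1) := by ring
      _ ≤ 2 * B := by omega
  have hb1m : 10 * b1 ≤ m := by
    by_contra h
    push Not at h
    have : m * m < m * (10 * b1) := by
      apply Nat.mul_lt_mul_of_pos_left h
      omega
    nlinarith
  have hg1 : m ≤ 4 * (g1 - 1) := by omega
  have hmg2 : m * g2 ≤ 2 * B := by
    calc m * g2 ≤ (4 * (g1 - 1)) * g2 := Nat.mul_le_mul_right _ hg1
      _ = 2 * (2 * (g2 * (g1 - 1))) := by ring
      _ ≤ 2 * B := by omega
  have h5 : m ≤ g1 + g2 + b0 + b1 + 2 := by omega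
  have h6 : m * m ≤ m * (g1 + g2 + b0 + b1 + 2) := Nat.mul_le_mul_left _ h5
  have h7 : m * (g1 + g2 + b0 + b1 + 2) = m * g1 + m * g2 + m * b0 + m * b1 + m * 2 := by ring
  rw [sq]
  omega

/-- Points almost all of which are at distance two lie in a star. -/
theorem star {ι : Type*} [DecidableEq ι] {n : ℕ} (I : Finset ι) (x : ι → V n)
    (hx : ∀ a ∈ I, ∀ b ∈ I, x a = x b → a = b) (hI : 20 ≤ I.card)
    (hB : 20 * ((I ×ˢ I).filter fun p => p.1 ≠ p.2 ∧ (symmDiff (x p.1) (x p.2)).card ≠ 2).card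
      ≤ I.card ^ 2) :
    ∃ y : V n, I.card ^ 2 ≤ I.card * (I.filter fun a => adj y (x a)).card +
      5 * ((I ×ˢ I).filter fun p => p.1 ≠ p.2 ∧ (symmDiff (x p.1) (x p.2)).card ≠ 2).card +
      3 * I.card := by
  classical
  change 20 * (st_bad x I).card ≤ I.card ^ 2 at hB
  change ∃ y : V n, I.card ^ 2 ≤ I.card * (I.filter fun a => adj y (x a)).card +
      5 * (st_bad x I).card + 3 * I.card
  set bd : ι → Finset ι := fun a => I.filter fun c => a ≠ c ∧ (symmDiff (x a) (x c)).card ≠ 2 with hbd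
  have hsum : ∑ a ∈ I, (bd a).card = (st_bad x I).card := by
    unfold st_bad
    rw [Finset.card_filter, Finset.sum_product]
    refine Finset.sum_congr rfl fun a _ => ?_
    rw [hbd, Finset.card_filter]
  have hIne : I.Nonempty := Finset.card_pos.1 (by omega)
  obtain ⟨a0, ha0, hmin0⟩ := Finset.exists_min_image I (fun a => (bd a).card) hIne
  have hb0 : I.card * (bd a0).card ≤ (st_bad x I).card := by
    rw [← hsum, ← smul_eq_mul]
    exact Finset.card_nsmul_le_sum _ _ _ fun a ha => hmin0 a ha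
  set G0 : Finset ι := I.filter fun c => a0 ≠ c ∧ (symmDiff (x a0) (x c)).card = 2 with hG0
  have hG0c : I.card ≤ G0.card + 1 + (bd a0).card := by
    have hsub : I ⊆ (G0 ∪ {a0}) ∪ bd a0 := by
      intro c hc
      simp only [hG0, hbd, Finset.mem_union, Finset.mem_filter, Finset.mem_singleton]
      by_cases h1 : c = a0
      · exact Or.inl (Or.inr h1)
      · by_cases h2 : (symmDiff (x a0) (x c)).card = 2
        · exact Or.inl (Or.inl ⟨hc, fun h => h1 h.symm, h2⟩)
        · exact Or.inr ⟨hc, fun h => h1 h.symm, h2⟩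
    have h1 := Finset.card_le_card hsub
    have h2 := Finset.card_union_le (G0 ∪ {a0}) (bd a0)
    have h3 := Finset.card_union_le G0 {a0}
    rw [Finset.card_singleton] at h3
    omega
  have hb0m : 20 * (bd a0).card ≤ I.card := by
    by_contra h
    push Not at h
    have : I.card * I.card < I.card * (20 * (bd a0).card) := by
      apply Nat.mul_lt_mul_of_pos_left h
      omega
    nlinarith
  have hG0ne : G0.Nonempty := Finset.card_pos.1 (by omega)
  obtain ⟨c0, hc0, hmin1⟩ := Finset.exists_min_image G0 (fun a => (bd a).card) hG0ne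
  have hG0I : G0 ⊆ I := Finset.filter_subset _ _
  have hb1 : G0.card * (bd c0).card ≤ (st_bad x I).card := by
    rw [← hsum]
    calc G0.card * (bd c0).card ≤ ∑ a ∈ G0, (bd a).card := by
          rw [← smul_eq_mul]
          exact Finset.card_nsmul_le_sum _ _ _ fun a ha => hmin1 a ha
      _ ≤ _ := Finset.sum_le_sum_of_subset hG0I
  set G : Finset ι := G0.filter fun c => c0 ≠ c ∧ (symmDiff (x c0) (x c)).card = 2 with hG
  have hGc : G0.card ≤ G.card + 1 + (bd c0).card := by
    have hsub : G0 ⊆ (G ∪ {c0}) ∪ bd c0 := by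
      intro c hc
      rw [Finset.mem_union, Finset.mem_union, Finset.mem_singleton]
      by_cases h1 : c = c0
      · exact Or.inl (Or.inr h1)
      · by_cases h2 : (symmDiff (x c0) (x c)).card = 2
        · left
          left
          rw [hG, Finset.mem_filter]
          exact ⟨hc, fun h => h1 h.symm, h2⟩
        · right
          rw [hbd, Finset.mem_filter]
          exact ⟨hG0I hc, fun h => h1 h.symm, h2⟩
    have h1 := Finset.card_le_card hsub
    have h2 := Finset.card_union_le (G ∪ {c0}) (bd c0)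
    have h3 := Finset.card_union_le G {c0}
    rw [Finset.card_singleton] at h3
    omega
  have hc0' := hc0
  rw [hG0, Finset.mem_filter] at hc0'
  obtain ⟨hc0I, hac0, hd0⟩ := hc0'
  obtain ⟨v1, v2, hv, h1, h2, h3, h4, -⟩ := common_two hd0
  have hxac : x a0 ≠ x c0 := fun h => hac0 (hx _ ha0 _ hc0I h)
  -- the two halves
  set G1 : Finset ι := G.filter fun c => adj v1 (x c) with hG1
  set G2 : Finset ι := G.filter fun c => ¬ adj v1 (x c) with hG2
  have hGI : G ⊆ I := (Finset.filter_subset _ _).trans hG0I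
  have hG1I : G1 ⊆ I := (Finset.filter_subset _ _).trans hGI
  have hG2I : G2 ⊆ I := (Finset.filter_subset _ _).trans hGI
  have hdis : Disjoint G1 G2 := Finset.disjoint_filter_filter_not _ _ _
  have hcard : G.card = G1.card + G2.card := (Finset.card_filter_add_card_filter_not _).symm
  have hGd : ∀ c ∈ G, (symmDiff (x a0) (x c)).card = 2 ∧ (symmDiff (x c0) (x c)).card = 2 := by
    intro c hc
    rw [hG, Finset.mem_filter, hG0, Finset.mem_filter] at hc
    exact ⟨hc.1.2.2, hc.2.2⟩
  have hG1v : ∀ c ∈ G1, c ∈ G ∧ adj v1 (x c) := by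
    intro c hc
    rw [hG1, Finset.mem_filter] at hc
    exact hc
  have hG2v : ∀ c ∈ G2, c ∈ G ∧ adj v2 (x c) := by
    intro c hc
    rw [hG2, Finset.mem_filter] at hc
    refine ⟨hc.1, ?_⟩
    rcases near_two hv h1 h2 h3 h4 hxac (hGd c hc.1).1 (hGd c hc.1).2 with h | h
    · exact absurd h hc.2
    · exact h
  have hu1 : ∀ d ∈ G2, ∀ y ∈ G1, ∀ y' ∈ G1, (symmDiff (x y) (x d)).card = 2 →
      (symmDiff (x y') (x d)).card = 2 → y = y' := by
    intro d hd y hy y' hy' hyd hyd'
    obtain ⟨hdG, hdv⟩ := hG2v d hd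
    obtain ⟨hyG, hyv⟩ := hG1v y hy
    obtain ⟨hyG', hyv'⟩ := hG1v y' hy'
    apply hx _ (hGI hyG) _ (hGI hyG')
    exact near_unique hv h1 h2 h3 h4 hxac (hGd y hyG).1 (hGd y hyG).2 (hGd y' hyG').1
      (hGd y' hyG').2 (hGd d hdG).1 (hGd d hdG).2 hyv hyv' hdv hyd hyd'
  have hu2 : ∀ d ∈ G1, ∀ y ∈ G2, ∀ y' ∈ G2, (symmDiff (x y) (x d)).card = 2 →
      (symmDiff (x y') (x d)).card = 2 → y = y' := by
    intro d hd y hy y' hy' hyd hyd'
    obtain ⟨hdG, hdv⟩ := hG1v d hd
    obtain ⟨hyG, hyv⟩ := hG2v y hy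
    obtain ⟨hyG', hyv'⟩ := hG2v y' hy'
    apply hx _ (hGI hyG) _ (hGI hyG')
    exact near_unique hv.symm h3 h4 h1 h2 hxac (hGd y hyG).1 (hGd y hyG).2 (hGd y' hyG').1
      (hGd y' hyG').2 (hGd d hdG).1 (hGd d hdG).2 hyv hyv' hdv hyd hyd'
  rcases le_total G2.card G1.card with hle | hle
  · refine ⟨v1, ?_⟩
    have h5 := st_half I x G1 G2 hG1I hG2I hdis hu1
    have h6 := st_num hI hB hb0 hG0c hb1 hGc hcard hle h5
    have h7 : G1.card ≤ (I.filter fun a => adj v1 (x a)).card := by
      apply Finset.card_le_card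
      intro c hc
      rw [Finset.mem_filter]
      exact ⟨hG1I hc, (hG1v c hc).2⟩
    have h8 : I.card * G1.card ≤ I.card * (I.filter fun a => adj v1 (x a)).card :=
      Nat.mul_le_mul_left _ h7
    omega
  · refine ⟨v2, ?_⟩
    have h5 := st_half I x G2 G1 hG2I hG1I hdis.symm hu2
    have h6 := st_num hI hB hb0 hG0c hb1 hGc (by rw [hcard, add_comm]) hle h5
    have h7 : G2.card ≤ (I.filter fun a => adj v2 (x a)).card := by
      apply Finset.card_le_card
      intro c hc
      rw [Finset.mem_filter]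
      exact ⟨hG2I hc, (hG2v c hc).2⟩
    have h8 : I.card * G2.card ≤ I.card * (I.filter fun a => adj v2 (x a)).card :=
      Nat.mul_le_mul_left _ h7
    omega

end Pool.Agent.SH
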