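import Pool.Agent.SH.Nc

set_option autoImplicit false

namespace Pool.Agent.SH

open Finset

/-- The bad pairs at `S`. -/
def topB {n : ℕ} (σ : Equiv.Perm (V n)) (w0 S : V n) : Finset (Fin n × Fin n) :=
  (Sᶜ ×ˢ Sᶜ).filter fun p => p.1 ≠ p.2 ∧
    (symmDiff (σ (fl (symmDiff w0 S) p.1)) (σ (fl (symmDiff w0 S) p.2))).card ≠ 2

theorem top_bad {n k : ℕ} (hk : 1 ≤ k) (σ : Equiv.Perm (V n)) (w0 S : V n)
    (hS : S.card = k - 1) (a c : Fin n) (h : (a, c) ∈ topB σ w0 S) :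
    insert a (insert c S) ∈ badT k (fun S => σ (symmDiff w0 S)) := by
  classical
  simp only [topB, mem_filter, mem_product, mem_compl] at h
  obtain ⟨⟨ha, hc⟩, hac, h2⟩ := h
  rw [badT, mem_filter, mem_powersetCard]
  have hcS : (insert c S).card = k := by rw [card_insert_of_notMem hc, hS]; omega
  have haS : (insert a S).card = k := by rw [card_insert_of_notMem ha, hS]; omega
  have ha' : a ∉ insert c S := by
    rw [mem_insert, not_or]
    exact ⟨hac, ha⟩
  refine ⟨⟨subset_univ _, by rw [card_insert_of_notMem ha', hcS]⟩, ?_⟩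
  rintro ⟨v, hv⟩
  apply h2
  have h1 := hv (insert a S) haS (insert_subset_insert _ (subset_insert _ _))
  have h3 := hv (insert c S) hcS (subset_insert _ _)
  simp only [symmDiff_insert _ _ _ ha] at h1
  simp only [symmDiff_insert _ _ _ hc] at h3
  refine two_of_common ?_ h1 h3
  intro he
  exact hac (fl_inj.1 (σ.injective he))

theorem top_mem {n : ℕ} {σ : Equiv.Perm (V n)} {w0 S : V n} {p : Fin n × Fin n}
    (h : p ∈ topB σ w0 S) : p.1 ∉ S ∧ p.2 ∉ S ∧ p.1 ≠ p.2 := by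
  simp only [topB, mem_filter, mem_product, mem_compl] at h
  exact ⟨h.1.1, h.1.2, h.2.1⟩

theorem top_sum {n k : ℕ} (hk : 1 ≤ k) (σ : Equiv.Perm (V n)) (w0 : V n) :
    ∑ S ∈ powersetCard (k - 1) (univ : Finset (Fin n)), (topB σ w0 S).card ≤
      (badT k fun S => σ (symmDiff w0 S)).card * ((k + 1) * k) := by
  classical
  have h1 : ((powersetCard (k - 1) (univ : Finset (Fin n))).sigma fun S => topB σ w0 S).card ≤
      ((badT k fun S => σ (symmDiff w0 S)).sigma fun T => T.offDiag).card := by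
    refine card_le_card_of_injOn
      (fun x => (⟨insert x.2.1 (insert x.2.2 x.1), x.2⟩ : Σ _ : V n, Fin n × Fin n)) ?_ ?_
    · intro x hx
      rw [mem_coe, mem_sigma, mem_powersetCard] at hx
      rw [mem_coe, mem_sigma, mem_offDiag]
      refine ⟨top_bad hk σ w0 x.1 hx.1.2 x.2.1 x.2.2 hx.2, ?_, ?_, (top_mem hx.2).2.2⟩
      · exact mem_insert_self _ _
      · exact mem_insert_of_mem (mem_insert_self _ _)
    · rintro ⟨S, p⟩ hx ⟨S', p'⟩ hy hxy
      rw [mem_coe, mem_sigma] at hx hy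
      have h2 := top_mem hx.2
      have h3 := top_mem hy.2
      simp only [Sigma.mk.injEq, heq_eq_eq] at hxy
      obtain ⟨h4, h5⟩ := hxy
      subst h5
      simp only at h2 h3 h4
      have e1 : ∀ R : V n, p.1 ∉ R → p.2 ∉ R →
          ((insert p.1 (insert p.2 R)).erase p.1).erase p.2 = R := by
        intro R hR1 hR2
        rw [erase_insert (by rw [mem_insert, not_or]; exact ⟨h2.2.2, hR1⟩), erase_insert hR2]
      have h6 := e1 S h2.1 h2.2.1
      rw [h4, e1 S' h3.1 h3.2.1] at h6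
      rw [h6]
  rw [card_sigma, card_sigma] at h1
  refine h1.trans (le_of_eq ?_)
  rw [sum_congr rfl (fun T hT => ?_), sum_const, smul_eq_mul]
  rw [badT, mem_filter, mem_powersetCard] at hT
  rw [offDiag_card, hT.1.2]
  have : (k + 1) * (k + 1) = (k + 1) * k + (k + 1) := by ring
  omega

theorem top_choose (n k : ℕ) (hk : 1 ≤ k) :
    n.choose (k + 1) * ((k + 1) * k) = n.choose (k - 1) * ((n - (k - 1)) * (n - k)) := by
  have h1 := Nat.choose_succ_right_eq n k
  have h2 := Nat.choose_succ_right_eq n (k - 1)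
  rw [Nat.sub_add_cancel hk] at h2
  calc n.choose (k + 1) * ((k + 1) * k) = (n.choose (k + 1) * (k + 1)) * k := by ring
    _ = (n.choose k * (n - k)) * k := by rw [h1]
    _ = (n.choose k * k) * (n - k) := by ring
    _ = (n.choose (k - 1) * (n - (k - 1))) * (n - k) := by rw [h2]
    _ = _ := by ring

/-- Level `k - 1`. -/
theorem lv_top (k : ℕ) (hk : 1 ≤ k) (κ η : ℝ) (hκ : 0 < κ) (hκ' : κ ≤ 1 / 100) (hη : 0 < η) :
    ∃ n0 : ℕ, ∀ n ≥ n0, ∀ (C : Type) (χ : V n → C) (σ : Equiv.Perm (V n))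
      (β : V n → V n → V n), Twin χ σ β → ¬ E1f χ →
      (∀ w0 : V n, ((badT k fun S => σ (symmDiff w0 S)).card : ℝ) ≤ η * n.choose (k + 1)) →
      Lv σ (k - 1) (6 * κ) (η / κ) := by
  classical
  refine ⟨max 100 (max (10 * k) ⌈((k : ℝ) + 2) / κ⌉₊), ?_⟩
  intro n hn C χ σ β ht h1 hbad w0
  have hn1 : 100 ≤ n := (le_max_left _ _).trans hn
  have hn2 : 10 * k ≤ n := (le_max_left _ _).trans ((le_max_right _ _).trans hn)
  have hn3 : ⌈((k : ℝ) + 2) / κ⌉₊ ≤ n := (le_max_right _ _).trans ((le_max_right _ _).trans hn)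
  have hnκ : (k : ℝ) + 2 ≤ κ * n := by
    have h2 : ((k : ℝ) + 2) / κ ≤ n := (Nat.le_ceil _).trans (by exact_mod_cast hn3)
    rw [div_le_iff₀ hκ] at h2
    linarith
  have hkn : k ≤ n := by omega
  obtain ⟨m, hm⟩ : ∃ m, m = n - (k - 1) := ⟨_, rfl⟩
  have hm1 : 1 ≤ m := by omega
  have hmR : (0 : ℝ) < m := by exact_mod_cast hm1
  have hnm : n - m = k - 1 := by omega
  have hcard : ∀ S ∈ powersetCard (k - 1) (univ : Finset (Fin n)), Sᶜ.card = m := by
    intro S hS
    rw [mem_powersetCard] at hS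
    rw [card_compl, Fintype.card_fin, hS.2, hm]
  -- the exceptional sets have many bad pairs
  have hsub : ((powersetCard (k - 1) (univ : V n)).filter fun S =>
      6 * κ * n < dfc σ (symmDiff w0 S)) ⊆
      (powersetCard (k - 1) (univ : V n)).filter fun S =>
        κ * (m : ℝ) ^ 2 < ((topB σ w0 S).card : ℝ) := by
    intro S hS
    rw [mem_filter] at hS ⊢
    refine ⟨hS.1, ?_⟩
    by_contra hB
    rw [not_lt] at hB
    have hc := hcard S hS.1
    have h20 : 20 * (topB σ w0 S).card ≤ Sᶜ.card ^ 2 := by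
      rw [hc]
      have : (20 : ℝ) * (topB σ w0 S).card ≤ (m : ℝ) ^ 2 := by nlinarith [sq_nonneg (m : ℝ)]
      exact_mod_cast this
    have h3 := nc ht h1 (symmDiff w0 S) Sᶜ hn1 (by rw [hc]; omega) h20
    have h4 : Sᶜ.card * dfc σ (symmDiff w0 S) ≤ 5 * (topB σ w0 S).card + 3 * Sᶜ.card +
      Sᶜ.card * (n - Sᶜ.card) := h3
    rw [hc, hnm] at h4
    have h5 : (m : ℝ) * dfc σ (symmDiff w0 S) ≤ 5 * (topB σ w0 S).card + 3 * m +
        m * ((k - 1 : ℕ) : ℝ) := by exact_mod_cast h4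
    have h6 : ((k - 1 : ℕ) : ℝ) ≤ k - 1 := by
      rw [Nat.cast_sub hk]
      simp
    have h7 : (m : ℝ) * dfc σ (symmDiff w0 S) ≤ m * (5 * κ * m + 3 + (k - 1)) := by
      have : (m : ℝ) * ((k - 1 : ℕ) : ℝ) ≤ m * (k - 1) := mul_le_mul_of_nonneg_left h6 hmR.le
      nlinarith
    have h8 : (dfc σ (symmDiff w0 S) : ℝ) ≤ 5 * κ * m + 3 + (k - 1) :=
      le_of_mul_le_mul_left h7 hmR
    have h9 : (m : ℝ) ≤ n := by exact_mod_cast (by omega : m ≤ n)
    have h10 : κ * (m : ℝ) ≤ κ * n := mul_le_mul_of_nonneg_left h9 hκ.le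
    have h11 := hS.2
    linarith
  -- counting
  set E := (powersetCard (k - 1) (univ : V n)).filter fun S =>
        κ * (m : ℝ) ^ 2 < ((topB σ w0 S).card : ℝ) with hE
  have hsum : (E.card : ℝ) * (κ * (m : ℝ) ^ 2) ≤
      ((badT k fun S => σ (symmDiff w0 S)).card : ℝ) * (((k : ℝ) + 1) * k) := by
    have h2 : (E.card : ℝ) * (κ * (m : ℝ) ^ 2) ≤ ∑ S ∈ E, ((topB σ w0 S).card : ℝ) := by
      rw [← nsmul_eq_mul]
      refine card_nsmul_le_sum _ _ _ ?_
      intro S hS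
      rw [hE, mem_filter] at hS
      exact hS.2.le
    have h3 : ∑ S ∈ E, ((topB σ w0 S).card : ℝ) ≤
        ∑ S ∈ powersetCard (k - 1) (univ : Finset (Fin n)), ((topB σ w0 S).card : ℝ) :=
      sum_le_sum_of_subset_of_nonneg (filter_subset _ _) (fun _ _ _ => Nat.cast_nonneg _)
    have h4 := top_sum hk σ w0
    have h5 : ∑ S ∈ powersetCard (k - 1) (univ : Finset (Fin n)), ((topB σ w0 S).card : ℝ) ≤
        ((badT k fun S => σ (symmDiff w0 S)).card : ℝ) * (((k : ℝ) + 1) * k) := by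
      exact_mod_cast h4
    exact h2.trans (h3.trans h5)
  have hch : (n.choose (k + 1) : ℝ) * (((k : ℝ) + 1) * k) ≤ n.choose (k - 1) * (m : ℝ) ^ 2 := by
    have h2 := top_choose n k hk
    rw [← hm] at h2
    have h3 : n.choose (k + 1) * ((k + 1) * k) ≤ n.choose (k - 1) * m ^ 2 := by
      rw [h2, sq]
      exact Nat.mul_le_mul_left _ (Nat.mul_le_mul_left _ (by omega))
    exact_mod_cast h3
  have hfin : (E.card : ℝ) * (κ * (m : ℝ) ^ 2) ≤ (η * n.choose (k - 1)) * (m : ℝ) ^ 2 := by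
    have hk0 : (0 : ℝ) ≤ ((k : ℝ) + 1) * k := by positivity
    calc (E.card : ℝ) * (κ * (m : ℝ) ^ 2)
        ≤ ((badT k fun S => σ (symmDiff w0 S)).card : ℝ) * (((k : ℝ) + 1) * k) := hsum
      _ ≤ (η * n.choose (k + 1)) * (((k : ℝ) + 1) * k) :=
          mul_le_mul_of_nonneg_right (hbad w0) hk0
      _ = η * ((n.choose (k + 1) : ℝ) * (((k : ℝ) + 1) * k)) := by ring
      _ ≤ η * (n.choose (k - 1) * (m : ℝ) ^ 2) := mul_le_mul_of_nonneg_left hch hη.le
      _ = _ := by ring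
  have hm2 : (0 : ℝ) < (m : ℝ) ^ 2 := by positivity
  have hE2 : (E.card : ℝ) * κ ≤ η * n.choose (k - 1) := by
    refine le_of_mul_le_mul_right ?_ hm2
    linarith
  have hle : (((powersetCard (k - 1) (univ : V n)).filter fun S =>
      6 * κ * n < dfc σ (symmDiff w0 S)).card : ℝ) ≤ E.card := by
    exact_mod_cast card_le_card hsub
  refine hle.trans ?_
  rw [div_mul_eq_mul_div, le_div_iff₀ hκ]
  exact hE2

end Pool.Agent.SH
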